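import Pool.Agent.Q60.SS.Comb2

/-!
# Words whose label lies in a multiplicative set, without duality
-/

set_option autoImplicit false

open Finset Filter Topology

namespace Pool.Agent.Q60.SS

section

variable {I : Type*} [Fintype I] [DecidableEq I] {L : Type*} [CommMonoid L]

open Classical in
/-- The words of length `n` with at most `k` letters `i0`, `i1`, whose label completed by `s ^ r` is
in `P`. -/
noncomputable def aw (lab : I → L) (P : L → Prop) (s : L) (i0 i1 : I) (n r k : ℕ) :
    Finset (Fin n → I) :=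
  univ.filter fun g => P ((∏ j, lab (g j)) * s ^ r) ∧ (kset i0 i1 g).card ≤ k

lemma mem_aw {lab : I → L} {P : L → Prop} {s : L} {i0 i1 : I} {n r k : ℕ} {g : Fin n → I} :
    g ∈ aw lab P s i0 i1 n r k ↔
      P ((∏ j, lab (g j)) * s ^ r) ∧ (kset i0 i1 g).card ≤ k := by
  classical
  simp [aw]

omit [Fintype I] in
lemma card_kset_insert (i0 i1 : I) {n : ℕ} (p : Fin (n + 1)) (g : Fin n → I) :
    (kset i0 i1 (Fin.insertNth (α := fun _ => I) p i0 g)).card = (kset i0 i1 g).card + 1 := by
  unfold kset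
  rw [Finset.card_filter, Finset.card_filter, Fin.sum_univ_succAbove _ p]
  simp only [Fin.insertNth_apply_same, Fin.insertNth_apply_succAbove]
  simp
  ring

/-- Insertion of a letter `i0`. -/
lemma insert_step {lab : I → L} {P : L → Prop} {s : L} {i0 i1 : I}
    (hP : ∀ x y, P x → P y → P (x * y)) (hs : P (lab i0 * s)) (n r k : ℕ) :
    (aw lab P s i0 i1 n r k).card * (n + 1) ≤
      (aw lab P s i0 i1 (n + 1) (r + 1) (k + 1)).card * (k + 1) := by
  classical
  have h1 : (aw lab P s i0 i1 n r k).card * (n + 1) =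
      ((aw lab P s i0 i1 n r k) ×ˢ (univ : Finset (Fin (n + 1)))).card := by
    rw [Finset.card_product, Finset.card_univ, Fintype.card_fin]
  have h2 : ((aw lab P s i0 i1 (n + 1) (r + 1) (k + 1)).sigma fun g => kset i0 i1 g).card ≤
      (aw lab P s i0 i1 (n + 1) (r + 1) (k + 1)).card * (k + 1) := by
    rw [Finset.card_sigma]
    refine (Finset.sum_le_card_nsmul _ _ (k + 1) fun g hg => (mem_aw.1 hg).2).trans ?_
    rw [smul_eq_mul]
  rw [h1]
  refine le_trans ?_ h2
  refine Finset.card_le_card_of_injOn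
    (fun x => ⟨Fin.insertNth (α := fun _ => I) x.2 i0 x.1, x.2⟩) ?_ ?_
  · rintro ⟨g, p⟩ hx
    obtain ⟨hg, -⟩ := Finset.mem_product.1 (Finset.mem_coe.1 hx)
    obtain ⟨hg1, hg2⟩ := mem_aw.1 hg
    refine Finset.mem_coe.2 (Finset.mem_sigma.2 ⟨mem_aw.2 ⟨?_, ?_⟩, ?_⟩)
    · rw [Fin.prod_univ_succAbove _ p]
      simp only [Fin.insertNth_apply_same, Fin.insertNth_apply_succAbove]
      have := hP _ _ hg1 hs
      rw [show lab i0 * (∏ j, lab (g j)) * s ^ (r + 1) =
        (∏ j, lab (g j)) * s ^ r * (lab i0 * s) by rw [pow_succ]; simp only [mul_comm, mul_left_comm, mul_assoc]]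
      exact this
    · rw [card_kset_insert]
      exact Nat.succ_le_succ hg2
    · simp [kset]
  · rintro ⟨g, p⟩ - ⟨g', p'⟩ - h
    simp only [Sigma.mk.injEq] at h
    obtain ⟨h3, h4⟩ := h
    have h5 : p = p' := eq_of_heq h4
    subst h5
    refine Prod.ext ?_ rfl
    funext j
    have := congrFun h3 (p.succAbove j)
    simpa using this

lemma aw_mono {lab : I → L} {P : L → Prop} {s : L} {i0 i1 : I} {n r k k' : ℕ} (h : k ≤ k') :
    (aw lab P s i0 i1 n r k).card ≤ (aw lab P s i0 i1 n r k').card :=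
  Finset.card_le_card fun _ hg => mem_aw.2 ⟨(mem_aw.1 hg).1, (mem_aw.1 hg).2.trans h⟩

/-- Insertion of `r` letters `i0`. -/
lemma insert_iter {lab : I → L} {P : L → Prop} {s : L} {i0 i1 : I}
    (hP : ∀ x y, P x → P y → P (x * y)) (hs : P (lab i0 * s)) (n k r : ℕ) :
    (aw lab P s i0 i1 n 0 k).card * n ^ r ≤
      (aw lab P s i0 i1 (n + r) r (k + r)).card * (k + r) ^ r := by
  induction r with
  | zero => simp
  | succ r ih =>
    calc (aw lab P s i0 i1 n 0 k).card * n ^ (r + 1)
        = (aw lab P s i0 i1 n 0 k).card * n ^ r * n := by ring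
      _ ≤ ((aw lab P s i0 i1 (n + r) r (k + r)).card * (k + r) ^ r) * (n + r + 1) :=
          Nat.mul_le_mul ih (by omega)
      _ = ((aw lab P s i0 i1 (n + r) r (k + r)).card * (n + r + 1)) * (k + r) ^ r := by ring
      _ ≤ ((aw lab P s i0 i1 (n + r + 1) (r + 1) (k + r + 1)).card * (k + r + 1)) *
            (k + r) ^ r := Nat.mul_le_mul_right _ (insert_step hP hs _ _ _)
      _ ≤ ((aw lab P s i0 i1 (n + r + 1) (r + 1) (k + r + 1)).card * (k + r + 1)) *
            (k + r + 1) ^ r := Nat.mul_le_mul_left _ (Nat.pow_le_pow_left (by omega) _)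
      _ = _ := by
          show _ = (aw lab P s i0 i1 (n + r + 1) (r + 1) (k + r + 1)).card * (k + r + 1) ^ (r + 1)
          ring

/-- The elements which are the label of a word of length `n`. -/
def Rep (lab : I → L) (n : ℕ) (x : L) : Prop := ∃ v : Fin n → I, ∏ k, lab (v k) = x

omit [Fintype I] [DecidableEq I] in
lemma rep_add {lab : I → L} {m n : ℕ} {x y : L} (hx : Rep lab m x) (hy : Rep lab n y) :
    Rep lab (m + n) (x * y) := by
  obtain ⟨v, rfl⟩ := hx
  obtain ⟨w, rfl⟩ := hy
  refine ⟨Fin.append v w, ?_⟩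
  rw [Fin.prod_univ_add]
  simp only [Fin.append_left, Fin.append_right]

omit [Fintype I] [DecidableEq I] in
lemma rep_pow {lab : I → L} {m : ℕ} {x : L} (hx : Rep lab m x) (r : ℕ) :
    Rep lab (r * m) (x ^ r) := by
  induction r with
  | zero => exact ⟨fun k => absurd k.2 (by simp), by
      rw [pow_zero]
      refine Finset.prod_eq_one fun k _ => absurd k.2 (by simp)⟩
  | succ r ih =>
    rw [Nat.succ_mul, pow_succ]
    exact rep_add ih hx

/-- The number of the words of length `n` with label in `P`. -/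
noncomputable def zw (lab : I → L) (P : L → Prop) (n : ℕ) : ℕ :=
  Nat.card {g : Fin n → I // P (∏ k, lab (g k))}

lemma aw_le {lab : I → L} {P : L → Prop} {s : L} {i0 i1 : I} {m : ℕ} (hs : Rep lab m s)
    (n r k : ℕ) : (aw lab P s i0 i1 n r k).card ≤ zw lab P (n + r * m) := by
  classical
  obtain ⟨v, hv⟩ := rep_pow hs r
  unfold zw
  rw [← Nat.card_eq_finsetCard]
  refine Nat.card_le_card_of_injective (fun g => ⟨Fin.append g.1 v, ?_⟩) ?_
  · rw [Fin.prod_univ_add]
    simp only [Fin.append_left, Fin.append_right]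
    rw [hv]
    exact (mem_aw.1 g.2).1
  · intro g g' h
    apply Subtype.ext
    funext j
    have := congrFun (congrArg Subtype.val h) (Fin.castAdd _ j)
    simpa using this

omit [DecidableEq I] in
lemma zw_super {lab : I → L} {P : L → Prop} (hP : ∀ x y, P x → P y → P (x * y)) (m n : ℕ) :
    zw lab P m * zw lab P n ≤ zw lab P (m + n) := by
  unfold zw
  rw [← Nat.card_prod]
  refine Nat.card_le_card_of_injective (fun p => ⟨Fin.append p.1.1 p.2.1, ?_⟩) ?_
  · rw [Fin.prod_univ_add]
    simp only [Fin.append_left, Fin.append_right]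
    exact hP _ _ p.1.2 p.2.2
  · rintro ⟨⟨g, hg⟩, ⟨h, hh⟩⟩ ⟨⟨g', hg'⟩, ⟨h', hh'⟩⟩ heq
    have h1 : Fin.append g h = Fin.append g' h' := congrArg Subtype.val heq
    have h2 : g = g' := by
      funext j
      have := congrFun h1 (Fin.castAdd _ j)
      simpa using this
    have h3 : h = h' := by
      funext j
      have := congrFun h1 (Fin.natAdd _ j)
      simpa using this
    subst h2 h3
    rfl

omit [DecidableEq I] in
lemma zw_le (lab : I → L) (P : L → Prop) (n : ℕ) : zw lab P n ≤ Fintype.card I ^ n := by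
  unfold zw
  refine (Nat.card_le_card_of_injective (fun g => g.1) Subtype.val_injective).trans ?_
  rw [Nat.card_eq_fintype_card, Fintype.card_fun, Fintype.card_fin]

omit [Fintype I] [DecidableEq I] in
lemma zw_pos [Finite I] {lab : I → L} {P : L → Prop} {is : I} (hP1 : P 1)
    (hP : ∀ x y, P x → P y → P (x * y)) (his : P (lab is)) (n : ℕ) : 1 ≤ zw lab P n := by
  have h2 : ∀ n : ℕ, P (lab is ^ n) := by
    intro n
    induction n with
    | zero => rw [pow_zero]; exact hP1
    | succ n ih => rw [pow_succ]; exact hP _ _ ih his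
  have : Nonempty {g : Fin n → I // P (∏ k, lab (g k))} := ⟨⟨fun _ => is, by
    rw [Finset.prod_const, Finset.card_univ, Fintype.card_fin]
    exact h2 n⟩⟩
  exact Nat.card_pos

end

/-- A supermultiplicative sequence of positive numbers with at most exponential growth. -/
theorem growth {z : ℕ → ℝ} (hz1 : ∀ n, 1 ≤ z n) (hsup : ∀ m n, z m * z n ≤ z (m + n)) {b : ℝ}
    (hb : ∀ n, z n ≤ b ^ n) : ∃ c : ℝ, 0 ≤ c ∧ (∀ n : ℕ, z n ≤ Real.exp (c * n)) ∧
      ∀ η : ℝ, 0 < η → ∀ᶠ n : ℕ in atTop, Real.exp (c * n) ≤ z n * Real.exp (η * n) := by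
  have hz0 : ∀ n, 0 < z n := fun n => by linarith [hz1 n]
  have hb1 : 1 ≤ b := by
    have := (hz1 1).trans (hb 1)
    rwa [pow_one] at this
  set u : ℕ → ℝ := fun n => -Real.log (z n) with hu
  have hsub : Subadditive u := by
    intro m n
    simp only [hu]
    have h1 := Real.log_le_log (mul_pos (hz0 m) (hz0 n)) (hsup m n)
    rw [Real.log_mul (hz0 m).ne' (hz0 n).ne'] at h1
    linarith
  have hlogz : ∀ n : ℕ, Real.log (z n) ≤ n * Real.log b := by
    intro n
    rw [← Real.log_pow]
    exact Real.log_le_log (hz0 n) (hb n)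
  have hbdd : BddBelow (Set.range fun n => u n / n) := by
    refine ⟨-Real.log b, ?_⟩
    rintro _ ⟨n, rfl⟩
    simp only [hu]
    rcases Nat.eq_zero_or_pos n with rfl | hn
    · simp only [Nat.cast_zero, div_zero]
      linarith [Real.log_nonneg hb1]
    · have hn' : (0 : ℝ) < n := by exact_mod_cast hn
      rw [le_div_iff₀ hn']
      linarith [hlogz n]
  have hlim := hsub.tendsto_lim hbdd
  have hlimle : hsub.lim ≤ 0 := by
    refine le_of_tendsto hlim (Eventually.of_forall fun n => ?_)
    simp only [hu]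
    have := Real.log_nonneg (hz1 n)
    exact div_nonpos_of_nonpos_of_nonneg (by linarith) (by positivity)
  refine ⟨-hsub.lim, by linarith, fun n => ?_, fun η hη => ?_⟩
  · rcases Nat.eq_zero_or_pos n with rfl | hn
    · simpa using hb 0
    · have hn' : (0 : ℝ) < n := by exact_mod_cast hn
      have h1 := hsub.lim_le_div hbdd (n := n) (by omega)
      rw [le_div_iff₀ hn'] at h1
      rw [← Real.log_le_iff_le_exp (hz0 n)]
      simp only [hu] at h1
      linarith
  · have h1 := hlim.eventually (gt_mem_nhds (show hsub.lim < hsub.lim + η by linarith))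
    filter_upwards [h1, eventually_gt_atTop 0] with n hn hn0
    have hn' : (0 : ℝ) < n := by exact_mod_cast hn0
    rw [div_lt_iff₀ hn'] at hn
    simp only [hu] at hn
    rw [← Real.exp_log (hz0 n), ← Real.exp_add]
    apply Real.exp_le_exp.2
    linarith

/-- **Words with label in a multiplicative set: only a proportion `O (1 / √n)` is in the middle
layers.** -/
theorem comb_general {I : Type*} [Fintype I] {L : Type*} [CommMonoid L] (lab : I → L) (a : I → ℤ)
    (P : L → Prop) (hP1 : P 1) (hP : ∀ x y, P x → P y → P (x * y))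
    {is i0 i1 : I} (his : P (lab is)) (hlab : lab i0 = lab i1) (ha : a i0 = a i1 + 2)
    {m0 : ℕ} (w0 : Fin m0 → I) (hw : P (∏ k, lab (w0 k))) (hi : ∃ k, w0 k = i0) :
    ∃ C : ℝ, 0 < C ∧ ∀ n : ℕ,
      √(n : ℝ) * (Nat.card {g : Fin n → I // P (∏ k, lab (g k)) ∧
        (∑ k, a (g k) = 0 ∨ ∑ k, a (g k) = 1)} : ℝ) ≤
      C * (Nat.card {g : Fin n → I // P (∏ k, lab (g k))} : ℝ) := by
  classical
  have hne : i0 ≠ i1 := by
    rintro rfl
    omega
  obtain ⟨k0, hk0⟩ := hi
  obtain ⟨m1, rfl⟩ : ∃ m1, m0 = m1 + 1 := ⟨m0 - 1, by have := k0.2; omega⟩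
  set s : L := ∏ j, lab (w0 (k0.succAbove j)) with hs
  have hsrep : Rep lab m1 s := ⟨fun j => w0 (k0.succAbove j), rfl⟩
  have hs1 : P (lab i0 * s) := by
    rw [Fin.prod_univ_succAbove _ k0, hk0] at hw
    exact hw
  set z : ℕ → ℝ := fun n => (zw lab P n : ℝ) with hz
  have hz1 : ∀ n, 1 ≤ z n := fun n => by
    simp only [hz]
    exact_mod_cast zw_pos hP1 hP his n
  obtain ⟨c, hc0, hc1, hc2⟩ := growth (z := z) hz1 (fun m n => by
    simp only [hz]
    exact_mod_cast zw_super hP m n) (b := Fintype.card I) (fun n => by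
    simp only [hz]
    exact_mod_cast zw_le lab P n)
  obtain ⟨D, hD⟩ := exists_nat_ge (2 * Real.exp (c * (m1 + 1) + 3))
  have hD1 : (2 : ℝ) ≤ D := by
    refine le_trans ?_ hD
    have : 1 ≤ Real.exp (c * (m1 + 1) + 3) := Real.one_le_exp (by positivity)
    linarith
  have hD0 : (0 : ℝ) < D := by linarith
  have hDN : 0 < D := by exact_mod_cast hD0
  -- few words have few letters
  have hfew : ∀ᶠ n : ℕ in atTop, ((aw lab P s i0 i1 n 0 (n / D)).card : ℝ) ≤
      z n * (Real.exp 3 * Real.exp (-(2 * n / D))) := by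
    filter_upwards [hc2 (1 / D) (by positivity), eventually_gt_atTop 0] with n hn hn0
    have hn' : (0 : ℝ) < n := by exact_mod_cast hn0
    set r := n / D with hr
    have hr1 : (r : ℝ) ≤ n / D := by
      rw [hr]
      exact Nat.cast_div_le
    have hr2 : (n : ℝ) / D - 1 ≤ r := by
      have h1 : n < (r + 1) * D := by
        rw [hr]
        have := Nat.lt_div_mul_add (a := n) (b := D) hDN
        rw [add_mul, one_mul]
        exact this
      have h2 : (n : ℝ) < ((r : ℝ) + 1) * D := by exact_mod_cast h1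
      have h3 : (n : ℝ) / D < r + 1 := by rwa [div_lt_iff₀ hD0]
      linarith
    have h1 := insert_iter (i1 := i1) hP hs1 n r r
    have h2 := aw_le (P := P) (i0 := i0) (i1 := i1) hsrep (n + r) r (r + r)
    have h3 : ((aw lab P s i0 i1 n 0 r).card : ℝ) * (n : ℝ) ^ r ≤
        z (n + r + r * m1) * ((2 * r : ℝ)) ^ r := by
      have h4 : (aw lab P s i0 i1 n 0 r).card * n ^ r ≤
          zw lab P (n + r + r * m1) * (2 * r) ^ r := by
        refine h1.trans ?_
        rw [two_mul]
        exact Nat.mul_le_mul_right _ h2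
      simp only [hz]
      exact_mod_cast h4
    have h5 : (2 * r : ℝ) ^ r ≤ (n : ℝ) ^ r * (2 / D) ^ r := by
      rw [← mul_pow]
      apply pow_le_pow_left₀ (by positivity)
      calc (2 : ℝ) * r ≤ 2 * (n / D) := by gcongr
        _ = n * (2 / D) := by ring
    have h6 : ((aw lab P s i0 i1 n 0 r).card : ℝ) ≤ z (n + r + r * m1) * (2 / D) ^ r := by
      have h7 : ((aw lab P s i0 i1 n 0 r).card : ℝ) * (n : ℝ) ^ r ≤
          (z (n + r + r * m1) * (2 / D) ^ r) * (n : ℝ) ^ r := by
        refine h3.trans ?_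
        have : 0 ≤ z (n + r + r * m1) := by linarith [hz1 (n + r + r * m1)]
        calc z (n + r + r * m1) * (2 * r : ℝ) ^ r
            ≤ z (n + r + r * m1) * ((n : ℝ) ^ r * (2 / D) ^ r) := by gcongr
          _ = _ := by ring
      exact le_of_mul_le_mul_right h7 (by positivity)
    have h8 : (2 / D : ℝ) ^ r ≤ Real.exp (-(c * (m1 + 1) + 3) * r) := by
      rw [mul_comm, Real.exp_nat_mul]
      apply pow_le_pow_left₀ (by positivity)
      rw [div_le_iff₀ hD0, Real.exp_neg]
      rw [← div_eq_inv_mul, le_div_iff₀ (Real.exp_pos _)]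
      exact hD
    have h9 : z (n + r + r * m1) ≤ Real.exp (c * n) * Real.exp (c * (m1 + 1) * r) := by
      refine (hc1 _).trans (le_of_eq ?_)
      rw [← Real.exp_add]
      congr 1
      push_cast
      ring
    calc ((aw lab P s i0 i1 n 0 r).card : ℝ) ≤ z (n + r + r * m1) * (2 / D) ^ r := h6
      _ ≤ (Real.exp (c * n) * Real.exp (c * (m1 + 1) * r)) *
            Real.exp (-(c * (m1 + 1) + 3) * r) := by gcongr
      _ = Real.exp (c * n) * Real.exp (-(3 * r)) := by
          rw [mul_assoc, ← Real.exp_add]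
          congr 2
          ring
      _ ≤ (z n * Real.exp (1 / D * n)) * Real.exp (-(3 * r)) := by gcongr
      _ ≤ (z n * Real.exp (1 / D * n)) * Real.exp (3 - 3 * n / D) := by
          have : 0 ≤ z n := by linarith [hz1 n]
          gcongr
          have : 3 * ((n : ℝ) / D) = 3 * n / D := by ring
          linarith
      _ = z n * (Real.exp 3 * Real.exp (-(2 * n / D))) := by
          rw [mul_assoc, ← Real.exp_add, ← Real.exp_add]
          congr 2
          ring
  obtain ⟨n0, hn0⟩ := eventually_atTop.1 hfew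
  refine ⟨Real.exp 3 * D + √(D : ℝ) + √(n0 : ℝ) + 1, by positivity, fun n => ?_⟩
  have hzc : z n = ((univ.filter fun g : Fin n → I => P (∏ k, lab (g k))).card : ℝ) := by
    simp only [hz, zw]
    rw [Nat.card_eq_fintype_card, Fintype.card_subtype]
  have hzc' : (Nat.card {g : Fin n → I // P (∏ k, lab (g k))} : ℝ) = z n := rfl
  have htc : (Nat.card {g : Fin n → I // P (∏ k, lab (g k)) ∧
      (∑ k, a (g k) = 0 ∨ ∑ k, a (g k) = 1)} : ℝ) =
      ((univ.filter fun g : Fin n → I => P (∏ k, lab (g k)) ∧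
        (∑ k, a (g k) = 0 ∨ ∑ k, a (g k) = 1)).card : ℝ) := by
    rw [Nat.card_eq_fintype_card, Fintype.card_subtype]
  rw [htc, hzc']
  have hzn : 0 < z n := by linarith [hz1 n]
  set T := univ.filter fun g : Fin n → I => P (∏ k, lab (g k)) with hT
  have htz : ((univ.filter fun g : Fin n → I => P (∏ k, lab (g k)) ∧
        (∑ k, a (g k) = 0 ∨ ∑ k, a (g k) = 1)).card : ℝ) ≤ z n := by
    rw [hzc]
    norm_cast
    exact Finset.card_le_card fun g hg => mem_filter.2 ⟨mem_univ _, (mem_filter.1 hg).2.1⟩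
  rcases lt_or_ge n n0 with hlt | hge
  · have h1 : √(n : ℝ) ≤ √(n0 : ℝ) := Real.sqrt_le_sqrt (by exact_mod_cast hlt.le)
    calc √(n : ℝ) * _ ≤ √(n0 : ℝ) * z n := by gcongr
      _ ≤ _ := by
        have : 0 ≤ Real.exp 3 * D + √(D : ℝ) + 1 := by positivity
        nlinarith
  · rcases Nat.eq_zero_or_pos n with rfl | hn
    · rw [Nat.cast_zero, Real.sqrt_zero, zero_mul]
      positivity
    have hnR : (1 : ℝ) ≤ n := by exact_mod_cast hn
    have hs0 : 0 < √(n : ℝ) := Real.sqrt_pos.2 (by linarith)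
    have hup := upper_bound hne lab hlab a ha P n
    have hsplit : ∑ g ∈ T, 1 / √(((kset i0 i1 g).card + 1 : ℕ) : ℝ) ≤
        √(D : ℝ) / √(n : ℝ) * z n + z n * (Real.exp 3 * Real.exp (-(2 * n / D))) := by
      rw [← Finset.sum_filter_add_sum_filter_not T (fun g => (kset i0 i1 g).card ≤ n / D),
        add_comm]
      apply add_le_add
      · rw [hzc, mul_comm, ← nsmul_eq_mul]
        refine le_trans (Finset.sum_le_card_nsmul _ _ (√(D : ℝ) / √(n : ℝ)) fun g hg => ?_) ?_
        · have h1 := (mem_filter.1 hg).2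
          rw [not_le] at h1
          rw [← Real.sqrt_div (by positivity), ← Real.sqrt_one, ← Real.sqrt_div (by norm_num)]
          apply Real.sqrt_le_sqrt
          rw [div_le_div_iff₀ (by positivity) (by linarith)]
          have h2 : n < ((kset i0 i1 g).card + 1) * D := by
            have h3 := Nat.lt_div_mul_add (a := n) (b := D) hDN
            have h4 : (n / D + 1) * D ≤ ((kset i0 i1 g).card + 1) * D :=
              Nat.mul_le_mul_right _ (by omega)
            rw [add_mul, one_mul] at h4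
            omega
          have h3 : (n : ℝ) < (((kset i0 i1 g).card + 1 : ℕ) : ℝ) * D := by exact_mod_cast h2
          linarith
        · rw [nsmul_eq_mul, nsmul_eq_mul]
          gcongr
          exact Finset.filter_subset _ _
      · refine le_trans ?_ (hn0 n hge)
        refine le_trans (Finset.sum_le_card_nsmul _ _ 1 fun g _ => ?_) ?_
        · rw [div_le_one (by positivity), ← Real.sqrt_one]
          apply Real.sqrt_le_sqrt
          push_cast
          linarith [Nat.cast_nonneg (α := ℝ) (kset i0 i1 g).card]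
        · rw [nsmul_eq_mul, mul_one]
          have : (T.filter fun g => (kset i0 i1 g).card ≤ n / D) ⊆
              aw lab P s i0 i1 n 0 (n / D) := by
            intro g hg
            obtain ⟨h1, h2⟩ := mem_filter.1 hg
            exact mem_aw.2 ⟨by rw [pow_zero, mul_one]; exact (mem_filter.1 h1).2, h2⟩
          exact_mod_cast Finset.card_le_card this
    have hexp : √(n : ℝ) * Real.exp (-(2 * n / D)) ≤ D := by
      have h1 : √(n : ℝ) ≤ n := by
        rw [Real.sqrt_le_left (by linarith)]
        nlinarith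
      have h2 : (2 * n / D : ℝ) ≤ Real.exp (2 * n / D) := by
        have := Real.add_one_le_exp (2 * n / D : ℝ)
        linarith
      rw [Real.exp_neg, ← div_eq_mul_inv, div_le_iff₀ (Real.exp_pos _)]
      calc √(n : ℝ) ≤ n := h1
        _ ≤ D * (2 * n / D) := by
            rw [mul_div_cancel₀ _ hD0.ne']
            linarith
        _ ≤ D * Real.exp (2 * n / D) := by gcongr
    calc √(n : ℝ) * _ ≤ √(n : ℝ) * (√(D : ℝ) / √(n : ℝ) * z n +
          z n * (Real.exp 3 * Real.exp (-(2 * n / D)))) := by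
          gcongr
          exact hup.trans hsplit
      _ = √(D : ℝ) * z n + Real.exp 3 * (√(n : ℝ) * Real.exp (-(2 * n / D))) * z n := by
          field_simp
      _ ≤ √(D : ℝ) * z n + Real.exp 3 * D * z n := by gcongr
      _ ≤ _ := by
          have : 0 ≤ √(n0 : ℝ) + 1 := by positivity
          nlinarith

end Pool.Agent.Q60.SS
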