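import Pool.Agent.Q60.SS.Tate2
import Pool.Agent.Q60.SS.Comb3

/-!
# The zero-one law for the Tate classes on powers, without duality
-/

set_option autoImplicit false

open Module TensorProduct Filter Topology

namespace Pool.Agent.Q60.SS

universe u v w

open Pool.Agent.Y163.MW Pool.Agent.Y136.UB Pool.Agent.Q60.PL

/-- There is a non-zero Tate class: `x ≠ 0` in `H^(2 j)` with `F x = q ^ j x`. -/
def HasTate {Ω : Type w} [Field Ω] (R : FCoh.{v, w} Ω) (q : ℕ) : Prop :=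
  ∃ j : ℕ, ∃ x ∈ R.gr (2 * j), x ≠ 0 ∧ R.F x = (q : Ω) ^ j • x

section

variable {Ω : Type w} [Field Ω] [CharZero Ω] {q : ℕ}

omit [CharZero Ω] in
/-- The dichotomy for words. -/
theorem word_dichotomy {I : Type} [Fintype I] (α : I → Ω) (a : I → ℤ) (m : I → ℕ) (is : I)
    (his : ∃ j : ℕ, α is = (q : Ω) ^ j ∧ m is = 2 * j)
    (hstr : ∀ i, a i ≠ 0 → ∃ i0 i1, (α i0, m i0) = (α i, m i) ∧ (α i1, m i1) = (α i, m i) ∧
      a i0 = a i1 + 2) :
    (∀ n, 0 < zc q α m n) ∧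
    ((∀ n, tc q α a m n = zc q α m n) ∨ ∃ C : ℝ, 0 < C ∧ ∀ n : ℕ,
      √(n : ℝ) * (tc q α a m n : ℝ) ≤ C * (zc q α m n : ℝ)) := by
  classical
  let lab : I → Ω × Multiplicative ℕ := fun i => (α i, Multiplicative.ofAdd (m i))
  let P : Ω × Multiplicative ℕ → Prop := fun x =>
    ∃ j : ℕ, x = ((q : Ω) ^ j, Multiplicative.ofAdd (2 * j))
  have hlab : ∀ (n : ℕ) (g : Fin n → I), ∏ k, lab (g k) =
      (∏ k, α (g k), Multiplicative.ofAdd (∑ k, m (g k))) := by
    intro n g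
    apply Prod.ext
    · rw [Prod.fst_prod]
    · rw [Prod.snd_prod, ofAdd_sum]
  have hP : ∀ (n : ℕ) (g : Fin n → I), P (∏ k, lab (g k)) ↔
      ∃ j : ℕ, ∏ k, α (g k) = (q : Ω) ^ j ∧ ∑ k, m (g k) = 2 * j := by
    intro n g
    show (∃ j : ℕ, ∏ k, lab (g k) = ((q : Ω) ^ j, Multiplicative.ofAdd (2 * j))) ↔ _
    refine exists_congr fun j => ?_
    rw [hlab, Prod.mk.injEq]
    exact and_congr_right fun _ => Multiplicative.ofAdd.injective.eq_iff
  have hP1 : P 1 := ⟨0, by simp; rfl⟩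
  have hPm : ∀ x y, P x → P y → P (x * y) := by
    rintro _ _ ⟨j, rfl⟩ ⟨j', rfl⟩
    refine ⟨j + j', ?_⟩
    rw [Prod.mk_mul_mk, ← pow_add, ← ofAdd_add, mul_add]
  have his' : P (lab is) := by
    obtain ⟨j, h1, h2⟩ := his
    exact ⟨j, by show (α is, Multiplicative.ofAdd (m is)) = _; rw [h1, h2]⟩
  have hz : ∀ n, zc q α m n = Nat.card {g : Fin n → I // P (∏ k, lab (g k))} := fun n =>
    Nat.card_congr (Equiv.subtypeEquivRight fun g => (hP n g).symm)
  have ht : ∀ n, tc q α a m n = Nat.card {g : Fin n → I // P (∏ k, lab (g k)) ∧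
      (∑ k, a (g k) = 0 ∨ ∑ k, a (g k) = 1)} := fun n =>
    Nat.card_congr (Equiv.subtypeEquivRight fun g => and_congr_left fun _ => (hP n g).symm)
  refine ⟨fun n => ?_, ?_⟩
  · rw [hz]
    exact zw_pos (lab := lab) (P := P) hP1 hPm his' n
  · by_cases hbad : ∃ (m0 : ℕ) (w0 : Fin m0 → I), P (∏ k, lab (w0 k)) ∧ ∃ k, a (w0 k) ≠ 0
    · right
      obtain ⟨m0, w0, hw, k, hk⟩ := hbad
      obtain ⟨i0, i1, h1, h2, h3⟩ := hstr _ hk
      have e1 : lab i0 = lab (w0 k) := by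
        rw [Prod.mk.injEq] at h1
        show (α i0, Multiplicative.ofAdd (m i0)) = (α (w0 k), Multiplicative.ofAdd (m (w0 k)))
        rw [h1.1, h1.2]
      have e2 : lab i1 = lab (w0 k) := by
        rw [Prod.mk.injEq] at h2
        show (α i1, Multiplicative.ofAdd (m i1)) = (α (w0 k), Multiplicative.ofAdd (m (w0 k)))
        rw [h2.1, h2.2]
      obtain ⟨C, hC, hC'⟩ := comb_general lab a P hP1 hPm his' (e1.trans e2.symm) h3
        (Function.update w0 k i0) (by
          have : ∀ j, lab (Function.update w0 k i0 j) = lab (w0 j) := by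
            intro j
            by_cases hj : j = k
            · subst hj
              rw [Function.update_self, e1]
            · rw [Function.update_of_ne hj]
          rw [Finset.prod_congr rfl fun j _ => this j]
          exact hw) ⟨k, Function.update_self k i0 w0⟩
      refine ⟨C, hC, fun n => ?_⟩
      rw [ht, hz]
      exact hC' n
    · left
      push Not at hbad
      intro n
      rw [ht, hz]
      refine Nat.card_congr (Equiv.subtypeEquivRight fun g => ⟨fun h => h.1, fun h => ⟨h, ?_⟩⟩)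
      left
      exact Finset.sum_eq_zero fun k _ => hbad n g h k

variable [IsAlgClosed Ω]

/-- **The zero-one law for Tate classes on the powers (no duality needed).** -/
theorem tate_zero_one {R : ℕ → FCoh.{v, w} Ω} (hR : IsFCoh (R 0))
    (hint : ∀ n, DirectSum.IsInternal (R n).gr)
    (hκ : ∀ n, ∃ κ, IsFKunneth (R 0) (R n) (R (n + 1)) κ) (h1 : HasTate (R 0) q) :
    (∀ n, 0 < poleOrder (R n) q) ∧
    ((∀ n, tateDim (R n) q = poleOrder (R n) q) ∨ ∃ C : ℝ, 0 < C ∧ ∀ n : ℕ,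
      √((n + 1 : ℕ) : ℝ) * (tateDim (R n) q : ℝ) ≤ C * (poleOrder (R n) q : ℝ)) := by
  classical
  have := hR.finite
  obtain ⟨ι, hι, len, αs, ms, b, S, N, e, h, D, HJ, ⟨hD1, hD2, hD3⟩, hb⟩ :=
    exists_JD hR.isInternal hR.F_gr hR.inj
  have HD : IsDeg b (fun p : Σ s : ι, Fin (len s + 1) => ms p.1) D N e := ⟨hD1, hD2, hD3⟩
  have HA : DAdp (R 0) (fun p : Σ s : ι, Fin (len s + 1) => αs p.1) (sw len)
      (fun p => ms p.1) := ⟨b, S, N, e, h, D, HJ, HD, hb⟩
  obtain ⟨is, his⟩ : ∃ i : Σ s : ι, Fin (len s + 1), ∃ j : ℕ, αs i.1 = (q : Ω) ^ j ∧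
      ms i.1 = 2 * j := by
    obtain ⟨j, x, hx0, hx1, hx2⟩ := h1
    have h2 : x ∈ gpc (R 0) (2 * j, (q : Ω) ^ j) := Submodule.mem_inf.2 ⟨hx0, mem_gen.2 ⟨1, by
      rw [pow_one, LinearMap.sub_apply, Module.algebraMap_end_apply, hx2, sub_self]⟩⟩
    have h3 : finrank Ω (gpc (R 0) (2 * j, (q : Ω) ^ j)) ≠ 0 := by
      intro h0
      rw [Submodule.finrank_eq_zero] at h0
      rw [h0, Submodule.mem_bot] at h2
      exact hx1 h2
    rw [finrank_gpc hR.isInternal HJ hb] at h3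
    have h4 : Nonempty {i : Σ s : ι, Fin (len s + 1) // αs i.1 = (q : Ω) ^ j ∧
        ms i.1 = 2 * j} := by
      by_contra hcon
      rw [not_nonempty_iff] at hcon
      exact h3 Nat.card_of_isEmpty
    obtain ⟨i, hi⟩ := h4
    exact ⟨i, j, hi⟩
  obtain ⟨w1, w2⟩ := word_dichotomy (q := q)
    (fun p : Σ s : ι, Fin (len s + 1) => αs p.1) (sw len) (fun p => ms p.1) is his (by
      rintro ⟨s, i⟩ hi
      have hs : 1 ≤ len s := by
        by_contra hcon
        apply hi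
        unfold sw
        have := i.2
        simp only
        omega
      exact ⟨⟨s, ⟨0, by omega⟩⟩, ⟨s, ⟨1, by omega⟩⟩, rfl, rfl, by unfold sw; simp⟩)
  have hz : ∀ n, poleOrder (R n) q = (zc q (fun p : Σ s : ι, Fin (len s + 1) => αs p.1)
      (fun p => ms p.1) (n + 1) : ℤ) := by
    intro n
    obtain ⟨b', S', N', e', h', D', H', HD', hb'⟩ := HA.pow hκ n
    exact poleOrder_eq (hint n) H' hb' q
  have ht : ∀ n, tateDim (R n) q = (tc q (fun p : Σ s : ι, Fin (len s + 1) => αs p.1) (sw len)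
      (fun p => ms p.1) (n + 1) : ℤ) := by
    intro n
    obtain ⟨b', S', N', e', h', D', H', HD', hb'⟩ := HA.pow hκ n
    exact tateDim_eq (hint n) H' HD' hb' q
  refine ⟨fun n => ?_, ?_⟩
  · rw [hz]
    exact_mod_cast w1 (n + 1)
  · rcases w2 with h0 | ⟨C, hC, hC'⟩
    · left
      intro n
      rw [hz, ht, h0]
    · right
      refine ⟨C, hC, fun n => ?_⟩
      rw [hz, ht]
      exact_mod_cast hC' (n + 1)

/-- If the Tate classes are a positive proportion of the order of the poles on infinitely many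
powers, then equality holds on all powers. -/
theorem eq_of_tate {R : ℕ → FCoh.{v, w} Ω} (hR : IsFCoh (R 0))
    (hint : ∀ n, DirectSum.IsInternal (R n).gr)
    (hκ : ∀ n, ∃ κ, IsFKunneth (R 0) (R n) (R (n + 1)) κ) (h1 : HasTate (R 0) q)
    {ε : ℝ} (hε : 0 < ε) (h : ∃ᶠ n in atTop, ε * poleOrder (R n) q ≤ tateDim (R n) q) :
    ∀ n, tateDim (R n) q = poleOrder (R n) q := by
  obtain ⟨h2, h3 | ⟨C, hC, hC'⟩⟩ := tate_zero_one hR hint hκ h1
  · exact h3
  exfalso
  have h4 : Tendsto (fun n : ℕ => √((n + 1 : ℕ) : ℝ)) atTop atTop :=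
    (tendsto_add_atTop_iff_nat 1).2 (Real.tendsto_sqrt_atTop.comp tendsto_natCast_atTop_atTop)
  have h5 := h4.eventually (eventually_gt_atTop (C / ε))
  obtain ⟨n, hn1, hn2⟩ := (h.and_eventually h5).exists
  rw [div_lt_iff₀ hε] at hn2
  have h6 : (0 : ℝ) < poleOrder (R n) q := by exact_mod_cast h2 n
  have h7 := hC' n
  have h8 : √((n + 1 : ℕ) : ℝ) * (ε * poleOrder (R n) q) ≤
      √((n + 1 : ℕ) : ℝ) * (tateDim (R n) q : ℝ) := by gcongr
  have h9 : C * poleOrder (R n) q < √((n + 1 : ℕ) : ℝ) * ε * poleOrder (R n) q := by gcongr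
  linarith

end

/-- The eigenvalue `q ^ j` (`1` on `H^(2 j) (j)`) is semisimple on `H^(2 j)`. -/
def SemisimpleAt {Ω : Type w} [Field Ω] (R : FCoh.{v, w} Ω) (q j : ℕ) : Prop :=
  ∀ x ∈ R.gr (2 * j), x ∈ R.F.maxGenEigenspace ((q : Ω) ^ j) → R.F x = (q : Ω) ^ j • x

/-- Equality of the dimension of the Tate classes and the order of the poles means semisimplicity. -/
theorem tateDim_eq_iff {Ω : Type w} [Field Ω] {R : FCoh.{v, w} Ω} (hR : IsFCoh R) (q : ℕ) :
    tateDim R q = poleOrder R q ↔ ∀ j, SemisimpleAt R q j := by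
  classical
  have := hR.finite
  have hfm : {m | R.gr m ≠ ⊥}.Finite :=
    WellFoundedGT.finite_ne_bot_of_iSupIndep hR.isInternal.submodule_iSupIndep
  have hfj : {j | R.gr (2 * j) ≠ ⊥}.Finite := by
    refine (hfm.image (fun m => m / 2)).subset fun j hj => ⟨2 * j, hj, by simp⟩
  have hsupp : ∀ (C : ℕ → Submodule Ω R.V), (∀ j, C j ≤ R.gr (2 * j)) →
      Function.support (fun j : ℕ => (finrank Ω (C j) : ℤ)) ⊆ hfj.toFinset := by
    intro C hC j hj
    rw [Finset.mem_coe, hfj.mem_toFinset]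
    intro h0
    apply hj
    have h1 : C j = ⊥ := le_bot_iff.1 ((hC j).trans h0.le)
    show (finrank Ω (C j) : ℤ) = 0
    rw [h1, finrank_bot]
    rfl
  have hle : ∀ j, R.gr (2 * j) ⊓ R.F.eigenspace ((q : Ω) ^ j) ≤
      R.gr (2 * j) ⊓ R.F.maxGenEigenspace ((q : Ω) ^ j) := by
    intro j
    refine inf_le_inf_left _ fun x hx => mem_gen.2 ⟨1, ?_⟩
    rw [pow_one, LinearMap.sub_apply, Module.algebraMap_end_apply,
      Module.End.mem_eigenspace_iff.1 hx, sub_self]
  unfold tateDim poleOrder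
  rw [finsum_eq_sum_of_support_subset _ (hsupp (fun j => R.gr (2 * j) ⊓
      R.F.eigenspace ((q : Ω) ^ j)) fun j => inf_le_left),
    finsum_eq_sum_of_support_subset _ (hsupp (fun j => R.gr (2 * j) ⊓
      R.F.maxGenEigenspace ((q : Ω) ^ j)) fun j => inf_le_left)]
  have hle' : ∀ j ∈ hfj.toFinset, (finrank Ω (R.gr (2 * j) ⊓ R.F.eigenspace ((q : Ω) ^ j) :
      Submodule Ω R.V) : ℤ) ≤ (finrank Ω (R.gr (2 * j) ⊓ R.F.maxGenEigenspace ((q : Ω) ^ j) :
      Submodule Ω R.V) : ℤ) := fun j _ => by exact_mod_cast Submodule.finrank_mono (hle j)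
  rw [Finset.sum_eq_sum_iff_of_le hle']
  constructor
  · intro h j x hx hx'
    by_cases hj : R.gr (2 * j) = ⊥
    · rw [hj, Submodule.mem_bot] at hx
      rw [hx, map_zero, smul_zero]
    · have h1 := h j (hfj.mem_toFinset.2 hj)
      have h2 := Submodule.eq_of_le_of_finrank_eq (hle j) (by exact_mod_cast h1)
      have h3 : x ∈ R.gr (2 * j) ⊓ R.F.eigenspace ((q : Ω) ^ j) := by
        rw [h2]
        exact Submodule.mem_inf.2 ⟨hx, hx'⟩
      exact Module.End.mem_eigenspace_iff.1 (Submodule.mem_inf.1 h3).2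
  · intro h j _
    have h2 : R.gr (2 * j) ⊓ R.F.eigenspace ((q : Ω) ^ j) =
        R.gr (2 * j) ⊓ R.F.maxGenEigenspace ((q : Ω) ^ j) := by
      refine le_antisymm (hle j) fun x hx => ?_
      obtain ⟨h3, h4⟩ := Submodule.mem_inf.1 hx
      exact Submodule.mem_inf.2 ⟨h3, Module.End.mem_eigenspace_iff.2 (h j x h3 h4)⟩
    rw [h2]

end Pool.Agent.Q60.SS
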