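import Pool.Agent.Q60.SS.Pow

/-!
# The second cohomology of the surfaces over a finite field, and its tensor powers
-/

set_option autoImplicit false

open Module TensorProduct Filter Topology

namespace Pool.Agent.Q60.SS

universe u v w

open Pool.Agent.H914

/-- The data of the second cohomology, with its Frobenius, of all the smooth proper varieties
over `k` (only those of dimension `2` matter). -/
structure H2Theory (k : Type u) [Field k] (Ω : Type w) [Field Ω] where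
  /-- the space `H^2` with the Frobenius -/
  H2 : SmVar.{u} k → Op.{v, w} Ω

/-- The bilinear forms on a space. -/
def Op.Form {Ω : Type w} [Field Ω] (H : Op.{v, w} Ω) : Type (max v w) := H.V →ₗ[Ω] H.V →ₗ[Ω] Ω

/-- The value `B (x, y)`. -/
def Op.val {Ω : Type w} [Field Ω] {H : Op.{v, w} Ω} (B : H.Form) (x y : H.V) : Ω :=
  (show H.V →ₗ[Ω] H.V →ₗ[Ω] Ω from B) x y

/-- `B` is non-degenerate and `B (F x, F y) = q ^ 2 B (x, y)`. -/
structure Op.IsPairing {Ω : Type w} [Field Ω] (H : Op.{v, w} Ω) (q : ℕ) (B : H.Form) : Prop where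
  nondeg : ∀ x, (∀ y, H.val B x y = 0) → x = 0
  frob : ∀ x y, H.val B (H.F x) (H.F y) = (q : Ω) ^ 2 * H.val B x y

/-- The known properties for the smooth projective surfaces `S` over a finite field with `q`
elements: `H^2 (S)` is finite dimensional, `F` is invertible, the intersection form is non-degenerate
with `B (F x, F y) = q ^ 2 B (x, y)`, and the class `x` of an ample divisor satisfies `F x = q x`. -/
structure H2Theory.IsWeil {k : Type u} [Field k] {Ω : Type w} [Field Ω]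
    (T : H2Theory.{u, v, w} k Ω) (q : ℕ) : Prop where
  finite : ∀ S, S.dim = 2 → Module.Finite Ω (T.H2 S).V
  inj : ∀ S, S.dim = 2 → Function.Injective (T.H2 S).F
  dual : ∀ S, S.dim = 2 → ∃ B, (T.H2 S).IsPairing q B
  ample : ∀ S, S.dim = 2 → ∃ x, x ≠ 0 ∧ (T.H2 S).F x = (q : Ω) • x

/-- The laws for the tensor powers of a space with an operator and a duality. -/
theorem op_law {Ω : Type w} [Field Ω] [CharZero Ω] [IsAlgClosed Ω] {q : ℕ} (hq : 0 < q)
    {H : Op.{v, w} Ω} (hfin : Module.Finite Ω H.V) (hinj : Function.Injective H.F)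
    {B : H.V →ₗ[Ω] H.V →ₗ[Ω] Ω} (hB : ∀ x, (∀ y, B x y = 0) → x = 0)
    (hB' : ∀ x y, B (H.F x) (H.F y) = (q : Ω) ^ 2 * B x y)
    (hx : ∃ x, x ≠ 0 ∧ H.F x = (q : Ω) • x) (b A : ℝ) (hb : b = finrank Ω H.V)
    (hA : A = jordanMoment H.F) :
    (∀ n, 0 < (H.pow n).mult ((q : Ω) ^ (n + 1))) ∧
    (Semisimple H.F → ∀ n, Semisimple (H.pow n).F) ∧
    (¬ Semisimple H.F → (0 < A ∧ ∀ t : ℝ, 0 ≤ t →
      Tendsto (fun n : ℕ => √((n + 1 : ℕ) : ℝ) *
        ((blocks (H.pow n).F ⌊t * √((n + 1 : ℕ) : ℝ)⌋₊ : ℝ) / b ^ (n + 1))) atTop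
        (𝓝 (√(2 * b / (Real.pi * A)) * Real.exp (-(t ^ 2 * b / (2 * A)))))) ∧
      ∃ C : ℝ, 0 < C ∧ ∀ n : ℕ, √((n + 1 : ℕ) : ℝ) *
        ((H.pow n).eigDim ((q : Ω) ^ (n + 1)) : ℝ) ≤
          C * ((H.pow n).mult ((q : Ω) ^ (n + 1)) : ℝ)) ∧
    (∀ ε : ℝ, 0 < ε → (∃ᶠ n in atTop, ε * ((H.pow n).mult ((q : Ω) ^ (n + 1)) : ℝ) ≤
      ((H.pow n).eigDim ((q : Ω) ^ (n + 1)) : ℝ)) → Semisimple H.F) := by
  have hR : IsFCoh (H.coh (2 * 1)) := Op.coh_isFCoh hfin hinj _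
  let R : ℕ → FCoh.{v, w} Ω := fun n => (H.pow n).coh (2 * (1 * (n + 1)))
  have hint : ∀ n, DirectSum.IsInternal (R n).gr := fun n => Op.coh_internal _ _
  have hκ : ∀ n, ∃ κ, IsFKunneth (R 0) (R n) (R (n + 1)) κ := fun n => H.pow_kunneth 1 n
  have hP : IsFPoincare (R 0) q 2 B := by
    refine ⟨hB, fun m m' x y hx hy hm => ?_, hB'⟩
    rcases (Op.mem_gr H).1 hx with h1 | h1
    · rcases (Op.mem_gr H).1 hy with h2 | h2
      · omega
      · subst h2
        exact map_zero (B x)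
    · subst h1
      exact LinearMap.map_zero₂ B y
  have hT : HasTate (R 0) q := by
    obtain ⟨x, h1, h2⟩ := hx
    exact ⟨1, x, (Op.mem_gr H).2 (Or.inl rfl), h1, by rw [pow_one]; exact h2⟩
  have ht : ∀ n, tateDim (R n) q = (H.pow n).eigDim ((q : Ω) ^ (n + 1)) := by
    intro n
    have := Op.tateDim_coh (H.pow n) (1 * (n + 1)) q
    rw [one_mul] at this
    simp only [R, one_mul]
    exact this
  have hz : ∀ n, poleOrder (R n) q = (H.pow n).mult ((q : Ω) ^ (n + 1)) := by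
    intro n
    have := Op.poleOrder_coh (H.pow n) (1 * (n + 1)) q
    rw [one_mul] at this
    simp only [R, one_mul]
    exact this
  obtain ⟨h1, h2, h3⟩ := tate_law' (R := R) hq hR hint hκ hP hT
  obtain ⟨h4, h5⟩ := jordan_law (R := R) hR hκ b A hb hA
  refine ⟨fun n => ?_, h4, fun h0 => ⟨h5 h0, ?_⟩, fun ε hε h => ?_⟩
  · have := h1 n
    rw [hz] at this
    exact_mod_cast this
  · obtain ⟨C, hC, hC'⟩ := h3 h0
    refine ⟨C, hC, fun n => ?_⟩
    have := hC' n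
    rw [hz, ht] at this
    exact_mod_cast this
  · refine semisimple_of_tate' (R := R) hq hR hint hκ hP hT hε (h.mono fun n hn => ?_)
    rw [hz, ht]
    exact_mod_cast hn

/-- The dimension of the space of the Tate classes in `H^(⊗ (n + 1))`, `H = H^2 (S)`. -/
noncomputable def H2Theory.t {k : Type u} [Field k] {Ω : Type w} [Field Ω]
    (T : H2Theory.{u, v, w} k Ω) (q : ℕ) (S : SmVar.{u} k) (n : ℕ) : ℕ :=
  ((T.H2 S).pow n).eigDim ((q : Ω) ^ (n + 1))

/-- The multiplicity of the eigenvalue `q ^ (n + 1)` on `H^(⊗ (n + 1))`, `H = H^2 (S)`. -/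
noncomputable def H2Theory.z {k : Type u} [Field k] {Ω : Type w} [Field Ω]
    (T : H2Theory.{u, v, w} k Ω) (q : ℕ) (S : SmVar.{u} k) (n : ℕ) : ℕ :=
  ((T.H2 S).pow n).mult ((q : Ω) ^ (n + 1))

/-- The number of the Jordan blocks of size greater than `t √(n + 1)` on `H^(⊗ (n + 1))`, times
`√(n + 1) / b ^ (n + 1)`. -/
noncomputable def Op.scaled {Ω : Type w} [Field Ω] (H : Op.{v, w} Ω) (b t : ℝ) (n : ℕ) : ℝ :=
  √((n + 1 : ℕ) : ℝ) * ((blocks (H.pow n).F ⌊t * √((n + 1 : ℕ) : ℝ)⌋₊ : ℝ) / b ^ (n + 1))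

/-- The limit law of the sizes of the Jordan blocks on the tensor powers of `H`. -/
def Op.Rayleigh {Ω : Type w} [Field Ω] (H : Op.{v, w} Ω) (b A : ℝ) : Prop :=
  ∀ t : ℝ, 0 ≤ t → Tendsto (H.scaled b t) atTop
    (𝓝 (√(2 * b / (Real.pi * A)) * Real.exp (-(t ^ 2 * b / (2 * A)))))

/-- `t_n ≤ C z_n / √n` for a constant `C` and all `n`. -/
def H2Theory.Decay {k : Type u} [Field k] {Ω : Type w} [Field Ω]
    (T : H2Theory.{u, v, w} k Ω) (q : ℕ) (S : SmVar.{u} k) : Prop :=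
  ∃ C : ℝ, 0 < C ∧ ∀ n : ℕ, √((n + 1 : ℕ) : ℝ) * (T.t q S n : ℝ) ≤ C * (T.z q S n : ℝ)

/-- There is a space of eigenvectors for `γ` of dimension at least `a`. -/
def Op.HasEig {Ω : Type w} [Field Ω] (H : Op.{v, w} Ω) (γ : Ω) (a : ℝ) : Prop :=
  ∃ W : Submodule Ω H.V, W ≤ H.F.eigenspace γ ∧ a ≤ (finrank Ω W : ℝ)

/-- Some spaces of Tate classes in `H^(⊗ (n + 1))` have dimension at least `ε z` for infinitely
many `n`. -/
def H2Theory.Dense {k : Type u} [Field k] {Ω : Type w} [Field Ω]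
    (T : H2Theory.{u, v, w} k Ω) (q : ℕ) (S : SmVar.{u} k) (ε : ℝ) : Prop :=
  ∃ᶠ n in atTop, ((T.H2 S).pow n).HasEig ((q : Ω) ^ (n + 1)) (ε * (T.z q S n : ℝ))

end Pool.Agent.Q60.SS
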