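import Mathlib

/-!
# Words whose label is fixed: the middle layers are small
-/

set_option autoImplicit false

open Finset Filter Topology

namespace Pool.Agent.Q60.SS

/-- Bound for the central binomial coefficients. -/
lemma central_bound (m : ℕ) : (Nat.centralBinom m) ^ 2 * (2 * m + 1) ≤ 16 ^ m := by
  induction m with
  | zero => simp
  | succ m ih =>
    have h1 := Nat.succ_mul_centralBinom_succ m
    have h2 : (m + 1) ^ 2 * ((Nat.centralBinom (m + 1)) ^ 2 * (2 * (m + 1) + 1)) =
        4 * (2 * m + 1) * (2 * m + 3) * ((Nat.centralBinom m) ^ 2 * (2 * m + 1)) := by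
      have h3 : ((m + 1) * Nat.centralBinom (m + 1)) ^ 2 = (2 * (2 * m + 1) * Nat.centralBinom m) ^ 2 := by
        rw [← h1]
      calc (m + 1) ^ 2 * ((Nat.centralBinom (m + 1)) ^ 2 * (2 * (m + 1) + 1))
          = ((m + 1) * Nat.centralBinom (m + 1)) ^ 2 * (2 * m + 3) := by ring
        _ = (2 * (2 * m + 1) * Nat.centralBinom m) ^ 2 * (2 * m + 3) := by rw [h3]
        _ = _ := by ring
    have h4 : (m + 1) ^ 2 * ((Nat.centralBinom (m + 1)) ^ 2 * (2 * (m + 1) + 1)) ≤
        (m + 1) ^ 2 * 16 ^ (m + 1) := by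
      rw [h2]
      calc 4 * (2 * m + 1) * (2 * m + 3) * ((Nat.centralBinom m) ^ 2 * (2 * m + 1))
          ≤ 4 * (2 * m + 1) * (2 * m + 3) * 16 ^ m := Nat.mul_le_mul_left _ ih
        _ ≤ (m + 1) ^ 2 * 16 * 16 ^ m := by
            apply Nat.mul_le_mul_right
            nlinarith
        _ = (m + 1) ^ 2 * 16 ^ (m + 1) := by ring
    exact Nat.le_of_mul_le_mul_left h4 (by positivity)

/-- Bound for the binomial coefficients. -/
lemma choose_bound (K s : ℕ) : (K.choose s) ^ 2 * (K + 1) ≤ 4 ^ K := by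
  have h0 : K.choose s ≤ K.choose (K / 2) := Nat.choose_le_middle s K
  refine le_trans (Nat.mul_le_mul_right _ (Nat.pow_le_pow_left h0 2)) ?_
  rcases Nat.even_or_odd' K with ⟨m, rfl | rfl⟩
  · rw [show 2 * m / 2 = m by omega, ← Nat.centralBinom_eq_two_mul_choose, pow_mul]
    exact central_bound m
  · rw [show (2 * m + 1) / 2 = m by omega]
    have h1 : 2 * (2 * m + 1).choose m = Nat.centralBinom (m + 1) := by
      rw [Nat.centralBinom_eq_two_mul_choose, show 2 * (m + 1) = 2 * m + 1 + 1 by ring,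
        Nat.choose_succ_succ', Nat.choose_symm_half]
      ring
    have h2 := central_bound (m + 1)
    rw [← h1] at h2
    have h3 : (2 * (2 * m + 1).choose m) ^ 2 * (2 * (m + 1) + 1) =
        4 * (((2 * m + 1).choose m) ^ 2 * (2 * m + 1 + 1)) + 4 * ((2 * m + 1).choose m) ^ 2 := by
      ring
    rw [h3] at h2
    have h4 : (16 : ℕ) ^ (m + 1) = 4 * 4 ^ (2 * m + 1) := by
      rw [show (16 : ℕ) = 4 ^ 2 by norm_num, ← pow_mul]
      ring
    rw [h4] at h2
    have h5 : 4 * (((2 * m + 1).choose m) ^ 2 * (2 * m + 1 + 1)) ≤ 4 * 4 ^ (2 * m + 1) := by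
      omega
    exact Nat.le_of_mul_le_mul_left h5 (by norm_num)

lemma choose_bound_real (K s : ℕ) : (K.choose s : ℝ) ≤ 2 ^ K / √((K + 1 : ℕ) : ℝ) := by
  have h := choose_bound K s
  have h1 : (0 : ℝ) < √((K + 1 : ℕ) : ℝ) := Real.sqrt_pos.2 (by positivity)
  rw [le_div_iff₀ h1]
  have h2 : ((K.choose s : ℝ) * √((K + 1 : ℕ) : ℝ)) ^ 2 ≤ (2 ^ K) ^ 2 := by
    rw [mul_pow, Real.sq_sqrt (by positivity), ← pow_mul, mul_comm K 2, pow_mul]
    norm_num
    exact_mod_cast h
  exact le_of_sq_le_sq h2 (by positivity)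
where
  le_of_sq_le_sq {x y : ℝ} (h : x ^ 2 ≤ y ^ 2) (hy : 0 ≤ y) : x ≤ y := by
    exact le_of_abs_le (abs_le_of_sq_le_sq h hy)

section

variable {I : Type*} [Fintype I] [DecidableEq I]

/-- The positions of the letters `i0` and `i1`. -/
def kset (i0 i1 : I) {n : ℕ} (g : Fin n → I) : Finset (Fin n) :=
  univ.filter fun k => g k = i0 ∨ g k = i1

/-- Replace the letters `i1` by `i0`. -/
def red (i0 i1 : I) {n : ℕ} (g : Fin n → I) : Fin n → I := fun k => if g k = i1 then i0 else g k

variable {i0 i1 : I} (hne : i0 ≠ i1)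
include hne

lemma kset_red {n : ℕ} (g : Fin n → I) : kset i0 i1 (red i0 i1 g) = kset i0 i1 g := by
  ext k
  simp only [kset, red, mem_filter, mem_univ, true_and]
  by_cases h : g k = i1
  · simp [h]
  · simp [h]

/-- A fibre of `red`. -/
lemma fibre_equiv {n : ℕ} (u : Fin n → I) (hu : red i0 i1 u = u) :
    (univ.filter fun g : Fin n → I => red i0 i1 g = u).card = 2 ^ (kset i0 i1 u).card ∧
    ∀ (a : I → ℤ), a i0 = a i1 + 2 →
      (univ.filter fun g : Fin n → I => red i0 i1 g = u ∧
        (∑ k, a (g k) = 0 ∨ ∑ k, a (g k) = 1)).card ≤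
      2 ^ (kset i0 i1 u).card ∧
      ((univ.filter fun g : Fin n → I => red i0 i1 g = u ∧
        (∑ k, a (g k) = 0 ∨ ∑ k, a (g k) = 1)).card : ℝ) ≤
        2 ^ (kset i0 i1 u).card / √(((kset i0 i1 u).card + 1 : ℕ) : ℝ) := by
  have hu1 : ∀ k, u k ≠ i1 := by
    intro k hk
    have := congrFun hu k
    simp only [red, hk, if_true] at this
    exact hne this
  -- the positions of `i1`
  let pos : (Fin n → I) → Finset (Fin n) := fun g => univ.filter fun k => g k = i1
  let fill : Finset (Fin n) → (Fin n → I) := fun A k => if k ∈ A then i1 else u k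
  have hpos : ∀ g, red i0 i1 g = u → pos g ⊆ kset i0 i1 u := by
    intro g hg k hk
    simp only [pos, mem_filter, mem_univ, true_and] at hk
    rw [← hg, kset_red hne]
    simp [kset, hk]
  have hfp : ∀ g, red i0 i1 g = u → fill (pos g) = g := by
    intro g hg
    funext k
    simp only [fill, pos, mem_filter, mem_univ, true_and]
    split_ifs with h
    · exact h.symm
    · rw [← hg]
      simp [red, h]
  have hpf : ∀ A, pos (fill A) = A := by
    intro A
    ext k
    simp only [fill, pos, mem_filter, mem_univ, true_and]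
    by_cases h : k ∈ A
    · simp [h]
    · simp [h, hu1 k]
  have hrf : ∀ A, A ⊆ kset i0 i1 u → red i0 i1 (fill A) = u := by
    intro A hA
    funext k
    simp only [fill, red]
    by_cases h : k ∈ A
    · have h1 := hA h
      simp only [kset, mem_filter, mem_univ, true_and] at h1
      rcases h1 with h1 | h1
      · simp [h, h1]
      · exact absurd h1 (hu1 k)
    · simp [h, hu1 k]
  have hsum : ∀ (a : I → ℤ), a i0 = a i1 + 2 → ∀ g, red i0 i1 g = u →
      ∑ k, a (g k) = ∑ k, a (u k) - 2 * ((pos g).card : ℤ) := by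
    intro a ha g hg
    have h1 : ∀ k, a (g k) = a (u k) - (if k ∈ pos g then 2 else 0) := by
      intro k
      rw [← hg]
      by_cases h : g k = i1
      · have : k ∈ pos g := by simp [pos, h]
        simp [red, h, this, ha]
      · have : k ∉ pos g := by simp [pos, h]
        simp [red, h, this]
    rw [Finset.sum_congr rfl (fun k _ => h1 k), Finset.sum_sub_distrib, Finset.sum_ite_mem,
      Finset.univ_inter, Finset.sum_const, nsmul_eq_mul]
    ring
  constructor
  · rw [← card_powerset]
    refine Finset.card_bij' (fun g _ => pos g) (fun A _ => fill A) ?_ ?_ ?_ ?_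
    · intro g hg
      exact mem_powerset.2 (hpos g (mem_filter.1 hg).2)
    · intro A hA
      exact mem_filter.2 ⟨mem_univ _, hrf A (mem_powerset.1 hA)⟩
    · intro g hg
      exact hfp g (mem_filter.1 hg).2
    · intro A _
      exact hpf A
  · intro a ha
    have hcard : ∃ s, (univ.filter fun g : Fin n → I => red i0 i1 g = u ∧
        (∑ k, a (g k) = 0 ∨ ∑ k, a (g k) = 1)).card ≤ (kset i0 i1 u).card.choose s := by
      refine ⟨((∑ k, a (u k)) / 2).toNat, ?_⟩
      rw [← Finset.card_powersetCard]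
      refine Finset.card_le_card_of_injOn pos ?_ ?_
      · intro g hg
        obtain ⟨hg1, hg2⟩ := (mem_filter.1 hg).2
        refine Finset.mem_coe.2 (mem_powersetCard.2 ⟨hpos g hg1, ?_⟩)
        rw [hsum a ha g hg1] at hg2
        omega
      · intro g hg g' hg' h
        rw [← hfp g (mem_filter.1 hg).2.1, ← hfp g' (mem_filter.1 hg').2.1]
        exact congrArg fill h
    obtain ⟨s, hs⟩ := hcard
    refine ⟨hs.trans (Nat.choose_le_two_pow _ _), ?_⟩
    exact (Nat.cast_le.2 hs).trans (choose_bound_real _ s)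

end

end Pool.Agent.Q60.SS
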