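import Pool.Agent.Q60.SS.Comb

/-!
# Words whose label is fixed: upper and lower bounds
-/

set_option autoImplicit false

open Finset Filter Topology

namespace Pool.Agent.Q60.SS

section

variable {I : Type*} [Fintype I] [DecidableEq I] {L : Type*} [CommMonoid L]

/-- The upper bound for the words in the middle layers. -/
theorem upper_bound {i0 i1 : I} (hne : i0 ≠ i1) (lab : I → L) (hlab : lab i0 = lab i1)
    (a : I → ℤ) (ha : a i0 = a i1 + 2) (P : L → Prop) [DecidablePred P] (n : ℕ) :
    ((univ.filter fun g : Fin n → I => P (∏ k, lab (g k)) ∧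
      (∑ k, a (g k) = 0 ∨ ∑ k, a (g k) = 1)).card : ℝ) ≤
    ∑ g ∈ univ.filter fun g : Fin n → I => P (∏ k, lab (g k)),
      1 / √(((kset i0 i1 g).card + 1 : ℕ) : ℝ) := by
  have hlab' : ∀ g : Fin n → I, ∏ k, lab (red i0 i1 g k) = ∏ k, lab (g k) := by
    intro g
    refine Finset.prod_congr rfl fun k _ => ?_
    unfold red
    split_ifs with h
    · rw [hlab, h]
    · rfl
  have hrr : ∀ g : Fin n → I, red i0 i1 (red i0 i1 g) = red i0 i1 g := by
    intro g
    funext k
    unfold red
    by_cases h : g k = i1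
    · simp [h, hne]
    · simp [h]
  rw [Finset.card_eq_sum_ones, Nat.cast_sum,
    ← Finset.sum_fiberwise (univ.filter fun g : Fin n → I => P (∏ k, lab (g k)) ∧
      (∑ k, a (g k) = 0 ∨ ∑ k, a (g k) = 1)) (red i0 i1),
    ← Finset.sum_fiberwise (univ.filter fun g : Fin n → I => P (∏ k, lab (g k))) (red i0 i1)]
  refine Finset.sum_le_sum fun u _ => ?_
  by_cases hu : red i0 i1 u = u ∧ P (∏ k, lab (u k))
  · obtain ⟨hu1, hu2⟩ := hu
    obtain ⟨h1, h2⟩ := fibre_equiv hne u hu1
    obtain ⟨-, h3⟩ := h2 a ha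
    have e1 : (univ.filter fun g : Fin n → I => P (∏ k, lab (g k)) ∧
        (∑ k, a (g k) = 0 ∨ ∑ k, a (g k) = 1)).filter (fun g => red i0 i1 g = u) =
        univ.filter fun g : Fin n → I => red i0 i1 g = u ∧
          (∑ k, a (g k) = 0 ∨ ∑ k, a (g k) = 1) := by
      ext g
      simp only [mem_filter, mem_univ, true_and]
      constructor
      · rintro ⟨⟨-, h⟩, h'⟩
        exact ⟨h', h⟩
      · rintro ⟨h, h'⟩
        refine ⟨⟨?_, h'⟩, h⟩
        rw [← hlab' g, h]
        exact hu2
    have e2 : (univ.filter fun g : Fin n → I => P (∏ k, lab (g k))).filter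
        (fun g => red i0 i1 g = u) = univ.filter fun g : Fin n → I => red i0 i1 g = u := by
      ext g
      simp only [mem_filter, mem_univ, true_and]
      constructor
      · rintro ⟨-, h⟩
        exact h
      · intro h
        refine ⟨?_, h⟩
        rw [← hlab' g, h]
        exact hu2
    rw [e1, e2]
    have e3 : ∑ g ∈ univ.filter (fun g : Fin n → I => red i0 i1 g = u),
        1 / √(((kset i0 i1 g).card + 1 : ℕ) : ℝ) =
        2 ^ (kset i0 i1 u).card / √(((kset i0 i1 u).card + 1 : ℕ) : ℝ) := by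
      have : ∀ g ∈ univ.filter (fun g : Fin n → I => red i0 i1 g = u),
          1 / √(((kset i0 i1 g).card + 1 : ℕ) : ℝ) =
          1 / √(((kset i0 i1 u).card + 1 : ℕ) : ℝ) := by
        intro g hg
        have h := (mem_filter.1 hg).2
        rw [← h, kset_red hne]
      rw [Finset.sum_congr rfl this, Finset.sum_const, h1, nsmul_eq_mul]
      push_cast
      ring
    rw [e3]
    refine le_trans (le_of_eq ?_) h3
    simp
  · have e1 : (univ.filter fun g : Fin n → I => P (∏ k, lab (g k)) ∧
        (∑ k, a (g k) = 0 ∨ ∑ k, a (g k) = 1)).filter (fun g => red i0 i1 g = u) = ∅ := by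
      rw [Finset.filter_eq_empty_iff]
      intro g hg h
      apply hu
      subst h
      exact ⟨hrr g, by rw [hlab' g]; exact (mem_filter.1 hg).2.1⟩
    rw [e1]
    simp only [Finset.sum_empty]
    exact Finset.sum_nonneg fun g _ => by positivity

/-- Few words contain few letters `i0`, `i1`. -/
theorem chernoff (i0 i1 : I) (hne : i0 ≠ i1) {y : ℝ} (hy : 1 ≤ y) (D n : ℕ) :
    ((univ.filter fun g : Fin n → I => D * (kset i0 i1 g).card < n).card : ℝ) ≤
      (y * ((Fintype.card I : ℝ) - 2 + 2 * (y ^ D)⁻¹)) ^ n := by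
  have hy0 : 0 < y := by linarith
  let w : I → ℝ := fun i => y * (if i = i0 ∨ i = i1 then (y ^ D)⁻¹ else 1)
  have hw0 : ∀ i, 0 ≤ w i := by
    intro i
    show 0 ≤ y * (if i = i0 ∨ i = i1 then (y ^ D)⁻¹ else 1)
    split_ifs <;> positivity
  have hsum : ∑ i, w i = y * ((Fintype.card I : ℝ) - 2 + 2 * (y ^ D)⁻¹) := by
    show ∑ i, y * (if i = i0 ∨ i = i1 then (y ^ D)⁻¹ else 1) = _
    rw [← Finset.mul_sum]
    congr 1
    have h1 : ∀ i : I, (if i = i0 ∨ i = i1 then (y ^ D)⁻¹ else (1 : ℝ)) =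
        1 + (if i = i0 then ((y ^ D)⁻¹ - 1) else 0) + (if i = i1 then ((y ^ D)⁻¹ - 1) else 0) := by
      intro i
      by_cases h0 : i = i0
      · have : ¬ i = i1 := fun h => hne (h0.symm.trans h)
        simp [h0, hne]
      · by_cases h1 : i = i1
        · simp [h1, Ne.symm hne]
        · simp [h0, h1]
    rw [Finset.sum_congr rfl (fun i _ => h1 i), Finset.sum_add_distrib, Finset.sum_add_distrib,
      Finset.sum_ite_eq' univ i0 (fun _ => (y ^ D)⁻¹ - 1),
      Finset.sum_ite_eq' univ i1 (fun _ => (y ^ D)⁻¹ - 1)]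
    simp
    ring
  rw [← hsum, Fintype.sum_pow]
  have hprod : ∀ g : Fin n → I, ∏ k, w (g k) = y ^ n * ((y ^ D)⁻¹) ^ (kset i0 i1 g).card := by
    intro g
    show ∏ k, y * (if g k = i0 ∨ g k = i1 then (y ^ D)⁻¹ else 1) = _
    rw [Finset.prod_mul_distrib, Finset.prod_const, Finset.card_univ, Fintype.card_fin,
      Finset.prod_ite, Finset.prod_const, Finset.prod_const_one, mul_one]
    rfl
  rw [Finset.card_eq_sum_ones, Nat.cast_sum]
  refine le_trans ?_ (Finset.sum_le_sum_of_subset_of_nonneg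
    (Finset.subset_univ (univ.filter fun g : Fin n → I => D * (kset i0 i1 g).card < n))
    fun g _ _ => Finset.prod_nonneg fun k _ => hw0 _)
  refine Finset.sum_le_sum fun g hg => ?_
  rw [hprod]
  have h1 := (mem_filter.1 hg).2
  push_cast
  rw [inv_pow, ← pow_mul, ← div_eq_mul_inv, le_div_iff₀ (by positivity), one_mul]
  exact pow_le_pow_right₀ hy h1.le

/-- The number of the occurrences of a letter. -/
def occ {n : ℕ} (g : Fin n → I) (i : I) : Fin (n + 1) :=
  ⟨(univ.filter fun k => g k = i).card, by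
    have := Finset.card_le_univ (univ.filter fun k => g k = i)
    rw [Fintype.card_fin] at this
    omega⟩

lemma prod_occ (lab : I → L) {n : ℕ} (g : Fin n → I) :
    ∏ k, lab (g k) = ∏ i, lab i ^ (occ g i : ℕ) := by
  rw [← Finset.prod_fiberwise univ g (fun k => lab (g k))]
  refine Finset.prod_congr rfl fun i _ => ?_
  rw [Finset.prod_congr rfl (g := fun _ => lab i) (fun k hk => by rw [(mem_filter.1 hk).2]),
    Finset.prod_const]
  rfl

/-- The lower bound for the words with the label `c ^ r`. -/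
theorem lower_even (lab : I → L) (σ : I ≃ I) (c : L) (hσ : ∀ i, lab i * lab (σ i) = c) (r : ℕ) :
    Fintype.card I ^ (2 * r) ≤ (r + 1) ^ Fintype.card I *
      Nat.card {g : Fin (r + r) → I // ∏ k, lab (g k) = c ^ r} := by
  classical
  set f : (I → Fin (r + 1)) → ℕ := fun o =>
    (univ.filter fun g : Fin r → I => (fun i => occ g i) = o).card with hf
  have h1 : ∑ o, f o = Fintype.card I ^ r := by
    rw [hf]
    rw [← Finset.card_eq_sum_card_fiberwise (f := fun g : Fin r → I => fun i => occ g i)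
      (s := univ) (t := univ) (fun _ _ => Finset.mem_coe.2 (mem_univ _))]
    rw [Finset.card_univ, Fintype.card_fun, Fintype.card_fin]
  have h2 := sq_sum_le_card_mul_sum_sq (s := (univ : Finset (I → Fin (r + 1)))) (f := f)
  rw [h1, Finset.card_univ, Fintype.card_fun, Fintype.card_fin, ← pow_mul, mul_comm r 2] at h2
  refine h2.trans (Nat.mul_le_mul_left _ ?_)
  -- pairs with the same occurrences
  have h3 : ∑ o, f o ^ 2 = (univ.filter fun p : (Fin r → I) × (Fin r → I) =>
      (fun i => occ p.1 i) = (fun i => occ p.2 i)).card := by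
    rw [Finset.card_eq_sum_card_fiberwise (f := fun p : (Fin r → I) × (Fin r → I) =>
      fun i => occ p.1 i) (s := univ.filter fun p : (Fin r → I) × (Fin r → I) =>
      (fun i => occ p.1 i) = (fun i => occ p.2 i)) (t := univ)
      (fun _ _ => Finset.mem_coe.2 (mem_univ _))]
    refine Finset.sum_congr rfl fun o _ => ?_
    rw [sq, hf]
    simp only
    rw [← Finset.card_product]
    congr 1
    ext p
    simp only [mem_product, mem_filter, mem_univ, true_and]
    constructor
    · rintro ⟨h, h'⟩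
      exact ⟨h.trans h'.symm, h⟩
    · rintro ⟨h, h'⟩
      exact ⟨h', h.symm.trans h'⟩
  rw [h3, ← Fintype.card_subtype, ← Nat.card_eq_fintype_card]
  refine Nat.card_le_card_of_injective (fun p => ⟨Fin.append p.1.1 (fun k => σ (p.1.2 k)), ?_⟩) ?_
  · rw [Fin.prod_univ_add]
    simp only [Fin.append_left, Fin.append_right]
    have h4 : ∏ k, lab (p.1.1 k) = ∏ k, lab (p.1.2 k) := by
      rw [prod_occ lab, prod_occ lab]
      refine Finset.prod_congr rfl fun i _ => ?_
      rw [congrFun p.2 i]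
    rw [h4, ← Finset.prod_mul_distrib, Finset.prod_congr rfl (fun k _ => hσ _), Finset.prod_const,
      Finset.card_univ, Fintype.card_fin]
  · rintro ⟨⟨g, h⟩, hp⟩ ⟨⟨g', h'⟩, hp'⟩ heq
    have h5 := congrArg Subtype.val heq
    simp only at h5
    have h6 : g = g' := by
      funext k
      have := congrFun h5 (Fin.castAdd r k)
      simpa using this
    have h7 : h = h' := by
      funext k
      have := congrFun h5 (Fin.natAdd r k)
      simp only [Fin.append_right] at this
      exact σ.injective this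
    subst h6 h7
    rfl

/-- The lower bound for all lengths. -/
theorem lower_bound (lab : I → L) (σ : I ≃ I) (c : L) (hσ : ∀ i, lab i * lab (σ i) = c)
    (is : I) (his : lab is = 1) (P : L → Prop) (hP : ∀ r : ℕ, P (c ^ r)) (n : ℕ) :
    Fintype.card I ^ n ≤ Fintype.card I * (n + 1) ^ Fintype.card I *
      Nat.card {g : Fin n → I // P (∏ k, lab (g k))} := by
  have hb : 1 ≤ Fintype.card I := Fintype.card_pos_iff.2 ⟨is⟩
  rcases Nat.even_or_odd' n with ⟨r, rfl | rfl⟩
  · have h1 := lower_even lab σ c hσ r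
    have h2 : Nat.card {g : Fin (r + r) → I // ∏ k, lab (g k) = c ^ r} ≤
        Nat.card {g : Fin (r + r) → I // P (∏ k, lab (g k))} :=
      Nat.card_le_card_of_injective (fun g => ⟨g.1, by rw [g.2]; exact hP r⟩)
        (fun g g' h => Subtype.ext (Subtype.mk.inj h))
    rw [← two_mul] at h1 h2
    calc Fintype.card I ^ (2 * r) ≤ (r + 1) ^ Fintype.card I * _ := h1
      _ ≤ (Fintype.card I * (2 * r + 1) ^ Fintype.card I) * _ := by
          refine Nat.mul_le_mul ?_ h2
          calc (r + 1) ^ Fintype.card I ≤ (2 * r + 1) ^ Fintype.card I :=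
                Nat.pow_le_pow_left (by omega) _
            _ ≤ _ := Nat.le_mul_of_pos_left _ hb
  · have h1 := lower_even lab σ c hσ r
    rw [← two_mul] at h1
    have h2 : Nat.card {g : Fin (2 * r) → I // ∏ k, lab (g k) = c ^ r} ≤
        Nat.card {g : Fin (2 * r + 1) → I // P (∏ k, lab (g k))} := by
      refine Nat.card_le_card_of_injective (fun g => ⟨Fin.cons is g.1, ?_⟩) ?_
      · rw [Fin.prod_univ_succ]
        simp only [Fin.cons_zero, Fin.cons_succ]
        rw [his, one_mul, g.2]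
        exact hP r
      · intro g g' h
        apply Subtype.ext
        have h3 := congrArg Subtype.val h
        simp only at h3
        exact Fin.cons_right_injective _ h3
    calc Fintype.card I ^ (2 * r + 1) = Fintype.card I * Fintype.card I ^ (2 * r) := by ring
      _ ≤ Fintype.card I * ((r + 1) ^ Fintype.card I * _) := Nat.mul_le_mul_left _ h1
      _ ≤ Fintype.card I * ((2 * r + 1 + 1) ^ Fintype.card I * _) := by
          refine Nat.mul_le_mul_left _ (Nat.mul_le_mul ?_ h2)
          exact Nat.pow_le_pow_left (by omega) _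
      _ = _ := by ring

/-- **Words with a fixed label: only a proportion `O (1 / √n)` is in the middle layers.** -/
theorem comb_main {I : Type*} [Fintype I] {L : Type*} [CommMonoid L] (lab : I → L) (a : I → ℤ)
    (P : L → Prop) (σ : I ≃ I) (c : L) (hσ : ∀ i, lab i * lab (σ i) = c) (hP : ∀ r : ℕ, P (c ^ r))
    {is i0 i1 : I} (his : lab is = 1) (hlab : lab i0 = lab i1) (ha : a i0 = a i1 + 2) :
    ∃ C : ℝ, 0 < C ∧ ∀ n : ℕ,
      √(n : ℝ) * (Nat.card {g : Fin n → I // P (∏ k, lab (g k)) ∧
        (∑ k, a (g k) = 0 ∨ ∑ k, a (g k) = 1)} : ℝ) ≤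
      C * (Nat.card {g : Fin n → I // P (∏ k, lab (g k))} : ℝ) := by
  classical
  have hne : i0 ≠ i1 := by
    rintro rfl
    omega
  set b : ℕ := Fintype.card I with hb
  have hb2 : 2 ≤ b := by
    have : ({i0, i1} : Finset I).card ≤ b := Finset.card_le_univ _
    rwa [Finset.card_pair hne] at this
  have hbR : (2 : ℝ) ≤ b := by exact_mod_cast hb2
  set y : ℝ := 1 + 1 / (2 * b) with hy
  have hb0 : (0 : ℝ) < b := by linarith
  have hy1 : 1 ≤ y := by
    rw [hy]
    have : 0 ≤ 1 / (2 * (b : ℝ)) := by positivity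
    linarith
  set D : ℕ := 2 * b + 1 with hD
  set ρ : ℝ := y * ((b : ℝ) - 2 + 2 * (y ^ D)⁻¹) / b with hρ
  have hy0 : 0 < y := by linarith
  have hρ0 : 0 ≤ ρ := by
    rw [hρ]
    have : 0 ≤ (y ^ D)⁻¹ := by positivity
    apply div_nonneg (mul_nonneg hy0.le (by linarith)) hb0.le
  have hρ1 : ρ < 1 := by
    rw [hρ, div_lt_one hb0]
    have h1 : (2 : ℝ) ≤ y ^ (2 * b) := by
      have h2 := one_add_mul_le_pow (a := 1 / (2 * (b : ℝ)))
        (by have : 0 ≤ 1 / (2 * (b : ℝ)) := by positivity
            linarith) (2 * b)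
      have h3 : (1 : ℝ) + ((2 * b : ℕ) : ℝ) * (1 / (2 * b)) = 2 := by
        push_cast
        field_simp
        ring
      rw [h3] at h2
      exact h2
    have h4 : y * (2 * (y ^ D)⁻¹) ≤ 1 := by
      rw [hD, pow_succ, mul_inv]
      have h5 : (y ^ (2 * b))⁻¹ ≤ 1 / 2 := by
        rw [inv_le_comm₀ (by positivity) (by norm_num)]
        linarith
      have h6 : y * (2 * ((y ^ (2 * b))⁻¹ * y⁻¹)) = 2 * (y ^ (2 * b))⁻¹ := by
        field_simp
      rw [h6]
      linarith
    have h7 : y * ((b : ℝ) - 2) ≤ b - 2 + 1 / 2 := by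
      rw [hy, add_mul, one_mul]
      have : 1 / (2 * (b : ℝ)) * (b - 2) ≤ 1 / 2 := by
        rw [div_mul_eq_mul_div, one_mul, div_le_iff₀ (by positivity)]
        linarith
      linarith
    have h8 : y * ((b : ℝ) - 2 + 2 * (y ^ D)⁻¹) = y * ((b : ℝ) - 2) + y * (2 * (y ^ D)⁻¹) := by
      ring
    linarith
  -- the exponentially small term
  obtain ⟨C0, hC0⟩ := (tendsto_pow_const_mul_const_pow_of_abs_lt_one (b + 1)
    (r := ρ) (by rwa [abs_of_nonneg hρ0])).bddAbove_range
  have hC0' : ∀ n : ℕ, (n : ℝ) ^ (b + 1) * ρ ^ n ≤ C0 := fun n => hC0 ⟨n, rfl⟩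
  have hC00 : 0 ≤ C0 := by
    have := hC0' 0
    simpa using this
  refine ⟨√(D : ℝ) + b * 2 ^ b * C0 + 1, by positivity, fun n => ?_⟩
  rcases Nat.eq_zero_or_pos n with rfl | hn
  · rw [Nat.cast_zero, Real.sqrt_zero, zero_mul]
    positivity
  have hnR : (1 : ℝ) ≤ n := by exact_mod_cast hn
  set z : ℝ := (Nat.card {g : Fin n → I // P (∏ k, lab (g k))} : ℝ) with hz
  have hz0 : 0 ≤ z := by positivity
  have hlow : (b : ℝ) ^ n ≤ b * (n + 1) ^ b * z := by
    have := lower_bound lab σ c hσ is his P hP n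
    rw [hz]
    exact_mod_cast this
  have hup := upper_bound hne lab hlab a ha P n
  have hzc : z = ((univ.filter fun g : Fin n → I => P (∏ k, lab (g k))).card : ℝ) := by
    rw [hz, Nat.card_eq_fintype_card, Fintype.card_subtype]
  have htc : (Nat.card {g : Fin n → I // P (∏ k, lab (g k)) ∧
      (∑ k, a (g k) = 0 ∨ ∑ k, a (g k) = 1)} : ℝ) =
      ((univ.filter fun g : Fin n → I => P (∏ k, lab (g k)) ∧
        (∑ k, a (g k) = 0 ∨ ∑ k, a (g k) = 1)).card : ℝ) := by
    rw [Nat.card_eq_fintype_card, Fintype.card_subtype]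
  rw [htc]
  set T := univ.filter fun g : Fin n → I => P (∏ k, lab (g k)) with hT
  have hs0 : 0 < √(n : ℝ) := Real.sqrt_pos.2 (by linarith)
  have hsplit : ∑ g ∈ T, 1 / √(((kset i0 i1 g).card + 1 : ℕ) : ℝ) ≤
      √(D : ℝ) / √(n : ℝ) * z + (b * ρ) ^ n := by
    rw [← Finset.sum_filter_add_sum_filter_not T (fun g => D * (kset i0 i1 g).card < n), add_comm]
    apply add_le_add
    · rw [hzc, mul_comm, ← nsmul_eq_mul]
      refine le_trans (Finset.sum_le_card_nsmul _ _ (√(D : ℝ) / √(n : ℝ)) fun g hg => ?_) ?_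
      · have h1 := (mem_filter.1 hg).2
        rw [not_lt] at h1
        rw [← Real.sqrt_div (by positivity), ← Real.sqrt_one, ← Real.sqrt_div (by norm_num)]
        apply Real.sqrt_le_sqrt
        rw [div_le_div_iff₀ (by positivity) (by linarith)]
        have h2 : (n : ℝ) ≤ D * (kset i0 i1 g).card := by exact_mod_cast h1
        have h3 : (0 : ℝ) ≤ D := by positivity
        push_cast
        linarith
      · rw [nsmul_eq_mul, nsmul_eq_mul]
        gcongr
        exact Finset.filter_subset _ _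
    · have h1 := chernoff i0 i1 hne hy1 D n
      have h2 : (b : ℝ) * ρ = y * ((Fintype.card I : ℝ) - 2 + 2 * (y ^ D)⁻¹) := by
        rw [hρ, mul_div_cancel₀ _ hb0.ne']
      rw [h2]
      refine le_trans ?_ h1
      refine le_trans (Finset.sum_le_card_nsmul _ _ 1 fun g _ => ?_) ?_
      · rw [div_le_one (by positivity), ← Real.sqrt_one]
        apply Real.sqrt_le_sqrt
        push_cast
        linarith [Nat.cast_nonneg (α := ℝ) (kset i0 i1 g).card]
      · rw [nsmul_eq_mul, mul_one]
        have : (T.filter fun g => D * (kset i0 i1 g).card < n) ⊆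
            univ.filter fun g : Fin n → I => D * (kset i0 i1 g).card < n := by
          intro g hg
          exact mem_filter.2 ⟨mem_univ _, (mem_filter.1 hg).2⟩
        exact_mod_cast Finset.card_le_card this
  have hexp : √(n : ℝ) * (b * ρ) ^ n ≤ b * 2 ^ b * C0 * z := by
    have h1 : √(n : ℝ) ≤ n := by
      rw [Real.sqrt_le_left (by linarith)]
      nlinarith
    have h2 : ((n : ℝ) + 1) ^ b ≤ 2 ^ b * n ^ b := by
      rw [← mul_pow]
      gcongr
      linarith
    calc √(n : ℝ) * (b * ρ) ^ n = √(n : ℝ) * ρ ^ n * b ^ n := by rw [mul_pow]; ring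
      _ ≤ √(n : ℝ) * ρ ^ n * (b * (n + 1) ^ b * z) := by gcongr
      _ ≤ n * ρ ^ n * (b * (2 ^ b * n ^ b) * z) := by gcongr
      _ = b * 2 ^ b * (n ^ (b + 1) * ρ ^ n) * z := by ring
      _ ≤ b * 2 ^ b * C0 * z := by
          gcongr
          exact hC0' n
  calc √(n : ℝ) * _ ≤ √(n : ℝ) * (√(D : ℝ) / √(n : ℝ) * z + (b * ρ) ^ n) := by
        gcongr
        exact hup.trans hsplit
    _ = √(D : ℝ) * z + √(n : ℝ) * (b * ρ) ^ n := by
        field_simp
    _ ≤ √(D : ℝ) * z + b * 2 ^ b * C0 * z := by gcongr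
    _ ≤ (√(D : ℝ) + b * 2 ^ b * C0 + 1) * z := by nlinarith

end

end Pool.Agent.Q60.SS
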