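import Pool.Agent.Q60.SS.J
import Pool.Agent.Y163.MW.Wt

/-!
# Existence of adapted bases
-/

set_option autoImplicit false

open Module TensorProduct Polynomial

namespace Pool.Agent.Q60.SS

universe u v w

open Pool.Agent.Y163.MW Pool.Agent.Y136.UB Pool.Agent.Q60.PL Pool.Agent.Y664.MW

section

variable {K : Type u} [Field K] {V : Type v} [AddCommGroup V] [Module K V]
  {gr : ℤ → Submodule K V} {N : Module.End K V}

/-- The representation of `sl(2)` given by strings. -/
theorem isSl2_strings [CharZero K] (S : Strings gr N) :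
    IsSl2 N S.b (fun p => (S.len p.1 : ℤ) - 2 * (p.2 : ℕ)) (eop S) (hop S) := by
  refine ⟨?_, ?_, ?_, ?_⟩
  · intro p
    exact h_b S p
  · refine S.b.ext fun p => ?_
    obtain ⟨s, i⟩ := p
    rw [b_eq, LinearMap.sub_apply, Module.End.mul_apply, Module.End.mul_apply, N_cv, e_cv, h_cv]
    obtain ⟨j, hj⟩ := i
    simp only
    cases j with
    | zero =>
      rw [e_cv0, map_zero, sub_zero]
      congr 1
      push_cast
      ring
    | succ j =>
      rw [e_cv, map_smul, N_cv, ← sub_smul]
      congr 1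
      push_cast
      ring
  · refine S.b.ext fun p => ?_
    obtain ⟨s, i⟩ := p
    rw [b_eq, LinearMap.sub_apply, Module.End.mul_apply, Module.End.mul_apply, LinearMap.smul_apply,
      h_cv, map_smul, N_cv, h_cv, ← sub_smul]
    congr 1
    push_cast
    ring
  · refine S.b.ext fun p => ?_
    obtain ⟨s, i⟩ := p
    rw [b_eq, LinearMap.sub_apply, Module.End.mul_apply, Module.End.mul_apply, LinearMap.smul_apply,
      h_cv, map_smul]
    obtain ⟨j, hj⟩ := i
    simp only
    cases j with
    | zero => rw [e_cv0]; simp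
    | succ j =>
      rw [e_cv, map_smul, h_cv, smul_smul, smul_smul, smul_smul, ← sub_smul]
      congr 1
      push_cast
      ring

/-- Diagonal operators for a decomposition. -/
lemma exists_diag {J : Type*} {G : J → Submodule K V} [DecidableEq J]
    (h : DirectSum.IsInternal G) (c : J → K) :
    ∃ S : Module.End K V, ∀ j, ∀ x ∈ G j, S x = c j • x := by
  let _ := h.chooseDecomposition
  refine ⟨(DirectSum.toModule K J V fun j => c j • (G j).subtype) ∘ₗ
    (DirectSum.decomposeLinearEquiv G).toLinearMap, fun j x hx => ?_⟩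
  show (DirectSum.toModule K J V fun j => c j • (G j).subtype) (DirectSum.decompose G x) = _
  rw [DirectSum.decompose_of_mem G hx]
  exact DirectSum.toModule_lof (R := K) (φ := fun j => c j • (G j).subtype) j
    (⟨x, hx⟩ : G j)

lemma aeval_mem {n : Module.End K V} {G : Submodule K V} (hn : ∀ x ∈ G, n x ∈ G)
    (P : Polynomial K) {x : V} (hx : x ∈ G) : aeval n P x ∈ G := by
  have hp : ∀ k : ℕ, (n ^ k) x ∈ G := by
    intro k
    induction k with
    | zero => exact hx
    | succ k ih =>
      rw [pow_succ', Module.End.mul_apply]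
      exact hn _ ih
  rw [Polynomial.aeval_eq_sum_range, LinearMap.sum_apply]
  exact Submodule.sum_mem _ fun i _ => G.smul_mem _ (hp i)

end

section

variable {Ω : Type w} [Field Ω] [CharZero Ω] [IsAlgClosed Ω] {V : Type v} [AddCommGroup V]
  [Module Ω V]

/-- Existence of an adapted basis. -/
theorem exists_JD [Module.Finite Ω V] {gr : ℕ → Submodule Ω V} (hgr : DirectSum.IsInternal gr)
    {F : Module.End Ω V} (hF : ∀ m, ∀ x ∈ gr m, F x ∈ gr m) (hinj : Function.Injective F) :
    ∃ (ι : Type) (_ : Fintype ι) (len : ι → ℕ) (αs : ι → Ω) (ms : ι → ℕ)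
      (b : Basis (Σ s : ι, Fin (len s + 1)) Ω V) (S N e h D : Module.End Ω V),
      IsJ F b (fun p => αs p.1) (fun p => (len p.1 : ℤ) - 2 * (p.2 : ℕ)) S N e h ∧
      ((∀ p, D (b p) = (ms p.1 : Ω) • b p) ∧ D * N = N * D ∧ D * e = e * D) ∧
      ∀ p, b p ∈ gr (ms p.1) := by
  classical
  set G : ℕ × Ω → Submodule Ω V := fun p => gr p.1 ⊓ F.maxGenEigenspace p.2 with hG
  have hind : iSupIndep G :=
    iSupIndep_inf hgr.submodule_iSupIndep (Module.End.independent_maxGenEigenspace F)
  have hgeq : ∀ m, gr m = ⨆ α, G (m, α) := fun m =>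
    Submodule.eq_iSup_inf_genEigenspace ⊤ (hF m) (Module.End.iSup_maxGenEigenspace_eq_top F)
  have hsup : ⨆ p, G p = ⊤ := by
    rw [eq_top_iff, ← hgr.submodule_iSup_eq_top]
    refine iSup_le fun m => ?_
    rw [hgeq m]
    exact iSup_le fun α => le_iSup G (m, α)
  have hint : DirectSum.IsInternal G :=
    DirectSum.isInternal_submodule_of_iSupIndep_of_iSup_eq_top hind hsup
  have hFG : ∀ p, ∀ x ∈ G p, F x ∈ G p := by
    intro p x hx
    obtain ⟨h1, h2⟩ := Submodule.mem_inf.1 hx
    exact Submodule.mem_inf.2 ⟨hF _ x h1, gen_map F (fun _ => rfl) h2⟩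
  -- the eigenvalue zero does not occur
  have hzero : ∀ m, ∀ x ∈ G (m, 0), x = 0 := by
    intro m x hx
    obtain ⟨k, hk⟩ := mem_gen.1 (Submodule.mem_inf.1 hx).2
    rw [map_zero, sub_zero] at hk
    induction k generalizing x with
    | zero => exact hk
    | succ k ih =>
      rw [pow_succ, Module.End.mul_apply] at hk
      have h1 := ih (F x) (hFG _ x hx) hk
      exact hinj (by rw [h1, map_zero])
  let c : ℕ × Ω → Ω := fun p => if p.2 = 0 then 1 else p.2
  have hc0 : ∀ p, c p ≠ 0 := by
    intro p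
    show (if p.2 = 0 then (1 : Ω) else p.2) ≠ 0
    split_ifs with h
    · exact one_ne_zero
    · exact h
  obtain ⟨S, hS⟩ := exists_diag hint c
  obtain ⟨S', hS'⟩ := exists_diag hint (fun p => (c p)⁻¹)
  obtain ⟨D, hD⟩ := exists_diag hint (fun p => (p.1 : Ω))
  have hext : ∀ A B : Module.End Ω V, (∀ p, ∀ x ∈ G p, A x = B x) → A = B := by
    intro A B h
    have h1 : (⊤ : Submodule Ω V) ≤ LinearMap.ker (A - B) := by
      rw [← hsup]
      refine iSup_le fun p x hx => ?_
      rw [LinearMap.mem_ker, LinearMap.sub_apply, h p x hx, sub_self]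
    refine LinearMap.ext fun x => ?_
    have := LinearMap.mem_ker.1 (h1 (Submodule.mem_top (x := x)))
    rw [LinearMap.sub_apply, sub_eq_zero] at this
    exact this
  have hSS' : S * S' = 1 := by
    refine hext _ _ fun p x hx => ?_
    rw [Module.End.mul_apply, hS' p x hx, map_smul, hS p x hx, smul_smul,
      inv_mul_cancel₀ (hc0 p), one_smul]
    rfl
  have hcomm : ∀ T : Module.End Ω V, (∀ p, ∀ x ∈ G p, T x ∈ G p) → S * T = T * S := by
    intro T hT
    refine hext _ _ fun p x hx => ?_
    rw [Module.End.mul_apply, Module.End.mul_apply, hS p x hx, map_smul, hS p _ (hT p x hx)]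
  have hcommD : ∀ T : Module.End Ω V, (∀ p, ∀ x ∈ G p, T x ∈ G p) → D * T = T * D := by
    intro T hT
    refine hext _ _ fun p x hx => ?_
    rw [Module.End.mul_apply, Module.End.mul_apply, hD p x hx, map_smul, hD p _ (hT p x hx)]
  set n : Module.End Ω V := S' * F - 1 with hn
  have hnG : ∀ p, ∀ x ∈ G p, n x = (c p)⁻¹ • F x - x := by
    intro p x hx
    rw [hn, LinearMap.sub_apply, Module.End.mul_apply, hS' p _ (hFG p x hx)]
    rfl
  have hnst : ∀ p, ∀ x ∈ G p, n x ∈ G p := by
    intro p x hx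
    rw [hnG p x hx]
    exact (G p).sub_mem ((G p).smul_mem _ (hFG p x hx)) hx
  have hnil : IsNilpotent n := by
    rw [Module.End.isNilpotent_iff_of_finite]
    have h1 : (⊤ : Submodule Ω V) ≤ n.maxGenEigenspace 0 := by
      rw [← hsup]
      refine iSup_le fun p x hx => ?_
      obtain ⟨m, γ⟩ := p
      by_cases hγ : γ = 0
      · subst hγ
        rw [hzero m x hx]
        exact zero_mem _
      have hcγ : c (m, γ) = γ := if_neg hγ
      obtain ⟨k, hk⟩ := mem_gen.1 (Submodule.mem_inf.1 hx).2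
      refine mem_gen.2 ⟨k, ?_⟩
      rw [map_zero, sub_zero]
      have h2 : ∀ j : ℕ, (n ^ j) x = (γ⁻¹) ^ j •
          ((F - algebraMap Ω (Module.End Ω V) γ) ^ j) x ∧
          ((F - algebraMap Ω (Module.End Ω V) γ) ^ j) x ∈ G (m, γ) := by
        intro j
        induction j with
        | zero => exact ⟨by simp, hx⟩
        | succ j ih =>
          obtain ⟨ih1, ih2⟩ := ih
          constructor
          · have e1 : (n ^ (j + 1)) x = n ((n ^ j) x) := by
              rw [pow_succ', Module.End.mul_apply]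
            have e2 : ((F - algebraMap Ω (Module.End Ω V) γ) ^ (j + 1)) x =
                F (((F - algebraMap Ω (Module.End Ω V) γ) ^ j) x) -
                  γ • (((F - algebraMap Ω (Module.End Ω V) γ) ^ j) x) := by
              rw [pow_succ', Module.End.mul_apply, LinearMap.sub_apply,
                Module.algebraMap_end_apply]
            rw [e1, e2, ih1, map_smul, hnG _ _ ih2, hcγ, smul_sub, smul_sub, smul_smul, smul_smul,
              pow_succ, mul_assoc, inv_mul_cancel₀ hγ, mul_one]
          · rw [pow_succ', Module.End.mul_apply, LinearMap.sub_apply,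
              Module.algebraMap_end_apply]
            exact (G (m, γ)).sub_mem (hFG _ _ ih2) ((G (m, γ)).smul_mem _ ih2)
      rw [(h2 k).1, hk, smul_zero]
    intro x
    obtain ⟨k, hk⟩ := mem_gen.1 (h1 (Submodule.mem_top (x := x)))
    rw [map_zero, sub_zero] at hk
    exact ⟨k, hk⟩
  obtain ⟨M, hM⟩ := hnil
  obtain ⟨P, hP1, hP2⟩ := exists_log n hM
  set N : Module.End Ω V := aeval n P with hNdef
  have hNst : ∀ p, ∀ x ∈ G p, N x ∈ G p := fun p x hx => aeval_mem (hnst p) P hx
  obtain ⟨T⟩ := exists_str hint hNst hP1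
  let T0 : Strings (fun _ : ℤ => (⊤ : Submodule Ω V)) N :=
    { ι := T.ι
      fintype := T.fintype
      len := T.len
      top := fun _ => 0
      b := T.b
      mem := fun _ _ => Submodule.mem_top
      succ := T.succ
      last := T.last }
  have hsl := isSl2_strings T0
  have hcv : ∀ s j, cv T0 s j ∈ G (T.top s) := by
    intro s j
    by_cases hj : j < T0.len s + 1
    · rw [cv_lt T0 s hj]
      exact T.mem s ⟨j, hj⟩
    · rw [cv_ge T0 s (by omega)]
      exact zero_mem _
  have hbG : ∀ p : Σ s : T.ι, Fin (T.len s + 1), T.b p ∈ G (T.top p.1) := fun p => T.mem p.1 p.2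
  have hne : ∀ p : Σ s : T.ι, Fin (T.len s + 1), (T.top p.1).2 ≠ 0 := by
    intro p h0
    apply T.b.ne_zero p
    refine hzero (T.top p.1).1 _ ?_
    have := hbG p
    rwa [show T.top p.1 = ((T.top p.1).1, 0) from Prod.ext rfl h0] at this
  refine ⟨T.ι, T.fintype, T.len, fun s => (T.top s).2, fun s => (T.top s).1, T.b, S, N,
    eop T0, hop T0, D, ⟨hsl, hne, hP1, fun p => ?_, hcomm N hNst, ?_, ?_⟩,
    ⟨fun p => hD _ _ (hbG p), hcommD N hNst, ?_⟩, fun p => ?_⟩
  · rw [hS _ _ (hbG p)]
    congr 1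
    exact if_neg (hne p)
  · refine T.b.ext fun p => ?_
    obtain ⟨s, i⟩ := p
    have h1 : T.b ⟨s, i⟩ = cv T0 s i := b_eq T0 s i
    rw [Module.End.mul_apply, Module.End.mul_apply, h1, hS _ _ (hcv s i), map_smul]
    obtain ⟨j, hj⟩ := i
    simp only
    cases j with
    | zero => rw [e_cv0]; simp
    | succ j =>
      rw [e_cv, map_smul, hS _ _ (hcv s j), smul_smul, smul_smul, mul_comm]
  · show F = S * _
    have h2 : (1 : Module.End Ω V) + n = S' * F := by rw [hn]; abel
    rw [h2] at hP2
    have h3 : F = S * (S' * F) := by rw [← mul_assoc, hSS', one_mul]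
    exact h3.trans (congrArg (S * ·) hP2.symm)
  · refine T.b.ext fun p => ?_
    obtain ⟨s, i⟩ := p
    have h1 : T.b ⟨s, i⟩ = cv T0 s i := b_eq T0 s i
    rw [Module.End.mul_apply, Module.End.mul_apply, h1, hD _ _ (hcv s i), map_smul]
    obtain ⟨j, hj⟩ := i
    simp only
    cases j with
    | zero => rw [e_cv0]; simp
    | succ j =>
      rw [e_cv, map_smul, hD _ _ (hcv s j), smul_smul, smul_smul, mul_comm]
  · exact (Submodule.mem_inf.1 (hbG p)).1

/-- Existence of an adapted basis. -/
theorem exists_J [Module.Finite Ω V] {gr : ℕ → Submodule Ω V} (hgr : DirectSum.IsInternal gr)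
    {F : Module.End Ω V} (hF : ∀ m, ∀ x ∈ gr m, F x ∈ gr m) (hinj : Function.Injective F) :
    ∃ (ι : Type) (_ : Fintype ι) (len : ι → ℕ) (αs : ι → Ω) (ms : ι → ℕ)
      (b : Basis (Σ s : ι, Fin (len s + 1)) Ω V) (S N e h : Module.End Ω V),
      IsJ F b (fun p => αs p.1) (fun p => (len p.1 : ℤ) - 2 * (p.2 : ℕ)) S N e h ∧
      ∀ p, b p ∈ gr (ms p.1) := by
  obtain ⟨ι, hι, len, αs, ms, b, S, N, e, h, D, H, -, hb⟩ := exists_JD hgr hF hinj
  exact ⟨ι, hι, len, αs, ms, b, S, N, e, h, H, hb⟩

end

end Pool.Agent.Q60.SS
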