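import Mathlib

/-!
# Exponential and logarithm of nilpotent operators

The existence of the logarithm is proved as in `Pool.Agent.Helper351.Kos.ExpLog`.
-/

set_option autoImplicit false

open Module Polynomial TensorProduct

namespace Pool.Agent.Q60.SS

universe u v w

/-- The structure of a `ℚ`-module on a module over a field of characteristic zero. -/
@[reducible] noncomputable def ratMod (Ω : Type w) [Field Ω] [CharZero Ω] (W : Type v)
    [AddCommGroup W] [Module Ω W] : Module ℚ W := Module.compHom W (algebraMap ℚ Ω)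

lemma el_exp1 {A : Type*} [CommRing A] [Algebra ℚ A] {w : A} (hw : IsNilpotent w) :
    ∃ c, IsNilpotent.exp w = 1 + w * c := by
  obtain ⟨K, hK⟩ := hw
  have h : w ^ (K + 1) = 0 := by rw [pow_succ, hK, zero_mul]
  rw [IsNilpotent.exp_eq_sum h, Finset.sum_range_succ']
  refine ⟨∑ i ∈ Finset.range K, ((i + 1).factorial : ℚ)⁻¹ • w ^ i, ?_⟩
  rw [Finset.mul_sum, add_comm]
  congr 1
  · simp
  · refine Finset.sum_congr rfl fun i _ => ?_
    rw [mul_smul_comm, pow_succ']

lemma el_exp2 {A : Type*} [CommRing A] [Algebra ℚ A] {w : A} (hw : IsNilpotent w) :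
    ∃ c, IsNilpotent.exp w = 1 + w + w ^ 2 * c := by
  obtain ⟨K, hK⟩ := hw
  have h : w ^ (K + 2) = 0 := by rw [pow_add, hK, zero_mul]
  rw [IsNilpotent.exp_eq_sum h, Finset.sum_range_succ', Finset.sum_range_succ']
  refine ⟨∑ i ∈ Finset.range K, ((i + 1 + 1).factorial : ℚ)⁻¹ • w ^ i, ?_⟩
  have e : ∑ k ∈ Finset.range K, ((k + 1 + 1).factorial : ℚ)⁻¹ • w ^ (k + 1 + 1) =
      w ^ 2 * ∑ i ∈ Finset.range K, ((i + 1 + 1).factorial : ℚ)⁻¹ • w ^ i := by
    rw [Finset.mul_sum]
    refine Finset.sum_congr rfl fun i _ => ?_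
    rw [mul_smul_comm, ← pow_add]
    congr 2
    omega
  rw [e]
  simp
  ring

lemma el_log {A : Type*} [CommRing A] [Algebra ℚ A] {n : A} {M : ℕ} (hn : n ^ M = 0) :
    ∃ v : A, n ∣ v ∧ IsNilpotent.exp v = 1 + n := by
  have hnil : ∀ v : A, n ∣ v → IsNilpotent v := by
    rintro v ⟨c, rfl⟩
    exact ⟨M, by rw [mul_pow, hn, zero_mul]⟩
  have key : ∀ k : ℕ, ∃ v : A, n ∣ v ∧ n ^ (k + 1) ∣ IsNilpotent.exp v - (1 + n) := by
    intro k
    induction k with
    | zero => exact ⟨0, dvd_zero _, by simp [IsNilpotent.exp_zero]⟩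
    | succ k ih =>
      obtain ⟨v, hv, a, ha⟩ := ih
      have hw : n ∣ 1 + n - IsNilpotent.exp v := by
        have : 1 + n - IsNilpotent.exp v = -(n ^ (k + 1) * a) := by rw [← ha]; ring
        rw [this, pow_succ', mul_assoc]
        exact (dvd_mul_right _ _).neg_right
      set w : A := 1 + n - IsNilpotent.exp v with hwdef
      have hw2 : w = -(n ^ (k + 1) * a) := by rw [← ha, hwdef]; ring
      refine ⟨v + w, dvd_add hv hw, ?_⟩
      rw [IsNilpotent.exp_add_of_commute (Commute.all _ _) (hnil v hv) (hnil w hw)]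
      obtain ⟨c1, hc1⟩ := el_exp1 (hnil v hv)
      obtain ⟨c2, hc2⟩ := el_exp2 (hnil w hw)
      obtain ⟨b, hb⟩ := hv
      have e : IsNilpotent.exp v * IsNilpotent.exp w - (1 + n) =
          IsNilpotent.exp v * (w ^ 2 * c2) + (IsNilpotent.exp v - 1) * w := by
        have e1 : (1 + n : A) = IsNilpotent.exp v + w := by rw [hwdef]; ring
        rw [e1, hc2]; ring
      rw [e]
      apply dvd_add
      · refine Dvd.dvd.mul_left (Dvd.dvd.mul_right ?_ _) _
        rw [hw2, neg_sq, mul_pow, ← pow_mul]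
        refine Dvd.dvd.mul_right (pow_dvd_pow n ?_) _
        omega
      · rw [hc1, hw2, hb]
        exact ⟨-(b * c1 * a), by ring⟩
  obtain ⟨v, hv, hv2⟩ := key M
  refine ⟨v, hv, ?_⟩
  rw [pow_succ, hn, zero_mul, zero_dvd_iff] at hv2
  exact sub_eq_zero.mp hv2

variable {Ω : Type w} [Field Ω] [CharZero Ω] {V : Type v} [AddCommGroup V] [Module Ω V]

/-- The logarithm of a unipotent operator, as a polynomial in the operator. -/
theorem exists_log (n : Module.End Ω V) {M : ℕ} (hn : n ^ M = 0) :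
    letI := ratMod Ω (Module.End Ω V)
    ∃ P : (Polynomial Ω), IsNilpotent (aeval n P) ∧ IsNilpotent.exp (aeval n P) = 1 + n := by
  letI := ratMod Ω (Module.End Ω V)
  set I : Ideal (Polynomial Ω) := Ideal.span {(X : (Polynomial Ω)) ^ M} with hI
  have hX : (Ideal.Quotient.mk I X) ^ M = 0 := by
    rw [← map_pow, Ideal.Quotient.eq_zero_iff_mem, hI]
    exact Ideal.mem_span_singleton_self _
  obtain ⟨v, hv1, hv2⟩ := el_log hX
  let f : (Polynomial Ω) ⧸ I →+* Module.End Ω V :=
    Ideal.Quotient.lift I (aeval n : (Polynomial Ω) →ₐ[Ω] Module.End Ω V).toRingHom (by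
      intro a ha
      rw [hI, Ideal.mem_span_singleton] at ha
      obtain ⟨c, rfl⟩ := ha
      show aeval n (X ^ M * c) = 0
      rw [map_mul, map_pow, aeval_X, hn, zero_mul])
  have hf : ∀ P : (Polynomial Ω), f (Ideal.Quotient.mk I P) = aeval n P := fun P => rfl
  obtain ⟨P, rfl⟩ := Ideal.Quotient.mk_surjective v
  have hnil : IsNilpotent (Ideal.Quotient.mk I P) := by
    obtain ⟨c, hc⟩ := hv1
    exact ⟨M, by rw [hc, mul_pow, hX, zero_mul]⟩
  refine ⟨P, ?_, ?_⟩
  · rw [← hf]
    exact hnil.map f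
  · rw [← hf, ← IsNilpotent.map_exp hnil f, hv2, map_add, map_one, hf, aeval_X]

/-- `exp N = 1 + N c` with `c` invertible, for nilpotent `N`. -/
theorem exp_eq_unit {N : Module.End Ω V} (hN : IsNilpotent N) :
    letI := ratMod Ω (Module.End Ω V)
    ∃ c : Module.End Ω V, IsUnit c ∧ Commute N c ∧ (∀ T : Module.End Ω V, Commute T N →
      Commute T c) ∧ IsNilpotent.exp N = 1 + N * c := by
  letI := ratMod Ω (Module.End Ω V)
  obtain ⟨K, hK⟩ := hN
  have h : N ^ (K + 1 + 1) = 0 := by rw [pow_succ, pow_succ, hK, zero_mul, zero_mul]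
  have hcom : ∀ T : Module.End Ω V, Commute T N →
      Commute T (∑ i ∈ Finset.range (K + 1), ((i + 1).factorial : ℚ)⁻¹ • N ^ i) := by
    intro T hT
    refine Commute.sum_right _ _ _ fun i _ => ?_
    have h1 : ((i + 1).factorial : ℚ)⁻¹ • N ^ i =
        (algebraMap ℚ Ω ((i + 1).factorial : ℚ)⁻¹) • N ^ i := rfl
    rw [h1]
    exact (hT.pow_right i).smul_right _
  refine ⟨∑ i ∈ Finset.range (K + 1), ((i + 1).factorial : ℚ)⁻¹ • N ^ i, ?_,
    hcom N (Commute.refl N), hcom, ?_⟩
  · rw [Finset.sum_range_succ']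
    have h1 : ((0 + 1).factorial : ℚ)⁻¹ • N ^ 0 = (1 : Module.End Ω V) := by
      rw [pow_zero]
      show (algebraMap ℚ Ω ((0 + 1).factorial : ℚ)⁻¹) • (1 : Module.End Ω V) = 1
      simp
    rw [h1, add_comm]
    apply IsNilpotent.isUnit_one_add
    have h2 : ∑ i ∈ Finset.range K, ((i + 1 + 1).factorial : ℚ)⁻¹ • N ^ (i + 1) =
        N * ∑ i ∈ Finset.range K, (algebraMap ℚ Ω ((i + 1 + 1).factorial : ℚ)⁻¹) • N ^ i := by
      rw [Finset.mul_sum]
      refine Finset.sum_congr rfl fun i _ => ?_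
      rw [mul_smul_comm, ← pow_succ']
      rfl
    rw [h2]
    refine Commute.isNilpotent_mul_right ?_ ⟨K, hK⟩
    refine Commute.sum_right _ _ _ fun i _ => ?_
    exact ((Commute.refl N).pow_right i).smul_right _
  · rw [IsNilpotent.exp_eq_sum h, Finset.sum_range_succ', Finset.mul_sum, add_comm]
    congr 1
    · rw [pow_zero]
      show (algebraMap ℚ Ω ((0).factorial : ℚ)⁻¹) • (1 : Module.End Ω V) = 1
      simp
    · refine Finset.sum_congr rfl fun i _ => ?_
      show (algebraMap ℚ Ω ((i + 1).factorial : ℚ)⁻¹) • N ^ (i + 1) =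
        N * ((algebraMap ℚ Ω ((i + 1).factorial : ℚ)⁻¹) • N ^ i)
      rw [mul_smul_comm, ← pow_succ']

section tensor

variable {V' : Type v} [AddCommGroup V'] [Module Ω V']

/-- The exponential of `N ⊗ 1 + 1 ⊗ N'`. -/
theorem exp_tensor {N : Module.End Ω V} {N' : Module.End Ω V'} (hN : IsNilpotent N)
    (hN' : IsNilpotent N') :
    letI := ratMod Ω (Module.End Ω V)
    letI := ratMod Ω (Module.End Ω V')
    letI := ratMod Ω (Module.End Ω (V ⊗[Ω] V'))
    IsNilpotent (TensorProduct.map N LinearMap.id + TensorProduct.map LinearMap.id N' :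
      Module.End Ω (V ⊗[Ω] V')) ∧
    IsNilpotent.exp (TensorProduct.map N LinearMap.id + TensorProduct.map LinearMap.id N' :
      Module.End Ω (V ⊗[Ω] V')) =
      TensorProduct.map (IsNilpotent.exp N) (IsNilpotent.exp N') := by
  letI := ratMod Ω (Module.End Ω V)
  letI := ratMod Ω (Module.End Ω V')
  letI := ratMod Ω (Module.End Ω (V ⊗[Ω] V'))
  have h1 : (TensorProduct.map N LinearMap.id : Module.End Ω (V ⊗[Ω] V')) =
      Module.End.rTensorAlgHom Ω V V' N := rfl
  have h2 : (TensorProduct.map LinearMap.id N' : Module.End Ω (V ⊗[Ω] V')) =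
      Module.End.lTensorAlgHom Ω V' V N' := rfl
  have n1 : IsNilpotent (Module.End.rTensorAlgHom Ω V V' N) := hN.map _
  have n2 : IsNilpotent (Module.End.lTensorAlgHom Ω V' V N') := hN'.map _
  have hc : Commute (Module.End.rTensorAlgHom Ω V V' N) (Module.End.lTensorAlgHom Ω V' V N') := by
    rw [← h1, ← h2]
    show TensorProduct.map N LinearMap.id ∘ₗ TensorProduct.map LinearMap.id N' =
      TensorProduct.map LinearMap.id N' ∘ₗ TensorProduct.map N LinearMap.id
    rw [← TensorProduct.map_comp, ← TensorProduct.map_comp]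
    simp
  rw [h1, h2]
  refine ⟨hc.isNilpotent_add n1 n2, ?_⟩
  rw [IsNilpotent.exp_add_of_commute hc n1 n2, ← IsNilpotent.map_exp hN,
    ← IsNilpotent.map_exp hN']
  show TensorProduct.map (IsNilpotent.exp N) LinearMap.id ∘ₗ
    TensorProduct.map LinearMap.id (IsNilpotent.exp N') = _
  rw [← TensorProduct.map_comp]
  simp

end tensor

end Pool.Agent.Q60.SS
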