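import Pool.Agent.Q60.SS.Str
import Pool.Agent.Q60.SS.Exp
import Pool.Agent.Q60.PL.Ker
import Pool.Agent.Y664.MW.B2
import Pool.Agent.Y210.MW.B3
import Pool.Agent.Y163.MW.Lin
import Pool.Agent.Y136.UB.GenEig

/-!
# The Jordan normal form of an invertible operator, adapted to tensor products
-/

set_option autoImplicit false

open Module TensorProduct

namespace Pool.Agent.Q60.SS

universe u v w

open Pool.Agent.Y163.MW Pool.Agent.Y136.UB Pool.Agent.Q60.PL

/-- `F = S exp N` with `S` diagonal in the basis `b` (with eigenvalues `α i ≠ 0`), `N` nilpotent,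
and a representation of `sl(2)` with lowering operator `N` which commutes with `S`, for which `b`
consists of weight vectors of weights `a i`. -/
structure IsJ {Ω : Type w} [Field Ω] [CharZero Ω] {V : Type v} [AddCommGroup V] [Module Ω V]
    (F : Module.End Ω V) {I : Type} (b : Basis I Ω V) (α : I → Ω) (a : I → ℤ)
    (S N e h : Module.End Ω V) : Prop where
  sl : IsSl2 N b a e h
  ne : ∀ i, α i ≠ 0
  nil : IsNilpotent N
  diag : ∀ i, S (b i) = α i • b i
  SN : S * N = N * S
  Se : S * e = e * S
  eq : F = S * (letI := ratMod Ω (Module.End Ω V); IsNilpotent.exp N)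

section

variable {Ω : Type w} [Field Ω] [CharZero Ω] {V V' V'' : Type v} [AddCommGroup V] [Module Ω V]
  [AddCommGroup V'] [Module Ω V'] [AddCommGroup V''] [Module Ω V''] {I I' : Type}
  {F N e h S : Module.End Ω V} {b : Basis I Ω V} {α : I → Ω} {a : I → ℤ}
  {F' N' e' h' S' : Module.End Ω V'} {b' : Basis I' Ω V'} {α' : I' → Ω} {a' : I' → ℤ}

/-- Tensor products. -/
theorem IsJ.tensor (H : IsJ F b α a S N e h) (H' : IsJ F' b' α' a' S' N' e' h') :
    IsJ (TensorProduct.map F F') (b.tensorProduct b') (fun p : I × I' => α p.1 * α' p.2)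
      (fun p => a p.1 + a' p.2) (TensorProduct.map S S')
      (TensorProduct.map N LinearMap.id + TensorProduct.map LinearMap.id N')
      (TensorProduct.map e LinearMap.id + TensorProduct.map LinearMap.id e')
      (TensorProduct.map h LinearMap.id + TensorProduct.map LinearMap.id h') := by
  have hcomm : ∀ (T : Module.End Ω V) (T' : Module.End Ω V'), S * T = T * S → S' * T' = T' * S' →
      TensorProduct.map S S' * (TensorProduct.map T LinearMap.id +
        TensorProduct.map LinearMap.id T') = (TensorProduct.map T LinearMap.id +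
        TensorProduct.map LinearMap.id T') * TensorProduct.map S S' := by
    intro T T' hT hT'
    rw [mul_add, add_mul]
    show TensorProduct.map S S' ∘ₗ TensorProduct.map T LinearMap.id +
      TensorProduct.map S S' ∘ₗ TensorProduct.map LinearMap.id T' =
      TensorProduct.map T LinearMap.id ∘ₗ TensorProduct.map S S' +
      TensorProduct.map LinearMap.id T' ∘ₗ TensorProduct.map S S'
    rw [← TensorProduct.map_comp, ← TensorProduct.map_comp, ← TensorProduct.map_comp,
      ← TensorProduct.map_comp]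
    have h1 : S ∘ₗ T = T ∘ₗ S := hT
    have h2 : S' ∘ₗ T' = T' ∘ₗ S' := hT'
    rw [h1, h2]
    simp
  obtain ⟨e1, e2⟩ := exp_tensor H.nil H'.nil
  refine ⟨Pool.Agent.Y210.MW.t_B3 Ω V V' N I b a e h N' I' b' a' e' h' H.sl H'.sl,
    fun p => mul_ne_zero (H.ne _) (H'.ne _), e1, ?_, hcomm N N' H.SN H'.SN,
    hcomm e e' H.Se H'.Se, ?_⟩
  · rintro ⟨i, j⟩
    rw [Basis.tensorProduct_apply, TensorProduct.map_tmul, H.diag, H'.diag,
      TensorProduct.smul_tmul_smul]
  · rw [e2, H.eq, H'.eq]
    exact TensorProduct.map_comp _ _ _ _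

/-- Transport by an isomorphism. -/
theorem IsJ.map {F'' : Module.End Ω V''} (H : IsJ F b α a S N e h) (κ : V ≃ₗ[Ω] V'')
    (hF : ∀ x, F'' (κ x) = κ (F x)) :
    IsJ F'' (b.map κ) α a (κ.conj S) (κ.conj N) (κ.conj e) (κ.conj h) := by
  have hN : ∀ x, κ.conj N (κ x) = κ (N x) := fun x => by simp [LinearEquiv.conj_apply]
  have hmul : ∀ A B : Module.End Ω V, κ.conj A * κ.conj B = κ.conj (A * B) := by
    intro A B
    ext x
    simp [LinearEquiv.conj_apply]
  letI := ratMod Ω (Module.End Ω V)
  letI := ratMod Ω (Module.End Ω V'')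
  let f : Module.End Ω V ≃+* Module.End Ω V'' := (κ.conjAlgEquiv Ω).toRingEquiv
  have hf : ∀ A, f A = κ.conj A := fun A => rfl
  have hexp : κ.conj (IsNilpotent.exp N) = IsNilpotent.exp (κ.conj N) := by
    rw [← hf, ← hf]
    exact IsNilpotent.map_exp H.nil f
  refine ⟨⟨fun i => ?_, ?_, ?_, ?_⟩, H.ne, ?_, fun i => ?_, ?_, ?_, ?_⟩
  · rw [Basis.map_apply]
    simp [LinearEquiv.conj_apply, H.sl.wt]
  · rw [hmul, hmul, ← map_sub, H.sl.eN]
  · rw [hmul, hmul, ← map_sub, H.sl.hN, map_smul]
  · rw [hmul, hmul, ← map_sub, H.sl.he, map_smul]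
  · rw [← hf]
    exact H.nil.map f
  · rw [Basis.map_apply]
    simp [LinearEquiv.conj_apply, H.diag]
  · rw [hmul, hmul, H.SN]
  · rw [hmul, hmul, H.Se]
  · rw [← hexp, hmul]
    ext x
    obtain ⟨y, rfl⟩ := κ.surjective x
    rw [hF, H.eq]
    simp [LinearEquiv.conj_apply]

lemma IsJ.reindex (H : IsJ F b α a S N e h) (E : I ≃ I') (α'' : I' → Ω) (a'' : I' → ℤ)
    (hα : ∀ j, α'' j = α (E.symm j)) (ha : ∀ j, a'' j = a (E.symm j)) :
    IsJ F (b.reindex E) α'' a'' S N e h := by
  refine ⟨⟨fun j => ?_, H.sl.eN, H.sl.hN, H.sl.he⟩, fun j => ?_, H.nil, fun j => ?_, H.SN, H.Se,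
    H.eq⟩
  · rw [Basis.reindex_apply, ha]
    exact H.sl.wt _
  · rw [hα]
    exact H.ne _
  · rw [Basis.reindex_apply, hα]
    exact H.diag _

end

section count

variable {Ω : Type w} [Field Ω] [CharZero Ω] {V : Type v} [AddCommGroup V] [Module Ω V]
  {I : Type} [Finite I] {F N e h S : Module.End Ω V} {b : Basis I Ω V} {α : I → Ω} {a : I → ℤ}

/-- The kernels of the powers of the lowering operator on a stable subspace. -/
theorem finrank_ker_sub (H : IsSl2 N b a e h) (p : I → Prop)
    (hN : ∀ x ∈ Submodule.span Ω (b '' {i | p i}), N x ∈ Submodule.span Ω (b '' {i | p i}))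
    (he : ∀ x ∈ Submodule.span Ω (b '' {i | p i}), e x ∈ Submodule.span Ω (b '' {i | p i}))
    (k : ℕ) :
    finrank Ω (LinearMap.ker (N ^ k) ⊓ Submodule.span Ω (b '' {i | p i}) : Submodule Ω V) =
      Nat.card {i // p i ∧ -(k : ℤ) < a i ∧ a i ≤ k} := by
  classical
  set v : {i // p i} → V := fun i => b i with hv
  have hli : LinearIndependent Ω v := b.linearIndependent.comp _ Subtype.val_injective
  have hr : Set.range v = b '' {i | p i} := by
    ext x
    constructor
    · rintro ⟨i, rfl⟩
      exact ⟨i, i.2, rfl⟩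
    · rintro ⟨i, hi, rfl⟩
      exact ⟨⟨i, hi⟩, rfl⟩
  rw [← hr] at hN he ⊢
  set G := Submodule.span Ω (Set.range v) with hG
  have hh : ∀ x ∈ G, h x ∈ G := by
    intro x hx
    have : G ≤ G.comap h := by
      rw [hG, Submodule.span_le]
      rintro _ ⟨i, rfl⟩
      show h (b i) ∈ G
      rw [H.wt]
      exact G.smul_mem _ (Submodule.subset_span ⟨i, rfl⟩)
    exact this hx
  let c : Basis {i // p i} Ω G := Basis.span hli
  have hc : ∀ i, (c i : V) = b i := fun i => congrArg Subtype.val (Basis.span_apply hli i)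
  have H' : IsSl2 (N.restrict hN) c (fun i => a i) (e.restrict he) (h.restrict hh) := by
    refine ⟨fun i => ?_, ?_, ?_, ?_⟩
    · apply Subtype.ext
      show h (c i) = (a i : Ω) • (c i : V)
      rw [hc, H.wt]
    · ext x
      have := LinearMap.congr_fun H.eN (x : V)
      exact this
    · ext x
      have := LinearMap.congr_fun H.hN (x : V)
      exact this
    · ext x
      have := LinearMap.congr_fun H.he (x : V)
      exact this
  have h1 := finrank_ker_sl2 H' k
  have h2 : finrank Ω (LinearMap.ker ((N.restrict hN) ^ k)) =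
      finrank Ω (LinearMap.ker (N ^ k) ⊓ G : Submodule Ω V) := by
    have h3 : (LinearMap.ker ((N.restrict hN) ^ k)).map G.subtype = LinearMap.ker (N ^ k) ⊓ G := by
      rw [Module.End.pow_restrict]
      ext x
      simp only [Submodule.mem_map, LinearMap.mem_ker, Submodule.mem_inf]
      constructor
      · rintro ⟨y, hy, rfl⟩
        exact ⟨congrArg Subtype.val hy, y.2⟩
      · rintro ⟨hx1, hx2⟩
        exact ⟨⟨x, hx2⟩, Subtype.ext hx1, rfl⟩
    rw [← h3]
    exact (Submodule.finrank_map_subtype_eq G _).symm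
  rw [← h2, h1]
  exact Nat.card_congr (Equiv.subtypeSubtypeEquivSubtypeInter p
    (fun i => -(k : ℤ) < a i ∧ a i ≤ k))

lemma IsJ.fin (H : IsJ F b α a S N e h) : Module.Finite Ω V := by
  have := Fintype.ofFinite I
  exact Module.Finite.of_basis b

/-- Operators commuting with `S` preserve the eigenspaces of `S`. -/
lemma IsJ.mem_span (H : IsJ F b α a S N e h) (γ : Ω) (x : V) :
    x ∈ Submodule.span Ω (b '' {i | α i = γ}) ↔ S x = γ • x := by
  classical
  have := Fintype.ofFinite I
  constructor
  · intro hx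
    have : Submodule.span Ω (b '' {i | α i = γ}) ≤
        LinearMap.ker (S - γ • (1 : Module.End Ω V)) := by
      rw [Submodule.span_le]
      rintro _ ⟨i, hi, rfl⟩
      rw [SetLike.mem_coe, LinearMap.mem_ker, LinearMap.sub_apply, H.diag,
        (show α i = γ from hi)]
      simp
    have := LinearMap.mem_ker.1 (this hx)
    rw [LinearMap.sub_apply, sub_eq_zero] at this
    exact this
  · intro hx
    rw [← b.sum_repr x]
    refine Submodule.sum_mem _ fun i _ => ?_
    by_cases hi : α i = γ
    · exact Submodule.smul_mem _ _ (Submodule.subset_span ⟨i, hi, rfl⟩)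
    · have h1 : b.repr (S x) i = α i * b.repr x i := by
        conv_lhs => rw [← b.sum_repr x]
        rw [map_sum, map_sum, Finsupp.finset_sum_apply, Finset.sum_eq_single i]
        · rw [map_smul, H.diag, map_smul, map_smul]
          simp
          ring
        · intro j _ hj
          rw [map_smul, H.diag, map_smul, map_smul]
          simp [hj]
        · intro h
          exact absurd (Finset.mem_univ i) h
      have h2 : b.repr (S x) i = γ * b.repr x i := by
        rw [hx, map_smul]
        rfl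
      have h3 : b.repr x i = 0 := by
        have : (α i - γ) * b.repr x i = 0 := by
          rw [sub_mul, ← h1, ← h2, sub_self]
        rcases mul_eq_zero.1 this with h4 | h4
        · exact absurd (sub_eq_zero.1 h4) hi
        · exact h4
      rw [h3, zero_smul]
      exact zero_mem _

/-- `F - S = N c` with `c` invertible. -/
lemma IsJ.sub_eq (H : IsJ F b α a S N e h) : ∃ c : Module.End Ω V, IsUnit c ∧ Commute N c ∧
    Commute S c ∧ F - S = N * c := by
  classical
  have := Fintype.ofFinite I
  obtain ⟨c, hc1, hc2, hc3, hc4⟩ := exp_eq_unit H.nil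
  have hS : IsUnit S := by
    let S' : Module.End Ω V := b.constr Ω fun i => (α i)⁻¹ • b i
    have hS' : ∀ i, S' (b i) = (α i)⁻¹ • b i := fun i => b.constr_basis Ω _ i
    refine isUnit_iff_exists.2 ⟨S', ?_, ?_⟩
    · refine b.ext fun i => ?_
      rw [Module.End.mul_apply, hS', map_smul, H.diag, smul_smul, inv_mul_cancel₀ (H.ne i),
        one_smul]
      rfl
    · refine b.ext fun i => ?_
      rw [Module.End.mul_apply, H.diag, map_smul, hS', smul_smul, mul_inv_cancel₀ (H.ne i),
        one_smul]
      rfl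
  have hSc : Commute S c := hc3 S H.SN
  refine ⟨S * c, hS.mul hc1, ?_, ?_, ?_⟩
  · exact (show Commute N S from H.SN.symm).mul_right hc2
  · exact (Commute.refl S).mul_right hSc
  · have e1 : F = S * (1 + N * c) := by
      rw [← hc4]
      exact H.eq
    rw [e1, mul_add, mul_one, add_sub_cancel_left, ← mul_assoc, H.SN, mul_assoc]

/-- The generalized eigenspaces of `F` are the eigenspaces of `S`. -/
lemma IsJ.gen_eq (H : IsJ F b α a S N e h) (γ : Ω) :
    F.maxGenEigenspace γ = Submodule.span Ω (b '' {i | α i = γ}) := by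
  refine gr_eq_span (Module.End.independent_maxGenEigenspace F) b α (fun i => ?_) γ
  obtain ⟨c, hc1, hc2, hc3, hc4⟩ := H.sub_eq
  obtain ⟨K, hK⟩ := H.nil
  refine mem_gen.2 ⟨K, ?_⟩
  have hcom : Commute S (F - S) := by
    rw [hc4]
    exact (show Commute S N from H.SN).mul_right hc3
  have key : ∀ k : ℕ, ((F - algebraMap Ω (Module.End Ω V) (α i)) ^ k) (b i) =
      ((F - S) ^ k) (b i) := by
    intro k
    induction k with
    | zero => rfl
    | succ k ih =>
      rw [pow_succ', pow_succ', Module.End.mul_apply, Module.End.mul_apply, ih,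
        LinearMap.sub_apply, LinearMap.sub_apply, Module.algebraMap_end_apply]
      congr 1
      have h1 : S (((F - S) ^ k) (b i)) = ((F - S) ^ k) (S (b i)) :=
        LinearMap.congr_fun ((hcom.pow_right k).eq) (b i)
      rw [h1, H.diag, map_smul]
  rw [key, hc4, hc2.mul_pow, hK, zero_mul, LinearMap.zero_apply]

/-- The kernels of the powers of `F - γ`. -/
theorem IsJ.ker_eq (H : IsJ F b α a S N e h) (γ : Ω) (k : ℕ) :
    LinearMap.ker ((F - algebraMap Ω (Module.End Ω V) γ) ^ k) =
      LinearMap.ker (N ^ k) ⊓ Submodule.span Ω (b '' {i | α i = γ}) := by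
  obtain ⟨c, hc1, hc2, hc3, hc4⟩ := H.sub_eq
  have hcom : Commute S (F - S) := by
    rw [hc4]
    exact (show Commute S N from H.SN).mul_right hc3
  have key : ∀ x, S x = γ • x → ∀ k : ℕ,
      ((F - algebraMap Ω (Module.End Ω V) γ) ^ k) x = ((F - S) ^ k) x := by
    intro x hx k
    induction k with
    | zero => rfl
    | succ k ih =>
      rw [pow_succ', pow_succ', Module.End.mul_apply, Module.End.mul_apply, ih,
        LinearMap.sub_apply, LinearMap.sub_apply, Module.algebraMap_end_apply]
      congr 1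
      have h1 : S (((F - S) ^ k) x) = ((F - S) ^ k) (S x) :=
        LinearMap.congr_fun ((hcom.pow_right k).eq) x
      rw [h1, hx, map_smul]
  have hinj : ∀ x, ((F - S) ^ k) x = 0 ↔ (N ^ k) x = 0 := by
    intro x
    have e1 : (F - S) ^ k = c ^ k * N ^ k := by
      rw [hc4, hc2.mul_pow]
      exact ((hc2.pow_left k).pow_right k).eq
    rw [e1, Module.End.mul_apply]
    constructor
    · intro h0
      obtain ⟨u, hu⟩ := hc1.pow k
      have h1 : (u⁻¹ : (Module.End Ω V)ˣ).val * c ^ k = 1 := by rw [← hu, Units.inv_mul]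
      have h2 := congrArg (u⁻¹ : (Module.End Ω V)ˣ).val h0
      rw [← Module.End.mul_apply, h1, map_zero] at h2
      exact h2
    · intro h0
      rw [h0, map_zero]
  ext x
  rw [Submodule.mem_inf, LinearMap.mem_ker, LinearMap.mem_ker]
  constructor
  · intro hx
    have h1 : x ∈ F.maxGenEigenspace γ := mem_gen.2 ⟨k, hx⟩
    rw [H.gen_eq] at h1
    refine ⟨?_, h1⟩
    rw [← hinj, ← key x ((H.mem_span γ x).1 h1)]
    exact hx
  · rintro ⟨h1, h2⟩
    rw [key x ((H.mem_span γ x).1 h2), hinj]
    exact h1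

/-- The dimensions of the kernels of the powers of `F - γ`. -/
theorem IsJ.finrank_ker (H : IsJ F b α a S N e h) (γ : Ω) (k : ℕ) :
    finrank Ω (LinearMap.ker ((F - algebraMap Ω (Module.End Ω V) γ) ^ k)) =
      Nat.card {i // α i = γ ∧ -(k : ℤ) < a i ∧ a i ≤ k} := by
  rw [H.ker_eq]
  have hst : ∀ T : Module.End Ω V, S * T = T * S → ∀ x ∈ Submodule.span Ω (b '' {i | α i = γ}),
      T x ∈ Submodule.span Ω (b '' {i | α i = γ}) := by
    intro T hT x hx
    rw [H.mem_span] at hx ⊢
    have h1 : S (T x) = T (S x) := LinearMap.congr_fun hT x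
    rw [h1, hx, map_smul]
  exact finrank_ker_sub H.sl (fun i => α i = γ) (hst N H.SN) (hst e H.Se) k

end count

end Pool.Agent.Q60.SS
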