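import Pool.Agent.Q60.SS.Tate3

/-!
# Cohomology theories for smooth, possibly open, varieties over a finite field
-/

set_option autoImplicit false

open Module TensorProduct CategoryTheory CategoryTheory.Limits AlgebraicGeometry

namespace Pool.Agent.Q60.SS

universe u v w

open Pool.Agent.H914

/-- A smooth variety over the field `k`, not necessarily proper: a separated scheme of finite type
over `k`, smooth of relative dimension `dim` and geometrically irreducible. -/
structure OVar (k : Type u) [Field k] where
  /-- the underlying scheme -/
  X : Scheme.{u}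
  /-- the structure morphism -/
  str : X ⟶ Spec (.of k)
  /-- the dimension -/
  dim : ℕ
  smooth : SmoothOfRelativeDimension dim str
  sep : IsSeparated str
  qc : QuasiCompact str
  irred : GeometricallyIrreducible str

attribute [instance] OVar.smooth OVar.sep OVar.qc OVar.irred

/-- The product of two smooth varieties. -/
noncomputable def OVar.prod {k : Type u} [Field k] (X Y : OVar k) : OVar k where
  X := pullback X.str Y.str
  str := pullback.fst X.str Y.str ≫ X.str
  dim := X.dim + Y.dim
  smooth := by
    have h0 := smoothOfRelativeDimension_isStableUnderBaseChange Y.dim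
    have h : SmoothOfRelativeDimension Y.dim (pullback.fst X.str Y.str) :=
      MorphismProperty.pullback_fst (P := @SmoothOfRelativeDimension Y.dim) _ _ Y.smooth
    rw [add_comm]
    exact smoothOfRelativeDimension_comp Y.dim X.dim (pullback.fst X.str Y.str) X.str
  sep := inferInstance
  qc := inferInstance
  irred := by
    have h1 : Smooth X.str := SmoothOfRelativeDimension.smooth X.dim X.str
    have h2 : Smooth Y.str := SmoothOfRelativeDimension.smooth Y.dim Y.str
    exact GeometricallyIrreducible.comp _ _

/-- The powers `X^(n + 1)`. -/
noncomputable def OVar.pow {k : Type u} [Field k] (X : OVar.{u} k) : ℕ → OVar.{u} k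
  | 0 => X
  | n + 1 => X.prod (X.pow n)

/-- The data of the cohomology of all the smooth varieties over `k`. -/
structure OTheory (k : Type u) [Field k] (Ω : Type w) [Field Ω] where
  /-- the cohomology of `X` -/
  H : OVar.{u} k → FCoh.{v, w} Ω

/-- The known properties: finite dimension, `F` is invertible and respects the degrees; Künneth
formula; the class `1` in `H^0`. -/
structure OTheory.IsOpen {k : Type u} [Field k] {Ω : Type w} [Field Ω]
    (T : OTheory.{u, v, w} k Ω) : Prop where
  coh : ∀ X, IsFCoh (T.H X)
  kunneth : ∀ X Y, ∃ κ, IsFKunneth (T.H X) (T.H Y) (T.H (X.prod Y)) κ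
  unit : ∀ X, HasUnit (T.H X)

lemma hasTate_of_hasUnit {Ω : Type w} [Field Ω] {R : FCoh.{v, w} Ω} (h : HasUnit R) (q : ℕ) :
    HasTate R q := by
  obtain ⟨x, h1, h2, h3⟩ := h
  exact ⟨0, x, h1, h2, by rw [pow_zero, one_smul, h3]⟩

end Pool.Agent.Q60.SS
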