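import Pool.Agent.Q60.SS.Tate3

/-!
# The zero-one law for multiplicatively closed sets of pairs (degree, eigenvalue)
-/

set_option autoImplicit false

open Module TensorProduct Filter Topology

namespace Pool.Agent.Q60.SS

universe u v w

open Pool.Agent.Y163.MW Pool.Agent.Y136.UB Pool.Agent.Q60.PL

/-- A set of pairs (degree, eigenvalue) which contains `(0, 1)` and is closed under products. -/
structure IsMult {Ω : Type w} [Field Ω] (P : Set (ℕ × Ω)) : Prop where
  one : (0, 1) ∈ P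
  mul : ∀ p p', p ∈ P → p' ∈ P → (p.1 + p'.1, p.2 * p'.2) ∈ P

open Classical in
/-- The sum over the pairs `(m, γ)` in `P` of the dimensions of the eigenspaces of `F` for `γ` on
`H^m`. -/
noncomputable def eigP {Ω : Type w} [Field Ω] (R : FCoh.{v, w} Ω) (P : Set (ℕ × Ω)) : ℤ :=
  ∑ᶠ p : ℕ × Ω, (if p ∈ P then 1 else 0) *
    (finrank Ω (R.gr p.1 ⊓ R.F.eigenspace p.2 : Submodule Ω R.V) : ℤ)

open Classical in
/-- The sum over the pairs `(m, γ)` in `P` of the multiplicities of the eigenvalues `γ` of `F` on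
`H^m`. -/
noncomputable def multP {Ω : Type w} [Field Ω] (R : FCoh.{v, w} Ω) (P : Set (ℕ × Ω)) : ℤ :=
  ∑ᶠ p : ℕ × Ω, (if p ∈ P then 1 else 0) *
    (finrank Ω (R.gr p.1 ⊓ R.F.maxGenEigenspace p.2 : Submodule Ω R.V) : ℤ)

/-- The generalized eigenvectors of `F` for `γ` on `H^m`, for `(m, γ)` in `P`, are eigenvectors. -/
def SemisimpleP {Ω : Type w} [Field Ω] (R : FCoh.{v, w} Ω) (P : Set (ℕ × Ω)) : Prop :=
  ∀ p ∈ P, ∀ x ∈ R.gr p.1, x ∈ R.F.maxGenEigenspace p.2 → R.F x = p.2 • x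

section

variable {Ω : Type w} [Field Ω] [CharZero Ω] {P : Set (ℕ × Ω)}

/-- The number of the words whose label is in `P`. -/
noncomputable def zp (P : Set (ℕ × Ω)) {I : Type} (α : I → Ω) (m : I → ℕ) (n : ℕ) : ℕ :=
  Nat.card {g : Fin n → I // (∑ k, m (g k), ∏ k, α (g k)) ∈ P}

/-- The number of the words whose label is in `P` in the middle layers. -/
noncomputable def tp (P : Set (ℕ × Ω)) {I : Type} (α : I → Ω) (a : I → ℤ) (m : I → ℕ) (n : ℕ) :
    ℕ :=
  Nat.card {g : Fin n → I // (∑ k, m (g k), ∏ k, α (g k)) ∈ P ∧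
    (∑ k, a (g k) = 0 ∨ ∑ k, a (g k) = 1)}

omit [CharZero Ω] in
/-- The dichotomy for words. -/
theorem word_dichotomyP (hP : IsMult P) {I : Type} [Fintype I] (α : I → Ω) (a : I → ℤ)
    (m : I → ℕ) (is : I) (his : (m is, α is) ∈ P)
    (hstr : ∀ i, a i ≠ 0 → ∃ i0 i1, (α i0, m i0) = (α i, m i) ∧ (α i1, m i1) = (α i, m i) ∧
      a i0 = a i1 + 2) :
    (∀ n, 0 < zp P α m n) ∧
    ((∀ n, tp P α a m n = zp P α m n) ∨ ∃ C : ℝ, 0 < C ∧ ∀ n : ℕ,
      √(n : ℝ) * (tp P α a m n : ℝ) ≤ C * (zp P α m n : ℝ)) := by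
  classical
  let lab : I → Multiplicative ℕ × Ω := fun i => (Multiplicative.ofAdd (m i), α i)
  let Q : Multiplicative ℕ × Ω → Prop := fun x => (x.1.toAdd, x.2) ∈ P
  have hlab : ∀ (n : ℕ) (g : Fin n → I), ∏ k, lab (g k) =
      (Multiplicative.ofAdd (∑ k, m (g k)), ∏ k, α (g k)) := by
    intro n g
    apply Prod.ext
    · rw [Prod.fst_prod, ofAdd_sum]
    · rw [Prod.snd_prod]
  have hQ : ∀ (n : ℕ) (g : Fin n → I), Q (∏ k, lab (g k)) ↔
      (∑ k, m (g k), ∏ k, α (g k)) ∈ P := by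
    intro n g
    show ((∏ k, lab (g k)).1.toAdd, (∏ k, lab (g k)).2) ∈ P ↔ _
    rw [hlab]
    rfl
  have hQ1 : Q 1 := hP.one
  have hQm : ∀ x y, Q x → Q y → Q (x * y) := fun x y hx hy => hP.mul _ _ hx hy
  have his' : Q (lab is) := his
  have hz : ∀ n, zp P α m n = Nat.card {g : Fin n → I // Q (∏ k, lab (g k))} := fun n =>
    Nat.card_congr (Equiv.subtypeEquivRight fun g => (hQ n g).symm)
  have ht : ∀ n, tp P α a m n = Nat.card {g : Fin n → I // Q (∏ k, lab (g k)) ∧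
      (∑ k, a (g k) = 0 ∨ ∑ k, a (g k) = 1)} := fun n =>
    Nat.card_congr (Equiv.subtypeEquivRight fun g => and_congr_left fun _ => (hQ n g).symm)
  refine ⟨fun n => ?_, ?_⟩
  · rw [hz]
    exact zw_pos (lab := lab) (P := Q) hQ1 hQm his' n
  · by_cases hbad : ∃ (m0 : ℕ) (w0 : Fin m0 → I), Q (∏ k, lab (w0 k)) ∧ ∃ k, a (w0 k) ≠ 0
    · right
      obtain ⟨m0, w0, hw, k, hk⟩ := hbad
      obtain ⟨i0, i1, h1, h2, h3⟩ := hstr _ hk
      have e1 : lab i0 = lab (w0 k) := by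
        rw [Prod.mk.injEq] at h1
        show (Multiplicative.ofAdd (m i0), α i0) = (Multiplicative.ofAdd (m (w0 k)), α (w0 k))
        rw [h1.1, h1.2]
      have e2 : lab i1 = lab (w0 k) := by
        rw [Prod.mk.injEq] at h2
        show (Multiplicative.ofAdd (m i1), α i1) = (Multiplicative.ofAdd (m (w0 k)), α (w0 k))
        rw [h2.1, h2.2]
      obtain ⟨C, hC, hC'⟩ := comb_general lab a Q hQ1 hQm his' (e1.trans e2.symm) h3
        (Function.update w0 k i0) (by
          have : ∀ j, lab (Function.update w0 k i0 j) = lab (w0 j) := by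
            intro j
            by_cases hj : j = k
            · subst hj
              rw [Function.update_self, e1]
            · rw [Function.update_of_ne hj]
          rw [Finset.prod_congr rfl fun j _ => this j]
          exact hw) ⟨k, Function.update_self k i0 w0⟩
      refine ⟨C, hC, fun n => ?_⟩
      rw [ht, hz]
      exact hC' n
    · left
      push Not at hbad
      intro n
      rw [ht, hz]
      refine Nat.card_congr (Equiv.subtypeEquivRight fun g => ⟨fun h => h.1, fun h => ⟨h, ?_⟩⟩)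
      left
      exact Finset.sum_eq_zero fun k _ => hbad n g h k

section count

variable {R : FCoh.{v, w} Ω} {I : Type} [Finite I]
  {N e h S D : Module.End Ω R.V} {b : Basis I Ω R.V} {α : I → Ω} {a : I → ℤ} {m : I → ℕ}

open Classical in
omit [CharZero Ω] in
lemma finsum_pairs (P : Set (ℕ × Ω)) (α : I → Ω) (m : I → ℕ) (r : I → Prop) :
    ∑ᶠ p : ℕ × Ω, (if p ∈ P then 1 else 0) *
      (Nat.card {i // α i = p.2 ∧ m i = p.1 ∧ r i} : ℤ) =
      Nat.card {i // (m i, α i) ∈ P ∧ r i} := by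
  have := Fintype.ofFinite I
  have h1 : ∀ p : ℕ × Ω, (Nat.card {i // α i = p.2 ∧ m i = p.1 ∧ r i} : ℤ) =
      (Nat.card {g : {i // r i} // (m g, α g) = p} : ℤ) := by
    rintro ⟨M, γ⟩
    congr 1
    refine (Nat.card_congr ((Equiv.subtypeSubtypeEquivSubtypeInter r
      (fun i => (m i, α i) = (M, γ))).trans (Equiv.subtypeEquivRight fun i => ?_))).symm
    rw [Prod.mk.injEq]
    tauto
  rw [finsum_congr (fun p => by rw [h1]), finsum_card' (fun g : {i // r i} => (m g, α g))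
    (fun p => if p ∈ P then 1 else 0)]
  have h2 : (∑ g : {i // r i}, if (m g, α g) ∈ P then (1 : ℤ) else 0) =
      ((Finset.univ.filter fun g : {i // r i} => (m g, α g) ∈ P).card : ℤ) := by
    rw [Finset.card_filter]
    push_cast
    rfl
  rw [h2, ← Fintype.card_subtype, ← Nat.card_eq_fintype_card]
  congr 1
  exact Nat.card_congr ((Equiv.subtypeSubtypeEquivSubtypeInter r
      (fun i => (m i, α i) ∈ P)).trans (Equiv.subtypeEquivRight fun i => and_comm))

theorem eigP_eq (hR : DirectSum.IsInternal R.gr) (H : IsJ R.F b α a S N e h)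
    (HD : IsDeg b m D N e) (hb : ∀ i, b i ∈ R.gr (m i)) (P : Set (ℕ × Ω)) :
    eigP R P = Nat.card {i // (m i, α i) ∈ P ∧ (a i = 0 ∨ a i = 1)} := by
  unfold eigP
  rw [finsum_congr (fun p => by rw [finrank_eig hR H HD hb]), finsum_pairs]

theorem multP_eq (hR : DirectSum.IsInternal R.gr) (H : IsJ R.F b α a S N e h)
    (hb : ∀ i, b i ∈ R.gr (m i)) (P : Set (ℕ × Ω)) :
    multP R P = Nat.card {i // (m i, α i) ∈ P} := by
  classical
  have h1 : ∀ p : ℕ × Ω, (finrank Ω (R.gr p.1 ⊓ R.F.maxGenEigenspace p.2 :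
      Submodule Ω R.V) : ℤ) = (Nat.card {i // α i = p.2 ∧ m i = p.1 ∧ True} : ℤ) := by
    intro p
    have := finrank_gpc hR H hb p.1 p.2
    unfold gpc at this
    rw [this]
    simp
  unfold multP
  rw [finsum_congr (fun p => by rw [h1]), finsum_pairs]
  simp

end count

variable [IsAlgClosed Ω]

/-- **The zero-one law for a multiplicatively closed set of pairs.** -/
theorem p_zero_one (hP : IsMult P) {R : ℕ → FCoh.{v, w} Ω} (hR : IsFCoh (R 0))
    (hint : ∀ n, DirectSum.IsInternal (R n).gr)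
    (hκ : ∀ n, ∃ κ, IsFKunneth (R 0) (R n) (R (n + 1)) κ) (h1 : 0 < multP (R 0) P) :
    (∀ n, 0 < multP (R n) P) ∧
    ((∀ n, eigP (R n) P = multP (R n) P) ∨ ∃ C : ℝ, 0 < C ∧ ∀ n : ℕ,
      √((n + 1 : ℕ) : ℝ) * (eigP (R n) P : ℝ) ≤ C * (multP (R n) P : ℝ)) := by
  classical
  have := hR.finite
  obtain ⟨ι, hι, len, αs, ms, b, S, N, e, h, D, HJ, ⟨hD1, hD2, hD3⟩, hb⟩ :=
    exists_JD hR.isInternal hR.F_gr hR.inj
  have HD : IsDeg b (fun p : Σ s : ι, Fin (len s + 1) => ms p.1) D N e := ⟨hD1, hD2, hD3⟩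
  have HA : DAdp (R 0) (fun p : Σ s : ι, Fin (len s + 1) => αs p.1) (sw len)
      (fun p => ms p.1) := ⟨b, S, N, e, h, D, HJ, HD, hb⟩
  obtain ⟨is, his⟩ : ∃ i : Σ s : ι, Fin (len s + 1), (ms i.1, αs i.1) ∈ P := by
    rw [multP_eq hR.isInternal HJ hb] at h1
    have h4 : Nonempty {i : Σ s : ι, Fin (len s + 1) // (ms i.1, αs i.1) ∈ P} := by
      by_contra hcon
      rw [not_nonempty_iff] at hcon
      rw [Nat.card_of_isEmpty] at h1
      simp at h1
    obtain ⟨i, hi⟩ := h4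
    exact ⟨i, hi⟩
  obtain ⟨w1, w2⟩ := word_dichotomyP hP
    (fun p : Σ s : ι, Fin (len s + 1) => αs p.1) (sw len) (fun p => ms p.1) is his (by
      rintro ⟨s, i⟩ hi
      have hs : 1 ≤ len s := by
        by_contra hcon
        apply hi
        unfold sw
        have := i.2
        simp only
        omega
      exact ⟨⟨s, ⟨0, by omega⟩⟩, ⟨s, ⟨1, by omega⟩⟩, rfl, rfl, by unfold sw; simp⟩)
  have hz : ∀ n, multP (R n) P = (zp P (fun p : Σ s : ι, Fin (len s + 1) => αs p.1)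
      (fun p => ms p.1) (n + 1) : ℤ) := by
    intro n
    obtain ⟨b', S', N', e', h', D', H', HD', hb'⟩ := HA.pow hκ n
    exact multP_eq (hint n) H' hb' P
  have ht : ∀ n, eigP (R n) P = (tp P (fun p : Σ s : ι, Fin (len s + 1) => αs p.1) (sw len)
      (fun p => ms p.1) (n + 1) : ℤ) := by
    intro n
    obtain ⟨b', S', N', e', h', D', H', HD', hb'⟩ := HA.pow hκ n
    exact eigP_eq (hint n) H' HD' hb' P
  refine ⟨fun n => ?_, ?_⟩
  · rw [hz]
    exact_mod_cast w1 (n + 1)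
  · rcases w2 with h0 | ⟨C, hC, hC'⟩
    · left
      intro n
      rw [hz, ht, h0]
    · right
      refine ⟨C, hC, fun n => ?_⟩
      rw [hz, ht]
      exact_mod_cast hC' (n + 1)

/-- If the eigenvectors are a positive proportion on infinitely many powers, then equality holds on
all powers. -/
theorem eq_of_eigP (hP : IsMult P) {R : ℕ → FCoh.{v, w} Ω} (hR : IsFCoh (R 0))
    (hint : ∀ n, DirectSum.IsInternal (R n).gr)
    (hκ : ∀ n, ∃ κ, IsFKunneth (R 0) (R n) (R (n + 1)) κ) (h1 : 0 < multP (R 0) P)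
    {ε : ℝ} (hε : 0 < ε) (h : ∃ᶠ n in atTop, ε * multP (R n) P ≤ eigP (R n) P) :
    ∀ n, eigP (R n) P = multP (R n) P := by
  obtain ⟨h2, h3 | ⟨C, hC, hC'⟩⟩ := p_zero_one hP hR hint hκ h1
  · exact h3
  exfalso
  have h4 : Tendsto (fun n : ℕ => √((n + 1 : ℕ) : ℝ)) atTop atTop :=
    (tendsto_add_atTop_iff_nat 1).2 (Real.tendsto_sqrt_atTop.comp tendsto_natCast_atTop_atTop)
  have h5 := h4.eventually (eventually_gt_atTop (C / ε))
  obtain ⟨n, hn1, hn2⟩ := (h.and_eventually h5).exists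
  rw [div_lt_iff₀ hε] at hn2
  have h6 : (0 : ℝ) < multP (R n) P := by exact_mod_cast h2 n
  have h7 := hC' n
  have h8 : √((n + 1 : ℕ) : ℝ) * (ε * multP (R n) P) ≤
      √((n + 1 : ℕ) : ℝ) * (eigP (R n) P : ℝ) := by gcongr
  have h9 : C * multP (R n) P < √((n + 1 : ℕ) : ℝ) * ε * multP (R n) P := by gcongr
  linarith

end

section

variable {Ω : Type w} [Field Ω] [CharZero Ω] [IsAlgClosed Ω]

/-- Equality of the two numbers means semisimplicity. -/
theorem eigP_eq_iff {R : FCoh.{v, w} Ω} (hR : IsFCoh R) (P : Set (ℕ × Ω)) :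
    eigP R P = multP R P ↔ SemisimpleP R P := by
  classical
  have := hR.finite
  obtain ⟨ι, hι, len, αs, ms, b, S, N, e, h, D, HJ, ⟨hD1, hD2, hD3⟩, hb⟩ :=
    exists_JD hR.isInternal hR.F_gr hR.inj
  have HD : IsDeg b (fun p : Σ s : ι, Fin (len s + 1) => ms p.1) D N e := ⟨hD1, hD2, hD3⟩
  have hle : ∀ p : ℕ × Ω, R.gr p.1 ⊓ R.F.eigenspace p.2 ≤
      R.gr p.1 ⊓ R.F.maxGenEigenspace p.2 := by
    intro p
    refine inf_le_inf_left _ fun x hx => mem_gen.2 ⟨1, ?_⟩
    rw [pow_one, LinearMap.sub_apply, Module.algebraMap_end_apply,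
      Module.End.mem_eigenspace_iff.1 hx, sub_self]
  -- the support is finite
  have hsupp : ∀ C : ℕ × Ω → Submodule Ω R.V,
      (∀ p, C p ≤ R.gr p.1 ⊓ R.F.maxGenEigenspace p.2) →
      Function.support (fun p : ℕ × Ω => (if p ∈ P then 1 else 0) * (finrank Ω (C p) : ℤ)) ⊆
        (Finset.univ.image fun i : Σ s : ι, Fin (len s + 1) => (ms i.1, αs i.1) :
          Finset (ℕ × Ω)) := by
    intro C hC p hp
    rw [Finset.coe_image, Finset.coe_univ, Set.image_univ]
    by_contra hcon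
    apply hp
    have h1 : finrank Ω (R.gr p.1 ⊓ R.F.maxGenEigenspace p.2 : Submodule Ω R.V) = 0 := by
      have h2 := finrank_gpc hR.isInternal HJ hb p.1 p.2
      unfold gpc at h2
      rw [h2]
      have : IsEmpty {i : Σ s : ι, Fin (len s + 1) // αs i.1 = p.2 ∧ ms i.1 = p.1} :=
        ⟨fun i => hcon ⟨i.1, Prod.ext i.2.2 i.2.1⟩⟩
      exact Nat.card_of_isEmpty
    have h3 : finrank Ω (C p) = 0 := Nat.le_zero.1 (h1 ▸ Submodule.finrank_mono (hC p))
    show (if p ∈ P then 1 else 0) * (finrank Ω (C p) : ℤ) = 0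
    rw [h3]
    simp
  have h5 := hsupp (fun p => R.gr p.1 ⊓ R.F.eigenspace p.2) hle
  have h6 := hsupp (fun p => R.gr p.1 ⊓ R.F.maxGenEigenspace p.2) fun p => le_rfl
  unfold eigP multP
  rw [finsum_eq_sum_of_support_subset _ h5, finsum_eq_sum_of_support_subset _ h6]
  have hle' : ∀ p ∈ (Finset.univ.image fun i : Σ s : ι, Fin (len s + 1) => (ms i.1, αs i.1) :
      Finset (ℕ × Ω)), (if p ∈ P then 1 else 0) *
      (finrank Ω (R.gr p.1 ⊓ R.F.eigenspace p.2 : Submodule Ω R.V) : ℤ) ≤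
      (if p ∈ P then 1 else 0) *
      (finrank Ω (R.gr p.1 ⊓ R.F.maxGenEigenspace p.2 : Submodule Ω R.V) : ℤ) := by
    intro p _
    have := Submodule.finrank_mono (hle p)
    split_ifs
    · simpa using this
    · simp
  rw [Finset.sum_eq_sum_iff_of_le hle']
  constructor
  · intro hall p hp x hx hx'
    by_cases hmem : p ∈ (Finset.univ.image fun i : Σ s : ι, Fin (len s + 1) =>
        (ms i.1, αs i.1) : Finset (ℕ × Ω))
    · have h1 := hall p hmem
      rw [if_pos hp, one_mul, one_mul] at h1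
      have h2 := Submodule.eq_of_le_of_finrank_eq (hle p) (by exact_mod_cast h1)
      have h3 : x ∈ R.gr p.1 ⊓ R.F.eigenspace p.2 := by
        rw [h2]
        exact Submodule.mem_inf.2 ⟨hx, hx'⟩
      exact Module.End.mem_eigenspace_iff.1 (Submodule.mem_inf.1 h3).2
    · have h1 : (R.gr p.1 ⊓ R.F.maxGenEigenspace p.2 : Submodule Ω R.V) = ⊥ := by
        rw [← Submodule.finrank_eq_zero (R := Ω)]
        have h2 := finrank_gpc hR.isInternal HJ hb p.1 p.2
        unfold gpc at h2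
        rw [h2]
        have : IsEmpty {i : Σ s : ι, Fin (len s + 1) // αs i.1 = p.2 ∧ ms i.1 = p.1} :=
          ⟨fun i => hmem (Finset.mem_image.2 ⟨i.1, Finset.mem_univ _, Prod.ext i.2.2 i.2.1⟩)⟩
        exact Nat.card_of_isEmpty
      have h2 : x ∈ R.gr p.1 ⊓ R.F.maxGenEigenspace p.2 := Submodule.mem_inf.2 ⟨hx, hx'⟩
      rw [h1, Submodule.mem_bot] at h2
      rw [h2, map_zero, smul_zero]
  · intro hall p _
    by_cases hp : p ∈ P
    · have h2 : R.gr p.1 ⊓ R.F.eigenspace p.2 = R.gr p.1 ⊓ R.F.maxGenEigenspace p.2 := by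
        refine le_antisymm (hle p) fun x hx => ?_
        obtain ⟨h3, h4⟩ := Submodule.mem_inf.1 hx
        exact Submodule.mem_inf.2 ⟨h3, Module.End.mem_eigenspace_iff.2 (hall p hp x h3 h4)⟩
      rw [h2]
    · rw [if_neg hp, zero_mul, zero_mul]

/-- The class `1` gives a positive multiplicity. -/
lemma multP_pos {R : FCoh.{v, w} Ω} (hR : IsFCoh R) {P : Set (ℕ × Ω)} (hP : (0, 1) ∈ P)
    (h : HasUnit R) : 0 < multP R P := by
  classical
  have := hR.finite
  obtain ⟨ι, hι, len, αs, ms, b, S, N, e, h', D, HJ, -, hb⟩ :=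
    exists_JD hR.isInternal hR.F_gr hR.inj
  rw [multP_eq hR.isInternal HJ hb]
  obtain ⟨x, hx0, hx1, hx2⟩ := h
  have h2 : x ∈ gpc R (0, 1) := Submodule.mem_inf.2 ⟨hx0, mem_gen.2 ⟨1, by
    rw [pow_one, LinearMap.sub_apply, Module.algebraMap_end_apply, hx2, one_smul, sub_self]⟩⟩
  have h3 : finrank Ω (gpc R (0, 1)) ≠ 0 := by
    intro h0
    rw [Submodule.finrank_eq_zero] at h0
    rw [h0, Submodule.mem_bot] at h2
    exact hx1 h2
  rw [finrank_gpc hR.isInternal HJ hb] at h3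
  have h4 : Nonempty {i : Σ s : ι, Fin (len s + 1) // αs i.1 = 1 ∧ ms i.1 = 0} := by
    by_contra hcon
    rw [not_nonempty_iff] at hcon
    exact h3 Nat.card_of_isEmpty
  obtain ⟨i, hi⟩ := h4
  have h5 : Nonempty {i : Σ s : ι, Fin (len s + 1) // (ms i.1, αs i.1) ∈ P} :=
    ⟨⟨i, by rw [hi.1, hi.2]; exact hP⟩⟩
  exact_mod_cast Nat.card_pos

end

end Pool.Agent.Q60.SS
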