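import Pool.Agent.Q60.SS.Tate3

/-!
# The tensor powers of a space with an operator and a duality
-/

set_option autoImplicit false

open Module TensorProduct Filter Topology

namespace Pool.Agent.Q60.SS

universe u v w

open Pool.Agent.Y163.MW Pool.Agent.Y136.UB Pool.Agent.Q60.PL

section

variable {Ω : Type w} [Field Ω] {q d : ℕ}

/-- The data of the words, with a duality. -/
theorem word_bounds' {I : Type} [Fintype I] (α : I → Ω) (a : I → ℤ) (m : I → ℕ) (σ : I ≃ I)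
    (hσ : ∀ i, α i * α (σ i) = (q : Ω) ^ d ∧ m i + m (σ i) = 2 * d) (is : I)
    (his : ∃ j : ℕ, α is = (q : Ω) ^ j ∧ m is = 2 * j) :
    (∀ n, 0 < zc q α m n) ∧
    ((∃ i0 i1, α i0 = α i1 ∧ m i0 = m i1 ∧ a i0 = a i1 + 2) → ∃ C : ℝ, 0 < C ∧ ∀ n : ℕ,
      √(n : ℝ) * (tc q α a m n : ℝ) ≤ C * (zc q α m n : ℝ)) := by
  classical
  let lab : I → Ω × Multiplicative ℕ := fun i => (α i, Multiplicative.ofAdd (m i))
  let P : Ω × Multiplicative ℕ → Prop := fun x =>
    ∃ j : ℕ, x = ((q : Ω) ^ j, Multiplicative.ofAdd (2 * j))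
  have hlab : ∀ (n : ℕ) (g : Fin n → I), ∏ k, lab (g k) =
      (∏ k, α (g k), Multiplicative.ofAdd (∑ k, m (g k))) := by
    intro n g
    apply Prod.ext
    · rw [Prod.fst_prod]
    · rw [Prod.snd_prod, ofAdd_sum]
  have hP : ∀ (n : ℕ) (g : Fin n → I), P (∏ k, lab (g k)) ↔
      ∃ j : ℕ, ∏ k, α (g k) = (q : Ω) ^ j ∧ ∑ k, m (g k) = 2 * j := by
    intro n g
    show (∃ j : ℕ, ∏ k, lab (g k) = ((q : Ω) ^ j, Multiplicative.ofAdd (2 * j))) ↔ _
    refine exists_congr fun j => ?_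
    rw [hlab, Prod.mk.injEq]
    exact and_congr_right fun _ => Multiplicative.ofAdd.injective.eq_iff
  have hP1 : P 1 := ⟨0, by simp; rfl⟩
  have hPm : ∀ x y, P x → P y → P (x * y) := by
    rintro _ _ ⟨j, rfl⟩ ⟨j', rfl⟩
    refine ⟨j + j', ?_⟩
    rw [Prod.mk_mul_mk, ← pow_add, ← ofAdd_add, mul_add]
  have his' : P (lab is) := by
    obtain ⟨j, h1, h2⟩ := his
    exact ⟨j, by show (α is, Multiplicative.ofAdd (m is)) = _; rw [h1, h2]⟩
  have hz : ∀ n, zc q α m n = Nat.card {g : Fin n → I // P (∏ k, lab (g k))} := fun n =>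
    Nat.card_congr (Equiv.subtypeEquivRight fun g => (hP n g).symm)
  have ht : ∀ n, tc q α a m n = Nat.card {g : Fin n → I // P (∏ k, lab (g k)) ∧
      (∑ k, a (g k) = 0 ∨ ∑ k, a (g k) = 1)} := fun n =>
    Nat.card_congr (Equiv.subtypeEquivRight fun g => and_congr_left fun _ => (hP n g).symm)
  refine ⟨fun n => ?_, ?_⟩
  · rw [hz]
    exact zw_pos (lab := lab) (P := P) hP1 hPm his' n
  · rintro ⟨i0, i1, h1, h2, h3⟩
    have hlab01 : lab i0 = lab i1 := by
      show (α i0, Multiplicative.ofAdd (m i0)) = (α i1, Multiplicative.ofAdd (m i1))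
      rw [h1, h2]
    obtain ⟨C, hC, hC'⟩ := comb_general lab a P hP1 hPm his' hlab01 h3
      (fun k : Fin 2 => if k = 0 then i0 else σ i0) (by
        rw [Fin.prod_univ_two]
        simp only [if_true, one_ne_zero, if_false]
        refine ⟨d, ?_⟩
        show (α i0 * α (σ i0), Multiplicative.ofAdd (m i0) * Multiplicative.ofAdd (m (σ i0))) = _
        rw [(hσ i0).1, ← ofAdd_add, (hσ i0).2]) ⟨0, by simp⟩
    refine ⟨C, hC, fun n => ?_⟩
    rw [ht, hz]
    exact hC' n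

variable [CharZero Ω] [IsAlgClosed Ω]

/-- **The zero-one law for Tate classes, with duality and a Tate class.** -/
theorem tate_law' (hq : 0 < q) {R : ℕ → FCoh.{v, w} Ω} (hR : IsFCoh (R 0))
    (hint : ∀ n, DirectSum.IsInternal (R n).gr)
    (hκ : ∀ n, ∃ κ, IsFKunneth (R 0) (R n) (R (n + 1)) κ)
    {B : (R 0).V →ₗ[Ω] (R 0).V →ₗ[Ω] Ω} (hB : IsFPoincare (R 0) q d B) (h1 : HasTate (R 0) q) :
    (∀ n, 0 < poleOrder (R n) q) ∧
    (Semisimple (R 0).F → ∀ n, tateDim (R n) q = poleOrder (R n) q) ∧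
    (¬ Semisimple (R 0).F → ∃ C : ℝ, 0 < C ∧ ∀ n : ℕ, √((n + 1 : ℕ) : ℝ) *
      (tateDim (R n) q : ℝ) ≤ C * (poleOrder (R n) q : ℝ)) := by
  classical
  have := hR.finite
  obtain ⟨ι, hι, len, αs, ms, b, S, N, e, h, D, HJ, ⟨hD1, hD2, hD3⟩, hb⟩ :=
    exists_JD hR.isInternal hR.F_gr hR.inj
  have HD : IsDeg b (fun p : Σ s : ι, Fin (len s + 1) => ms p.1) D N e := ⟨hD1, hD2, hD3⟩
  have HA : DAdp (R 0) (fun p : Σ s : ι, Fin (len s + 1) => αs p.1) (sw len)
      (fun p => ms p.1) := ⟨b, S, N, e, h, D, HJ, HD, hb⟩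
  have hss : Semisimple (R 0).F ↔ ∀ s, len s = 0 := by
    rw [HJ.semisimple_iff]
    exact sw_zero_one_iff len
  obtain ⟨σ, hσ⟩ := exists_dual hq hR hB HJ hb
  obtain ⟨is, his⟩ : ∃ i : Σ s : ι, Fin (len s + 1), ∃ j : ℕ, αs i.1 = (q : Ω) ^ j ∧
      ms i.1 = 2 * j := by
    obtain ⟨j, x, hx0, hx1, hx2⟩ := h1
    have h2 : x ∈ gpc (R 0) (2 * j, (q : Ω) ^ j) := Submodule.mem_inf.2 ⟨hx0, mem_gen.2 ⟨1, by
      rw [pow_one, LinearMap.sub_apply, Module.algebraMap_end_apply, hx2, sub_self]⟩⟩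
    have h3 : finrank Ω (gpc (R 0) (2 * j, (q : Ω) ^ j)) ≠ 0 := by
      intro h0
      rw [Submodule.finrank_eq_zero] at h0
      rw [h0, Submodule.mem_bot] at h2
      exact hx1 h2
    rw [finrank_gpc hR.isInternal HJ hb] at h3
    have h4 : Nonempty {i : Σ s : ι, Fin (len s + 1) // αs i.1 = (q : Ω) ^ j ∧
        ms i.1 = 2 * j} := by
      by_contra hcon
      rw [not_nonempty_iff] at hcon
      exact h3 Nat.card_of_isEmpty
    obtain ⟨i, hi⟩ := h4
    exact ⟨i, j, hi⟩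
  obtain ⟨w1, w2⟩ := word_bounds' (q := q) (d := d)
    (fun p : Σ s : ι, Fin (len s + 1) => αs p.1) (sw len) (fun p => ms p.1) σ hσ is his
  have hz : ∀ n, poleOrder (R n) q = (zc q (fun p : Σ s : ι, Fin (len s + 1) => αs p.1)
      (fun p => ms p.1) (n + 1) : ℤ) := by
    intro n
    obtain ⟨b', S', N', e', h', D', H', HD', hb'⟩ := HA.pow hκ n
    exact poleOrder_eq (hint n) H' hb' q
  have ht : ∀ n, tateDim (R n) q = (tc q (fun p : Σ s : ι, Fin (len s + 1) => αs p.1) (sw len)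
      (fun p => ms p.1) (n + 1) : ℤ) := by
    intro n
    obtain ⟨b', S', N', e', h', D', H', HD', hb'⟩ := HA.pow hκ n
    exact tateDim_eq (hint n) H' HD' hb' q
  refine ⟨fun n => ?_, fun h0 n => ?_, fun h0 => ?_⟩
  · rw [hz]
    exact_mod_cast w1 (n + 1)
  · rw [hz, ht]
    rw [hss] at h0
    congr 1
    refine Nat.card_congr (Equiv.subtypeEquivRight fun g => ⟨fun h => h.1, fun h => ⟨h, ?_⟩⟩)
    left
    refine Finset.sum_eq_zero fun k _ => ?_
    unfold sw
    have h1 := (g k).2.2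
    have h2 := h0 (g k).1
    omega
  · have hex : ∃ s, 1 ≤ len s := by
      by_contra hcon
      push Not at hcon
      exact h0 (hss.2 fun s => by have := hcon s; omega)
    obtain ⟨s, hs⟩ := hex
    obtain ⟨C, hC, hC'⟩ := w2 ⟨⟨s, ⟨0, by omega⟩⟩, ⟨s, ⟨1, by omega⟩⟩, rfl, rfl, by
      unfold sw
      simp⟩
    refine ⟨C, hC, fun n => ?_⟩
    rw [hz, ht]
    exact_mod_cast hC' (n + 1)

/-- If the Tate classes are a positive proportion of the order of the poles on infinitely many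
powers, then `F` is semisimple. -/
theorem semisimple_of_tate' (hq : 0 < q) {R : ℕ → FCoh.{v, w} Ω} (hR : IsFCoh (R 0))
    (hint : ∀ n, DirectSum.IsInternal (R n).gr)
    (hκ : ∀ n, ∃ κ, IsFKunneth (R 0) (R n) (R (n + 1)) κ)
    {B : (R 0).V →ₗ[Ω] (R 0).V →ₗ[Ω] Ω} (hB : IsFPoincare (R 0) q d B) (h1 : HasTate (R 0) q)
    {ε : ℝ} (hε : 0 < ε) (h : ∃ᶠ n in atTop, ε * poleOrder (R n) q ≤ tateDim (R n) q) :
    Semisimple (R 0).F := by
  by_contra h0
  obtain ⟨h2, -, h3⟩ := tate_law' hq hR hint hκ hB h1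
  obtain ⟨C, hC, hC'⟩ := h3 h0
  have h4 : Tendsto (fun n : ℕ => √((n + 1 : ℕ) : ℝ)) atTop atTop :=
    (tendsto_add_atTop_iff_nat 1).2 (Real.tendsto_sqrt_atTop.comp tendsto_natCast_atTop_atTop)
  have h5 := h4.eventually (eventually_gt_atTop (C / ε))
  obtain ⟨n, hn1, hn2⟩ := (h.and_eventually h5).exists
  rw [div_lt_iff₀ hε] at hn2
  have h6 : (0 : ℝ) < poleOrder (R n) q := by exact_mod_cast h2 n
  have h7 := hC' n
  have h8 : √((n + 1 : ℕ) : ℝ) * (ε * poleOrder (R n) q) ≤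
      √((n + 1 : ℕ) : ℝ) * (tateDim (R n) q : ℝ) := by gcongr
  have h9 : C * poleOrder (R n) q < √((n + 1 : ℕ) : ℝ) * ε * poleOrder (R n) q := by gcongr
  linarith

end

/-- A space with an operator. -/
structure Op (Ω : Type w) [Field Ω] where
  /-- the space -/
  V : Type v
  [addCommGroup : AddCommGroup V]
  [module : Module Ω V]
  /-- the operator -/
  F : Module.End Ω V

attribute [instance] Op.addCommGroup Op.module

namespace Op

variable {Ω : Type w} [Field Ω]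

/-- The tensor product. -/
noncomputable def tensor (A B : Op.{v, w} Ω) : Op.{v, w} Ω where
  V := A.V ⊗[Ω] B.V
  F := TensorProduct.map A.F B.F

/-- The tensor powers: `A.pow n` is the space `A^(⊗ (n + 1))`. -/
noncomputable def pow (A : Op.{v, w} Ω) : ℕ → Op.{v, w} Ω
  | 0 => A
  | n + 1 => A.tensor (A.pow n)

/-- The space in degree `c`. -/
@[reducible] def coh (A : Op.{v, w} Ω) (c : ℕ) : FCoh.{v, w} Ω where
  V := A.V
  gr := fun m => if m = c then ⊤ else ⊥
  F := A.F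

lemma gr_self (A : Op.{v, w} Ω) (c : ℕ) : (A.coh c).gr c = ⊤ := if_pos rfl

lemma gr_ne (A : Op.{v, w} Ω) {c m : ℕ} (h : m ≠ c) : (A.coh c).gr m = ⊥ := if_neg h

lemma mem_gr (A : Op.{v, w} Ω) {c m : ℕ} {x : A.V} : x ∈ (A.coh c).gr m ↔ m = c ∨ x = 0 := by
  by_cases h : m = c
  · subst h
    rw [gr_self]
    exact ⟨fun _ => Or.inl rfl, fun _ => Submodule.mem_top⟩
  · rw [gr_ne A h, Submodule.mem_bot]
    exact ⟨Or.inr, fun h' => h'.resolve_left h⟩

lemma coh_internal (A : Op.{v, w} Ω) (c : ℕ) : DirectSum.IsInternal (A.coh c).gr := by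
  rw [DirectSum.isInternal_submodule_iff_iSupIndep_and_iSup_eq_top]
  constructor
  · intro m
    by_cases hm : m = c
    · subst hm
      have : (⨆ j, ⨆ (_ : j ≠ m), (A.coh m).gr j) = ⊥ := by
        rw [eq_bot_iff]
        refine iSup₂_le fun j hj => ?_
        rw [gr_ne A hj]
      rw [this]
      exact disjoint_bot_right
    · rw [gr_ne A hm]
      exact disjoint_bot_left
  · rw [eq_top_iff]
    refine le_trans ?_ (le_iSup (A.coh c).gr c)
    rw [gr_self]

lemma coh_isFCoh {A : Op.{v, w} Ω} (h1 : Module.Finite Ω A.V) (h2 : Function.Injective A.F)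
    (c : ℕ) : IsFCoh (A.coh c) where
  finite := h1
  isInternal := A.coh_internal c
  F_gr := by
    intro m x hx
    rw [mem_gr] at hx ⊢
    rcases hx with hx | hx
    · exact Or.inl hx
    · exact Or.inr (by rw [hx, map_zero])
  inj := h2

lemma coh_kunneth (A B : Op.{v, w} Ω) (c c' : ℕ) :
    IsFKunneth (A.coh c) (B.coh c') ((A.tensor B).coh (c + c')) (LinearEquiv.refl Ω _) where
  degree := by
    intro i j x y hx hy
    have h1 := (mem_gr A).1 hx
    have h2 := (mem_gr B).1 hy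
    refine (mem_gr (A.tensor B)).2 ?_
    rcases h1 with h1 | h1
    · rcases h2 with h2 | h2
      · exact Or.inl (by rw [h1, h2])
      · right
        subst h2
        exact TensorProduct.tmul_zero _ _
    · right
      subst h1
      exact TensorProduct.zero_tmul _ _
  frob := fun x y => rfl

/-- The dimension of `ker (F - γ)`. -/
noncomputable def eigDim (A : Op.{v, w} Ω) (γ : Ω) : ℕ := finrank Ω (A.F.eigenspace γ)

/-- The multiplicity of the eigenvalue `γ`. -/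
noncomputable def mult (A : Op.{v, w} Ω) (γ : Ω) : ℕ := finrank Ω (A.F.maxGenEigenspace γ)

lemma sum_coh (A : Op.{v, w} Ω) (c : ℕ) (E : ℕ → Submodule Ω A.V) :
    ∑ᶠ j : ℕ, (finrank Ω ((A.coh (2 * c)).gr (2 * j) ⊓ E j : Submodule Ω A.V) : ℤ) =
      finrank Ω (E c) := by
  rw [finsum_eq_single _ c]
  · rw [gr_self, top_inf_eq]
  · intro j hj
    rw [gr_ne A (by omega), bot_inf_eq, finrank_bot]
    rfl

lemma tateDim_coh (A : Op.{v, w} Ω) (c q : ℕ) :
    tateDim (A.coh (2 * c)) q = A.eigDim ((q : Ω) ^ c) := by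
  unfold tateDim eigDim
  exact A.sum_coh c (fun j => A.F.eigenspace ((q : Ω) ^ j))

lemma poleOrder_coh (A : Op.{v, w} Ω) (c q : ℕ) :
    poleOrder (A.coh (2 * c)) q = A.mult ((q : Ω) ^ c) := by
  unfold poleOrder mult
  exact A.sum_coh c (fun j => A.F.maxGenEigenspace ((q : Ω) ^ j))

lemma pow_kunneth (A : Op.{v, w} Ω) (c n : ℕ) :
    ∃ κ, IsFKunneth (A.coh (2 * c)) ((A.pow n).coh (2 * (c * (n + 1))))
      ((A.pow (n + 1)).coh (2 * (c * (n + 1 + 1)))) κ := by
  have h := coh_kunneth A (A.pow n) (2 * c) (2 * (c * (n + 1)))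
  have e : 2 * (c * (n + 1 + 1)) = 2 * c + 2 * (c * (n + 1)) := by ring
  rw [e]
  exact ⟨_, h⟩

end Op

end Pool.Agent.Q60.SS
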