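import Pool.Agent.Q60.SS.Var
import Pool.Agent.Q60.SS.Comb2

/-!
# Tate classes and orders of poles on the powers
-/

set_option autoImplicit false

open Module TensorProduct Filter Topology

namespace Pool.Agent.Q60.SS

universe u v w

open Pool.Agent.Y163.MW Pool.Agent.Y136.UB Pool.Agent.Q60.PL

/-- Two families with the same numbers of occurrences differ by a bijection. -/
lemma exists_equiv' {I J κ : Type*} [Finite I] [Finite J] (f : I → κ) (g : J → κ)
    (h : ∀ r, Nat.card {i // f i = r} = Nat.card {j // g j = r}) :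
    ∃ E : I ≃ J, ∀ i, g (E i) = f i := by
  have h1 : ∀ r, Nonempty ({i // f i = r} ≃ {j // g j = r}) := fun r => by
    rw [← Finite.card_eq]
    exact h r
  let E : ∀ r, {i // f i = r} ≃ {j // g j = r} := fun r => (h1 r).some
  refine ⟨(Equiv.sigmaFiberEquiv f).symm.trans
    ((Equiv.sigmaCongrRight E).trans (Equiv.sigmaFiberEquiv g)), fun i => ?_⟩
  exact (E (f i) ⟨i, rfl⟩).2

/-- The operator `D` of the degrees. -/
structure IsDeg {Ω : Type w} [Field Ω] [CharZero Ω] {V : Type v} [AddCommGroup V] [Module Ω V]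
    {I : Type} (b : Basis I Ω V) (m : I → ℕ) (D N e : Module.End Ω V) : Prop where
  diag : ∀ i, D (b i) = (m i : Ω) • b i
  N : D * N = N * D
  e : D * e = e * D

section

variable {Ω : Type w} [Field Ω] [CharZero Ω] {V V' V'' : Type v} [AddCommGroup V] [Module Ω V]
  [AddCommGroup V'] [Module Ω V'] [AddCommGroup V''] [Module Ω V''] {I I' : Type}
  {N e D : Module.End Ω V} {b : Basis I Ω V} {m : I → ℕ}
  {N' e' D' : Module.End Ω V'} {b' : Basis I' Ω V'} {m' : I' → ℕ}

lemma IsDeg.tensor (H : IsDeg b m D N e) (H' : IsDeg b' m' D' N' e') :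
    IsDeg (b.tensorProduct b') (fun p : I × I' => m p.1 + m' p.2)
      (TensorProduct.map D LinearMap.id + TensorProduct.map LinearMap.id D')
      (TensorProduct.map N LinearMap.id + TensorProduct.map LinearMap.id N')
      (TensorProduct.map e LinearMap.id + TensorProduct.map LinearMap.id e') := by
  refine ⟨?_, ?_, ?_⟩
  · rintro ⟨i, j⟩
    simp only [Basis.tensorProduct_apply, LinearMap.add_apply, TensorProduct.map_tmul,
      LinearMap.id_apply, H.diag, H'.diag, Nat.cast_add, add_smul, TensorProduct.smul_tmul',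
      TensorProduct.tmul_smul]
  · rw [← sub_eq_zero, Pool.Agent.Y210.MW.comm_aux, H.N, H'.N, sub_self, sub_self]
    simp
  · rw [← sub_eq_zero, Pool.Agent.Y210.MW.comm_aux, H.e, H'.e, sub_self, sub_self]
    simp

lemma IsDeg.map (H : IsDeg b m D N e) (κ : V ≃ₗ[Ω] V'') :
    IsDeg (b.map κ) m (κ.conj D) (κ.conj N) (κ.conj e) := by
  have hmul : ∀ A B : Module.End Ω V, κ.conj A * κ.conj B = κ.conj (A * B) := by
    intro A B
    ext x
    simp [LinearEquiv.conj_apply]
  refine ⟨fun i => ?_, ?_, ?_⟩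
  · rw [Basis.map_apply]
    simp [LinearEquiv.conj_apply, H.diag]
  · rw [hmul, hmul, H.N]
  · rw [hmul, hmul, H.e]

lemma IsDeg.reindex (H : IsDeg b m D N e) (E : I ≃ I') (m'' : I' → ℕ)
    (hm : ∀ j, m'' j = m (E.symm j)) : IsDeg (b.reindex E) m'' D N e := by
  refine ⟨fun j => ?_, H.N, H.e⟩
  rw [Basis.reindex_apply, hm]
  exact H.diag _

end

section

variable {Ω : Type w} [Field Ω] [CharZero Ω] {R R' R'' : FCoh.{v, w} Ω}

/-- There is an adapted basis of the cohomology: `α i` are the eigenvalues, `a i` the weights for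
`sl(2)`, `m i` the degrees. -/
def DAdp (R : FCoh.{v, w} Ω) {I : Type} (α : I → Ω) (a : I → ℤ) (m : I → ℕ) : Prop :=
  ∃ (b : Basis I Ω R.V) (S N e h D : Module.End Ω R.V), IsJ R.F b α a S N e h ∧
    IsDeg b m D N e ∧ ∀ i, b i ∈ R.gr (m i)

lemma DAdp.reindex {I J : Type} {α : I → Ω} {a : I → ℤ} {m : I → ℕ} (H : DAdp R α a m)
    (E : I ≃ J) (α' : J → Ω) (a' : J → ℤ) (m' : J → ℕ) (hα : ∀ j, α' j = α (E.symm j))
    (ha : ∀ j, a' j = a (E.symm j)) (hm : ∀ j, m' j = m (E.symm j)) : DAdp R α' a' m' := by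
  obtain ⟨b, S, N, e, h, D, H, HD, hb⟩ := H
  refine ⟨b.reindex E, S, N, e, h, D, H.reindex E α' a' hα ha, HD.reindex E m' hm, fun j => ?_⟩
  rw [Basis.reindex_apply, hm]
  exact hb _

lemma DAdp.prod {I J : Type} {α : I → Ω} {a : I → ℤ} {m : I → ℕ} {α' : J → Ω} {a' : J → ℤ}
    {m' : J → ℕ} (H : DAdp R α a m) (H' : DAdp R' α' a' m') {κ : R.V ⊗[Ω] R'.V ≃ₗ[Ω] R''.V}
    (hκ : IsFKunneth R R' R'' κ) :
    DAdp R'' (fun p : I × J => α p.1 * α' p.2) (fun p => a p.1 + a' p.2)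
      (fun p => m p.1 + m' p.2) := by
  obtain ⟨b, S, N, e, h, D, H, HD, hb⟩ := H
  obtain ⟨b', S', N', e', h', D', H', HD', hb'⟩ := H'
  refine ⟨_, _, _, _, _, _, (H.tensor H').map κ (F'' := R''.F) (fun x => ?_),
    (HD.tensor HD').map κ, fun p => ?_⟩
  · induction x using TensorProduct.induction_on with
    | zero => simp
    | tmul x y => exact hκ.frob x y
    | add x y hx hy => rw [map_add, map_add, map_add, map_add, hx, hy]
  · rw [Basis.map_apply, Basis.tensorProduct_apply]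
    exact hκ.degree _ _ _ _ (hb p.1) (hb' p.2)

/-- Adapted bases for all the powers. -/
theorem DAdp.pow {R : ℕ → FCoh.{v, w} Ω} (hκ : ∀ n, ∃ κ, IsFKunneth (R 0) (R n) (R (n + 1)) κ)
    {I : Type} {α : I → Ω} {a : I → ℤ} {m : I → ℕ} (H : DAdp (R 0) α a m) (n : ℕ) :
    DAdp (R n) (fun g : Fin (n + 1) → I => ∏ k, α (g k))
      (fun g : Fin (n + 1) → I => ∑ k, a (g k)) (fun g : Fin (n + 1) → I => ∑ k, m (g k)) := by
  induction n with
  | zero =>
    refine H.reindex (Equiv.funUnique (Fin 1) I).symm _ _ _ (fun g => ?_) (fun g => ?_)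
      (fun g => ?_)
    · simp
    · simp
    · simp
  | succ n ih =>
    obtain ⟨κ, hκ⟩ := hκ n
    refine (H.prod ih hκ).reindex (Fin.consEquiv (fun _ => I)) _ _ _ (fun g => ?_) (fun g => ?_)
      (fun g => ?_)
    · rw [Fin.prod_univ_succ]
      rfl
    · rw [Fin.sum_univ_succ]
      rfl
    · rw [Fin.sum_univ_succ]
      rfl

end

section count

variable {Ω : Type w} [Field Ω] [CharZero Ω] {R : FCoh.{v, w} Ω} {I : Type} [Finite I]
  {N e h S D : Module.End Ω R.V} {b : Basis I Ω R.V} {α : I → Ω} {a : I → ℤ} {m : I → ℕ}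

/-- The part of `H^m` for the generalized eigenvalue `γ`. -/
def gpc (R : FCoh.{v, w} Ω) (p : ℕ × Ω) : Submodule Ω R.V := R.gr p.1 ⊓ R.F.maxGenEigenspace p.2

lemma gpc_eq (hR : DirectSum.IsInternal R.gr) (H : IsJ R.F b α a S N e h)
    (hb : ∀ i, b i ∈ R.gr (m i)) (M : ℕ) (γ : Ω) :
    gpc R (M, γ) = Submodule.span Ω (b '' {i | α i = γ ∧ m i = M}) := by
  have hi : iSupIndep (gpc R) :=
    iSupIndep_inf hR.submodule_iSupIndep (Module.End.independent_maxGenEigenspace R.F)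
  rw [gr_eq_span hi b (fun i => (m i, α i)) (fun i => ?_) (M, γ)]
  · congr 2
    ext i
    simp only [Set.mem_ofPred_eq, Prod.mk.injEq]
    tauto
  · refine Submodule.mem_inf.2 ⟨hb i, ?_⟩
    rw [H.gen_eq]
    exact Submodule.subset_span ⟨i, rfl, rfl⟩

lemma finrank_gpc (hR : DirectSum.IsInternal R.gr) (H : IsJ R.F b α a S N e h)
    (hb : ∀ i, b i ∈ R.gr (m i)) (M : ℕ) (γ : Ω) :
    finrank Ω (gpc R (M, γ)) = Nat.card {i // α i = γ ∧ m i = M} := by
  rw [gpc_eq hR H hb, finrank_span_image]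
  rfl

/-- Coordinates in an eigenspace of a diagonal operator. -/
lemma repr_eq_zero {T : Module.End Ω R.V} {t : I → Ω} (hT : ∀ i, T (b i) = t i • b i) {c : Ω}
    {x : R.V} (hx : T x = c • x) {i : I} (hi : t i ≠ c) : b.repr x i = 0 := by
  classical
  have := Fintype.ofFinite I
  have h1 : b.repr (T x) i = t i * b.repr x i := by
    conv_lhs => rw [← b.sum_repr x]
    rw [map_sum, map_sum, Finsupp.finsetSum_apply, Finset.sum_eq_single i]
    · rw [map_smul, hT, map_smul, map_smul]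
      simp
      ring
    · intro j _ hj
      rw [map_smul, hT, map_smul, map_smul]
      simp [hj]
    · intro h
      exact absurd (Finset.mem_univ i) h
  have h2 : b.repr (T x) i = c * b.repr x i := by
    rw [hx, map_smul]
    rfl
  have : (t i - c) * b.repr x i = 0 := by
    rw [sub_mul, ← h1, ← h2, sub_self]
  rcases mul_eq_zero.1 this with h4 | h4
  · exact absurd (sub_eq_zero.1 h4) hi
  · exact h4

lemma mem_span2 (H : IsJ R.F b α a S N e h) (HD : IsDeg b m D N e) (M : ℕ) (γ : Ω) (x : R.V) :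
    x ∈ Submodule.span Ω (b '' {i | α i = γ ∧ m i = M}) ↔ S x = γ • x ∧ D x = (M : Ω) • x := by
  classical
  have := Fintype.ofFinite I
  constructor
  · intro hx
    have h1 : Submodule.span Ω (b '' {i | α i = γ ∧ m i = M}) ≤
        LinearMap.ker (S - γ • (1 : Module.End Ω R.V)) ⊓
        LinearMap.ker (D - (M : Ω) • (1 : Module.End Ω R.V)) := by
      rw [Submodule.span_le]
      rintro _ ⟨i, ⟨hi1, hi2⟩, rfl⟩
      rw [SetLike.mem_coe, Submodule.mem_inf, LinearMap.mem_ker, LinearMap.sub_apply, H.diag,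
        hi1, LinearMap.mem_ker, LinearMap.sub_apply, HD.diag, hi2]
      simp
    obtain ⟨h2, h3⟩ := Submodule.mem_inf.1 (h1 hx)
    rw [LinearMap.mem_ker, LinearMap.sub_apply, sub_eq_zero] at h2 h3
    exact ⟨h2, h3⟩
  · rintro ⟨h1, h2⟩
    rw [← b.sum_repr x]
    refine Submodule.sum_mem _ fun i _ => ?_
    by_cases hi : α i = γ ∧ m i = M
    · exact Submodule.smul_mem _ _ (Submodule.subset_span ⟨i, hi, rfl⟩)
    · have h3 : b.repr x i = 0 := by
        rw [not_and_or] at hi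
        rcases hi with hi | hi
        · exact repr_eq_zero H.diag h1 hi
        · exact repr_eq_zero (t := fun i => (m i : Ω)) HD.diag h2 (by exact_mod_cast hi)
      rw [h3, zero_smul]
      exact zero_mem _

lemma finrank_eig (hR : DirectSum.IsInternal R.gr) (H : IsJ R.F b α a S N e h)
    (HD : IsDeg b m D N e) (hb : ∀ i, b i ∈ R.gr (m i)) (M : ℕ) (γ : Ω) :
    finrank Ω (R.gr M ⊓ R.F.eigenspace γ : Submodule Ω R.V) =
      Nat.card {i // α i = γ ∧ m i = M ∧ (a i = 0 ∨ a i = 1)} := by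
  have e1 : R.F.eigenspace γ =
      LinearMap.ker ((R.F - algebraMap Ω (Module.End Ω R.V) γ) ^ 1) := by
    ext x
    rw [pow_one, Module.End.mem_eigenspace_iff, LinearMap.mem_ker, LinearMap.sub_apply,
      Module.algebraMap_end_apply, sub_eq_zero]
  have e2 : R.gr M ⊓ R.F.eigenspace γ =
      LinearMap.ker (N ^ 1) ⊓ Submodule.span Ω (b '' {i | α i = γ ∧ m i = M}) := by
    rw [e1, H.ker_eq, ← gpc_eq hR H hb, ← H.gen_eq]
    unfold gpc
    rw [inf_left_comm]
  have hst : ∀ T : Module.End Ω R.V, S * T = T * S → D * T = T * D →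
      ∀ x ∈ Submodule.span Ω (b '' {i | α i = γ ∧ m i = M}),
      T x ∈ Submodule.span Ω (b '' {i | α i = γ ∧ m i = M}) := by
    intro T hT hT' x hx
    rw [mem_span2 H HD] at hx ⊢
    have h1 : S (T x) = T (S x) := LinearMap.congr_fun hT x
    have h2 : D (T x) = T (D x) := LinearMap.congr_fun hT' x
    rw [h1, h2, hx.1, hx.2, map_smul, map_smul]
    exact ⟨rfl, rfl⟩
  rw [e2, finrank_ker_sub H.sl (fun i => α i = γ ∧ m i = M) (hst N H.SN HD.N)
    (hst e H.Se HD.e) 1]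
  refine Nat.card_congr (Equiv.subtypeEquivRight fun i => ?_)
  constructor
  · rintro ⟨⟨h1, h2⟩, h3, h4⟩
    exact ⟨h1, h2, by push_cast at h3 h4; omega⟩
  · rintro ⟨h1, h2, h3⟩
    exact ⟨⟨h1, h2⟩, by push_cast; omega⟩

/-- The dimension of the space of the Tate classes of all codimensions: the classes in `H^(2 j)` with
`F x = q ^ j x`. -/
noncomputable def tateDim (R : FCoh.{v, w} Ω) (q : ℕ) : ℤ :=
  ∑ᶠ j : ℕ, (finrank Ω (R.gr (2 * j) ⊓ R.F.eigenspace ((q : Ω) ^ j) : Submodule Ω R.V) : ℤ)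

/-- The sum of the orders of the poles at the integers of the zeta function: the sum of the
multiplicities of the eigenvalues `q ^ j` of `F` on the `H^(2 j)`. -/
noncomputable def poleOrder (R : FCoh.{v, w} Ω) (q : ℕ) : ℤ :=
  ∑ᶠ j : ℕ, (finrank Ω (R.gr (2 * j) ⊓ R.F.maxGenEigenspace ((q : Ω) ^ j) :
    Submodule Ω R.V) : ℤ)

/-- Counting by codimension. -/
lemma finsum_codim (α : I → Ω) (m : I → ℕ) (q : ℕ) (p : I → Prop) :
    ∑ᶠ j : ℕ, (Nat.card {i // α i = (q : Ω) ^ j ∧ m i = 2 * j ∧ p i} : ℤ) =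
      Nat.card {i // (∃ j : ℕ, α i = (q : Ω) ^ j ∧ m i = 2 * j) ∧ p i} := by
  classical
  have := Fintype.ofFinite I
  have h1 : ∀ j : ℕ, (Nat.card {i // α i = (q : Ω) ^ j ∧ m i = 2 * j ∧ p i} : ℤ) =
      1 * (Nat.card {g : {i // (∃ j : ℕ, α i = (q : Ω) ^ j ∧ m i = 2 * j) ∧ p i} //
        m g / 2 = j} : ℤ) := by
    intro j
    rw [one_mul]
    congr 1
    refine (Nat.card_congr ((Equiv.subtypeSubtypeEquivSubtypeInter
      (fun i => (∃ j : ℕ, α i = (q : Ω) ^ j ∧ m i = 2 * j) ∧ p i) (fun i => m i / 2 = j)).trans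
      (Equiv.subtypeEquivRight fun i => ?_))).symm
    constructor
    · rintro ⟨⟨⟨j', h1, h2⟩, h3⟩, h4⟩
      have : j' = j := by omega
      subst this
      exact ⟨h1, h2, h3⟩
    · rintro ⟨h1, h2, h3⟩
      exact ⟨⟨⟨j, h1, h2⟩, h3⟩, by omega⟩
  rw [finsum_congr h1, finsum_card' (fun g : {i // (∃ j : ℕ, α i = (q : Ω) ^ j ∧ m i = 2 * j) ∧
    p i} => m g / 2) (fun _ => 1), Finset.sum_const, Nat.card_eq_fintype_card]
  simp

theorem tateDim_eq (hR : DirectSum.IsInternal R.gr) (H : IsJ R.F b α a S N e h)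
    (HD : IsDeg b m D N e) (hb : ∀ i, b i ∈ R.gr (m i)) (q : ℕ) :
    tateDim R q = Nat.card {i // (∃ j : ℕ, α i = (q : Ω) ^ j ∧ m i = 2 * j) ∧
      (a i = 0 ∨ a i = 1)} := by
  unfold tateDim
  rw [finsum_congr (fun j => by rw [finrank_eig hR H HD hb]), finsum_codim]

theorem poleOrder_eq (hR : DirectSum.IsInternal R.gr) (H : IsJ R.F b α a S N e h)
    (hb : ∀ i, b i ∈ R.gr (m i)) (q : ℕ) :
    poleOrder R q = Nat.card {i // ∃ j : ℕ, α i = (q : Ω) ^ j ∧ m i = 2 * j} := by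
  have h1 : ∀ j : ℕ, (finrank Ω (R.gr (2 * j) ⊓ R.F.maxGenEigenspace ((q : Ω) ^ j) :
      Submodule Ω R.V) : ℤ) = (Nat.card {i // α i = (q : Ω) ^ j ∧ m i = 2 * j ∧ True} : ℤ) := by
    intro j
    have := finrank_gpc hR H hb (2 * j) ((q : Ω) ^ j)
    unfold gpc at this
    rw [this]
    simp
  unfold poleOrder
  rw [finsum_congr h1, finsum_codim]
  simp

end count

/-- Poincaré duality for a variety of dimension `d`. -/
structure IsFPoincare {Ω : Type w} [Field Ω] (R : FCoh.{v, w} Ω) (q d : ℕ)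
    (B : R.V →ₗ[Ω] R.V →ₗ[Ω] Ω) : Prop where
  nondeg : ∀ x, (∀ y, val B x y = 0) → x = 0
  orth : ∀ m m' x y, x ∈ R.gr m → y ∈ R.gr m' → m + m' ≠ 2 * d → val B x y = 0
  frob : ∀ x y, val B (R.F x) (R.F y) = (q : Ω) ^ d * val B x y

/-- The class `1` in `H^0`. -/
def HasUnit {Ω : Type w} [Field Ω] (R : FCoh.{v, w} Ω) : Prop :=
  ∃ x ∈ R.gr 0, x ≠ 0 ∧ R.F x = x

section dual

variable {Ω : Type w} [Field Ω] [CharZero Ω] [IsAlgClosed Ω] {R : FCoh.{v, w} Ω} {q d : ℕ}

lemma dual_le (hR : IsFCoh R) {B : R.V →ₗ[Ω] R.V →ₗ[Ω] Ω} (hB : IsFPoincare R q d B)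
    {M M' : ℕ} {γ γ' : Ω} (hM : M + M' = 2 * d) (hγ : γ * γ' = (q : Ω) ^ d) (hγ0 : γ ≠ 0) :
    finrank Ω (gpc R (M, γ)) ≤ finrank Ω (gpc R (M', γ')) := by
  have := hR.finite
  have hB0 : ∀ x, (∀ y, B x y = 0) → x = 0 := hB.nondeg
  have hB1 : ∀ m m' x y, x ∈ R.gr m → y ∈ R.gr m' → m + m' ≠ 2 * d → B x y = 0 := hB.orth
  have hB2 : ∀ x y, B (R.F x) (R.F y) = (q : Ω) ^ d * B x y := hB.frob
  let φ : gpc R (M, γ) →ₗ[Ω] Module.Dual Ω (gpc R (M', γ')) :=
    { toFun := fun x => (B x).comp (gpc R (M', γ')).subtype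
      map_add' := fun x y => by ext z; simp
      map_smul' := fun a x => by ext z; simp }
  have hgr : ∀ m, R.gr m = ⨆ α, gpc R (m, α) := fun m =>
    Submodule.eq_iSup_inf_genEigenspace ⊤ (hR.F_gr m)
      (Module.End.iSup_maxGenEigenspace_eq_top R.F)
  have hφ : Function.Injective φ := by
    rw [← LinearMap.ker_eq_bot, LinearMap.ker_eq_bot']
    intro x hx
    apply Subtype.ext
    apply hB0
    have h1 : ∀ m' γ₁, ∀ y ∈ gpc R (m', γ₁), B x y = 0 := by
      intro m' γ₁ y hy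
      by_cases hm : M + m' = 2 * d
      · have hm' : m' = M' := by omega
        subst hm'
        by_cases hg : γ * γ₁ = (q : Ω) ^ d
        · have : γ₁ = γ' := mul_left_cancel₀ hγ0 (hg.trans hγ.symm)
          subst this
          exact DFunLike.congr_fun hx ⟨y, hy⟩
        · exact gen_orth (S := ⊤) (fun _ _ => Submodule.mem_top) (fun x y _ _ => hB2 x y) hg
            Submodule.mem_top Submodule.mem_top (Submodule.mem_inf.1 x.2).2
            (Submodule.mem_inf.1 hy).2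
      · exact hB1 M m' x y (Submodule.mem_inf.1 x.2).1 (Submodule.mem_inf.1 hy).1 hm
    intro y
    have h8 : (⊤ : Submodule Ω R.V) ≤ LinearMap.ker (B x) := by
      rw [← hR.isInternal.submodule_iSup_eq_top]
      refine iSup_le fun m' => ?_
      rw [hgr m']
      exact iSup_le fun γ₁ y hy => LinearMap.mem_ker.2 (h1 m' γ₁ y hy)
    exact LinearMap.mem_ker.1 (h8 (Submodule.mem_top))
  have := LinearMap.finrank_le_finrank_of_injective hφ
  rwa [Subspace.dual_finrank_eq] at this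

/-- The duality of the labels of an adapted basis. -/
theorem exists_dual (hq : 0 < q) (hR : IsFCoh R) {B : R.V →ₗ[Ω] R.V →ₗ[Ω] Ω}
    (hB : IsFPoincare R q d B) {I : Type} [Finite I] {N e h S : Module.End Ω R.V}
    {b : Basis I Ω R.V} {α : I → Ω} {a : I → ℤ} {m : I → ℕ} (H : IsJ R.F b α a S N e h)
    (hb : ∀ i, b i ∈ R.gr (m i)) :
    ∃ σ : I ≃ I, ∀ i, α i * α (σ i) = (q : Ω) ^ d ∧ m i + m (σ i) = 2 * d := by
  classical
  have hq0 : (q : Ω) ^ d ≠ 0 := pow_ne_zero _ (Nat.cast_ne_zero.2 (by omega))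
  have hle : ∀ i, m i ≤ 2 * d := by
    intro i
    by_contra hcon
    apply b.ne_zero i
    apply hB.nondeg
    intro y
    have h8 : (⊤ : Submodule Ω R.V) ≤ LinearMap.ker (B (b i)) := by
      rw [← hR.isInternal.submodule_iSup_eq_top]
      refine iSup_le fun m' y hy => LinearMap.mem_ker.2 ?_
      exact hB.orth (m i) m' (b i) y (hb i) hy (by omega)
    exact LinearMap.mem_ker.1 (h8 (Submodule.mem_top))
  have key : ∀ (M : ℕ) (γ : Ω), γ ≠ 0 → M ≤ 2 * d →
      Nat.card {i // α i = γ ∧ m i = M} = Nat.card {i // α i = (q : Ω) ^ d / γ ∧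
        m i = 2 * d - M} := by
    intro M γ hγ hM
    rw [← finrank_gpc hR.isInternal H hb, ← finrank_gpc hR.isInternal H hb]
    apply le_antisymm
    · exact dual_le hR hB (by omega) (by field_simp) hγ
    · exact dual_le hR hB (by omega) (by field_simp) (div_ne_zero hq0 hγ)
  have hcard : ∀ r : Ω × ℕ, Nat.card {i // (α i, m i) = r} =
      Nat.card {i // ((q : Ω) ^ d / α i, 2 * d - m i) = r} := by
    rintro ⟨γ, M⟩
    simp only [Prod.mk.injEq]
    by_cases hγ : γ = 0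
    · subst hγ
      have e1 : IsEmpty {i // α i = 0 ∧ m i = M} := ⟨fun i => H.ne _ i.2.1⟩
      have e2 : IsEmpty {i // (q : Ω) ^ d / α i = 0 ∧ 2 * d - m i = M} :=
        ⟨fun i => div_ne_zero hq0 (H.ne _) i.2.1⟩
      rw [Nat.card_of_isEmpty, Nat.card_of_isEmpty]
    by_cases hM : M ≤ 2 * d
    · rw [key M γ hγ hM]
      refine Nat.card_congr (Equiv.subtypeEquivRight fun i => ?_)
      have h2 := hle i
      constructor
      · rintro ⟨h3, h4⟩
        refine ⟨?_, by omega⟩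
        rw [h3]
        field_simp
      · rintro ⟨h3, h4⟩
        refine ⟨?_, by omega⟩
        rw [← h3]
        have := H.ne i
        field_simp
    · have e1 : IsEmpty {i // α i = γ ∧ m i = M} := ⟨fun i => by
        have := hle i.1
        have := i.2.2
        omega⟩
      have e2 : IsEmpty {i // (q : Ω) ^ d / α i = γ ∧ 2 * d - m i = M} := ⟨fun i => by
        have := i.2.2
        omega⟩
      rw [Nat.card_of_isEmpty, Nat.card_of_isEmpty]
  obtain ⟨σ, hσ⟩ := exists_equiv' (fun i => (α i, m i))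
    (fun i => ((q : Ω) ^ d / α i, 2 * d - m i)) hcard
  refine ⟨σ, fun i => ?_⟩
  have h1 := hσ i
  simp only [Prod.mk.injEq] at h1
  have h2 := hle (σ i)
  have h3 := hle i
  refine ⟨?_, by omega⟩
  rw [← h1.1, div_mul_cancel₀ _ (H.ne _)]

end dual

end Pool.Agent.Q60.SS
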