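import Pool.Agent.Q60.SS.Tate

/-!
# The zero-one law for the Tate classes on powers
-/

set_option autoImplicit false

open Module TensorProduct Filter Topology

namespace Pool.Agent.Q60.SS

universe u v w

open Pool.Agent.Y163.MW Pool.Agent.Y136.UB Pool.Agent.Q60.PL

section

variable {Ω : Type w} [Field Ω] [CharZero Ω] [IsAlgClosed Ω] {q d : ℕ}

/-- The number of the words whose label is Tate. -/
noncomputable def zc (q : ℕ) {I : Type} (α : I → Ω) (m : I → ℕ) (n : ℕ) : ℕ :=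
  Nat.card {g : Fin n → I // ∃ j : ℕ, ∏ k, α (g k) = (q : Ω) ^ j ∧ ∑ k, m (g k) = 2 * j}

/-- The number of the words whose label is Tate in the middle layers. -/
noncomputable def tc (q : ℕ) {I : Type} (α : I → Ω) (a : I → ℤ) (m : I → ℕ) (n : ℕ) : ℕ :=
  Nat.card {g : Fin n → I // (∃ j : ℕ, ∏ k, α (g k) = (q : Ω) ^ j ∧ ∑ k, m (g k) = 2 * j) ∧
    (∑ k, a (g k) = 0 ∨ ∑ k, a (g k) = 1)}

/-- The data of the words. -/
theorem word_bounds {I : Type} [Fintype I] (α : I → Ω) (a : I → ℤ) (m : I → ℕ) (σ : I ≃ I)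
    (hσ : ∀ i, α i * α (σ i) = (q : Ω) ^ d ∧ m i + m (σ i) = 2 * d) (is : I)
    (his : α is = 1 ∧ m is = 0) :
    (∀ n, 0 < zc q α m n) ∧
    ((∃ i0 i1, α i0 = α i1 ∧ m i0 = m i1 ∧ a i0 = a i1 + 2) → ∃ C : ℝ, 0 < C ∧ ∀ n : ℕ,
      √(n : ℝ) * (tc q α a m n : ℝ) ≤ C * (zc q α m n : ℝ)) := by
  classical
  let lab : I → Ω × Multiplicative ℕ := fun i => (α i, Multiplicative.ofAdd (m i))
  let P : Ω × Multiplicative ℕ → Prop := fun x =>
    ∃ j : ℕ, x = ((q : Ω) ^ j, Multiplicative.ofAdd (2 * j))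
  have hlab : ∀ (n : ℕ) (g : Fin n → I), ∏ k, lab (g k) =
      (∏ k, α (g k), Multiplicative.ofAdd (∑ k, m (g k))) := by
    intro n g
    apply Prod.ext
    · rw [Prod.fst_prod]
    · rw [Prod.snd_prod, ofAdd_sum]
  have hP : ∀ (n : ℕ) (g : Fin n → I), P (∏ k, lab (g k)) ↔
      ∃ j : ℕ, ∏ k, α (g k) = (q : Ω) ^ j ∧ ∑ k, m (g k) = 2 * j := by
    intro n g
    show (∃ j : ℕ, ∏ k, lab (g k) = ((q : Ω) ^ j, Multiplicative.ofAdd (2 * j))) ↔ _
    refine exists_congr fun j => ?_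
    rw [hlab, Prod.mk.injEq]
    exact and_congr_right fun _ => Multiplicative.ofAdd.injective.eq_iff
  let c : Ω × Multiplicative ℕ := ((q : Ω) ^ d, Multiplicative.ofAdd (2 * d))
  have hc : ∀ r : ℕ, P (c ^ r) := by
    intro r
    refine ⟨d * r, ?_⟩
    show ((q : Ω) ^ d, Multiplicative.ofAdd (2 * d)) ^ r = _
    rw [Prod.pow_mk, ← pow_mul, ← ofAdd_nsmul]
    congr 2
    simp
    ring
  have hσ' : ∀ i, lab i * lab (σ i) = c := by
    intro i
    show (α i * α (σ i), Multiplicative.ofAdd (m i) * Multiplicative.ofAdd (m (σ i))) = _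
    rw [(hσ i).1, ← ofAdd_add, (hσ i).2]
  have his' : lab is = 1 := by
    show (α is, Multiplicative.ofAdd (m is)) = 1
    rw [his.1, his.2]
    rfl
  have hz : ∀ n, zc q α m n = Nat.card {g : Fin n → I // P (∏ k, lab (g k))} := fun n =>
    Nat.card_congr (Equiv.subtypeEquivRight fun g => (hP n g).symm)
  have ht : ∀ n, tc q α a m n = Nat.card {g : Fin n → I // P (∏ k, lab (g k)) ∧
      (∑ k, a (g k) = 0 ∨ ∑ k, a (g k) = 1)} := fun n =>
    Nat.card_congr (Equiv.subtypeEquivRight fun g => and_congr_left fun _ => (hP n g).symm)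
  constructor
  · intro n
    have h1 := lower_bound lab σ c hσ' is his' P hc n
    rw [← hz] at h1
    have h2 : 0 < Fintype.card I ^ n := pow_pos (Fintype.card_pos_iff.2 ⟨is⟩) n
    by_contra hcon
    have h3 : zc q α m n = 0 := by omega
    rw [h3, mul_zero] at h1
    omega
  · rintro ⟨i0, i1, h1, h2, h3⟩
    have hlab01 : lab i0 = lab i1 := by
      show (α i0, Multiplicative.ofAdd (m i0)) = (α i1, Multiplicative.ofAdd (m i1))
      rw [h1, h2]
    obtain ⟨C, hC, hC'⟩ := comb_main lab a P σ c hσ' hc his' hlab01 h3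
    refine ⟨C, hC, fun n => ?_⟩
    rw [ht, hz]
    exact hC' n

/-- **The zero-one law for Tate classes.** -/
theorem tate_law (hq : 0 < q) {R : ℕ → FCoh.{v, w} Ω} (hR : IsFCoh (R 0))
    (hint : ∀ n, DirectSum.IsInternal (R n).gr)
    (hκ : ∀ n, ∃ κ, IsFKunneth (R 0) (R n) (R (n + 1)) κ)
    {B : (R 0).V →ₗ[Ω] (R 0).V →ₗ[Ω] Ω} (hB : IsFPoincare (R 0) q d B) (h1 : HasUnit (R 0)) :
    (∀ n, 0 < poleOrder (R n) q) ∧
    (Semisimple (R 0).F → ∀ n, tateDim (R n) q = poleOrder (R n) q) ∧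
    (¬ Semisimple (R 0).F → ∃ C : ℝ, 0 < C ∧ ∀ n : ℕ, √((n + 1 : ℕ) : ℝ) *
      (tateDim (R n) q : ℝ) ≤ C * (poleOrder (R n) q : ℝ)) := by
  classical
  have := hR.finite
  obtain ⟨ι, hι, len, αs, ms, b, S, N, e, h, D, HJ, ⟨hD1, hD2, hD3⟩, hb⟩ :=
    exists_JD hR.isInternal hR.F_gr hR.inj
  have HD : IsDeg b (fun p : Σ s : ι, Fin (len s + 1) => ms p.1) D N e := ⟨hD1, hD2, hD3⟩
  have HA : DAdp (R 0) (fun p : Σ s : ι, Fin (len s + 1) => αs p.1) (sw len)
      (fun p => ms p.1) := ⟨b, S, N, e, h, D, HJ, HD, hb⟩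
  have hss : Semisimple (R 0).F ↔ ∀ s, len s = 0 := by
    rw [HJ.semisimple_iff]
    exact sw_zero_one_iff len
  obtain ⟨σ, hσ⟩ := exists_dual hq hR hB HJ hb
  obtain ⟨is, his⟩ : ∃ i : Σ s : ι, Fin (len s + 1), αs i.1 = 1 ∧ ms i.1 = 0 := by
    obtain ⟨x, hx0, hx1, hx2⟩ := h1
    have h2 : x ∈ gpc (R 0) (0, 1) := Submodule.mem_inf.2 ⟨hx0, mem_gen.2 ⟨1, by
      rw [pow_one, LinearMap.sub_apply, Module.algebraMap_end_apply, hx2, one_smul, sub_self]⟩⟩
    have h3 : finrank Ω (gpc (R 0) (0, 1)) ≠ 0 := by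
      intro h0
      rw [Submodule.finrank_eq_zero] at h0
      rw [h0, Submodule.mem_bot] at h2
      exact hx1 h2
    rw [finrank_gpc hR.isInternal HJ hb] at h3
    have h4 : Nonempty {i : Σ s : ι, Fin (len s + 1) // αs i.1 = 1 ∧ ms i.1 = 0} := by
      by_contra hcon
      rw [not_nonempty_iff] at hcon
      exact h3 Nat.card_of_isEmpty
    obtain ⟨i, hi⟩ := h4
    exact ⟨i, hi⟩
  obtain ⟨w1, w2⟩ := word_bounds (q := q) (d := d)
    (fun p : Σ s : ι, Fin (len s + 1) => αs p.1) (sw len) (fun p => ms p.1) σ hσ is his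
  have hz : ∀ n, poleOrder (R n) q = (zc q (fun p : Σ s : ι, Fin (len s + 1) => αs p.1)
      (fun p => ms p.1) (n + 1) : ℤ) := by
    intro n
    obtain ⟨b', S', N', e', h', D', H', HD', hb'⟩ := HA.pow hκ n
    exact poleOrder_eq (hint n) H' hb' q
  have ht : ∀ n, tateDim (R n) q = (tc q (fun p : Σ s : ι, Fin (len s + 1) => αs p.1) (sw len)
      (fun p => ms p.1) (n + 1) : ℤ) := by
    intro n
    obtain ⟨b', S', N', e', h', D', H', HD', hb'⟩ := HA.pow hκ n
    exact tateDim_eq (hint n) H' HD' hb' q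
  refine ⟨fun n => ?_, fun h0 n => ?_, fun h0 => ?_⟩
  · rw [hz]
    exact_mod_cast w1 (n + 1)
  · rw [hz, ht]
    rw [hss] at h0
    congr 1
    refine Nat.card_congr (Equiv.subtypeEquivRight fun g => ⟨fun h => h.1, fun h => ⟨h, ?_⟩⟩)
    left
    refine Finset.sum_eq_zero fun k _ => ?_
    unfold sw
    have h1 := (g k).2.2
    have h2 := h0 (g k).1
    omega
  · have hex : ∃ s, 1 ≤ len s := by
      by_contra hcon
      push Not at hcon
      exact h0 (hss.2 fun s => by have := hcon s; omega)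
    obtain ⟨s, hs⟩ := hex
    obtain ⟨C, hC, hC'⟩ := w2 ⟨⟨s, ⟨0, by omega⟩⟩, ⟨s, ⟨1, by omega⟩⟩, rfl, rfl, by
      unfold sw
      simp⟩
    refine ⟨C, hC, fun n => ?_⟩
    rw [hz, ht]
    exact_mod_cast hC' (n + 1)

/-- If the Tate classes are a positive proportion of the order of the poles on infinitely many
powers, then `F` is semisimple. -/
theorem semisimple_of_tate (hq : 0 < q) {R : ℕ → FCoh.{v, w} Ω} (hR : IsFCoh (R 0))
    (hint : ∀ n, DirectSum.IsInternal (R n).gr)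
    (hκ : ∀ n, ∃ κ, IsFKunneth (R 0) (R n) (R (n + 1)) κ)
    {B : (R 0).V →ₗ[Ω] (R 0).V →ₗ[Ω] Ω} (hB : IsFPoincare (R 0) q d B) (h1 : HasUnit (R 0))
    {ε : ℝ} (hε : 0 < ε) (h : ∃ᶠ n in atTop, ε * poleOrder (R n) q ≤ tateDim (R n) q) :
    Semisimple (R 0).F := by
  by_contra h0
  obtain ⟨h2, -, h3⟩ := tate_law hq hR hint hκ hB h1
  obtain ⟨C, hC, hC'⟩ := h3 h0
  have h4 : Tendsto (fun n : ℕ => √((n + 1 : ℕ) : ℝ)) atTop atTop :=
    (tendsto_add_atTop_iff_nat 1).2 (Real.tendsto_sqrt_atTop.comp tendsto_natCast_atTop_atTop)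
  have h5 := h4.eventually (eventually_gt_atTop (C / ε))
  obtain ⟨n, hn1, hn2⟩ := (h.and_eventually h5).exists
  rw [div_lt_iff₀ hε] at hn2
  have h6 : (0 : ℝ) < poleOrder (R n) q := by exact_mod_cast h2 n
  have h7 := hC' n
  have h8 : √((n + 1 : ℕ) : ℝ) * (ε * poleOrder (R n) q) ≤
      √((n + 1 : ℕ) : ℝ) * (tateDim (R n) q : ℝ) := by gcongr
  have h9 : C * poleOrder (R n) q < √((n + 1 : ℕ) : ℝ) * ε * poleOrder (R n) q := by gcongr
  linarith

end

/-- Spaces of Tate classes have at most the total dimension `tateDim`. -/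
theorem sub_le_tateDim {Ω : Type w} [Field Ω] {R : FCoh.{v, w} Ω} (hR : IsFCoh R) (q : ℕ)
    {A : ℕ → Submodule Ω R.V} (hA : ∀ j, A j ≤ R.gr (2 * j) ⊓ R.F.eigenspace ((q : Ω) ^ j)) :
    ∑ᶠ j : ℕ, (finrank Ω (A j) : ℤ) ≤ tateDim R q := by
  classical
  have := hR.finite
  have hfm : {m | R.gr m ≠ ⊥}.Finite :=
    WellFoundedGT.finite_ne_bot_of_iSupIndep hR.isInternal.submodule_iSupIndep
  have hfj : {j | R.gr (2 * j) ≠ ⊥}.Finite := by
    refine (hfm.image (fun m => m / 2)).subset fun j hj => ⟨2 * j, hj, by simp⟩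
  have hsupp : ∀ (C : ℕ → Submodule Ω R.V), (∀ j, C j ≤ R.gr (2 * j)) →
      Function.support (fun j : ℕ => (finrank Ω (C j) : ℤ)) ⊆ hfj.toFinset := by
    intro C hC j hj
    rw [Finset.mem_coe, hfj.mem_toFinset]
    intro h0
    apply hj
    have h1 : C j = ⊥ := le_bot_iff.1 ((hC j).trans h0.le)
    show (finrank Ω (C j) : ℤ) = 0
    rw [h1, finrank_bot]
    rfl
  unfold tateDim
  rw [finsum_eq_sum_of_support_subset _ (hsupp A fun j => (hA j).trans inf_le_left),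
    finsum_eq_sum_of_support_subset _ (hsupp (fun j => R.gr (2 * j) ⊓
      R.F.eigenspace ((q : Ω) ^ j)) fun j => inf_le_left)]
  exact Finset.sum_le_sum fun j _ => by exact_mod_cast Submodule.finrank_mono (hA j)

/-- The known properties for smooth proper varieties over a finite field with `q` elements: finite
dimension, `F` invertible, Künneth formula, Poincaré duality, `H^0`. -/
structure FTheory.IsWeil {k : Type u} [Field k] {Ω : Type w} [Field Ω]
    (T : FTheory.{u, v, w} k Ω) (q : ℕ) : Prop where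
  fin : T.IsFin
  dual : ∀ X, ∃ B, IsFPoincare (T.H X) q X.dim B
  unit : ∀ X, HasUnit (T.H X)

end Pool.Agent.Q60.SS
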