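import Pool.Agent.Q60.SS.Ex
import Pool.Agent.Q60.PL.Seq

/-!
# Cohomology of varieties over a finite field: the Jordan blocks of Frobenius on powers
-/

set_option autoImplicit false

open Module TensorProduct Filter Topology

namespace Pool.Agent.Q60.SS

universe u v w

open Pool.Agent.Y163.MW Pool.Agent.Y136.UB Pool.Agent.Q60.PL

/-- The data given by the cohomology of a variety over a finite field: the space `V = ⨁ H^m`, its
parts `gr m = H^m` and the Frobenius `F`. -/
structure FCoh (Ω : Type w) [Field Ω] where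
  /-- the cohomology -/
  V : Type v
  [addCommGroup : AddCommGroup V]
  [module : Module Ω V]
  /-- the cohomology in degree `m` -/
  gr : ℕ → Submodule Ω V
  /-- the Frobenius -/
  F : Module.End Ω V

attribute [instance] FCoh.addCommGroup FCoh.module

section

variable {Ω : Type w} [Field Ω] {V : Type v} [AddCommGroup V] [Module Ω V]

/-- All the generalized eigenspaces of `F` are eigenspaces (`F` is diagonalizable, if `Ω` is
algebraically closed). -/
def Semisimple (F : Module.End Ω V) : Prop := ∀ γ, F.maxGenEigenspace γ = F.eigenspace γ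

/-- The number of the Jordan blocks of `F` of size greater than `k`. -/
noncomputable def blocks (F : Module.End Ω V) (k : ℕ) : ℤ :=
  ∑ᶠ γ : Ω, ((finrank Ω (LinearMap.ker ((F - algebraMap Ω (Module.End Ω V) γ) ^ (k + 1))) : ℤ) -
    finrank Ω (LinearMap.ker ((F - algebraMap Ω (Module.End Ω V) γ) ^ k)))

/-- The sum of the `s (s² - 1) / 3` over the sizes `s` of the Jordan blocks of `F`, written as the sum
of the `k (k + 1)` times the number of the Jordan blocks of size greater than `k`. -/
noncomputable def jordanMoment (F : Module.End Ω V) : ℤ :=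
  ∑ᶠ k : ℕ, (k : ℤ) * (k + 1) * blocks F k

end

/-- The known properties: the cohomology is finite dimensional, `F` respects the degrees and is
invertible. -/
structure IsFCoh {Ω : Type w} [Field Ω] (R : FCoh.{v, w} Ω) : Prop where
  finite : Module.Finite Ω R.V
  isInternal : DirectSum.IsInternal R.gr
  F_gr : Respects R.gr R.F
  inj : Function.Injective R.F

/-- The Künneth formula. -/
structure IsFKunneth {Ω : Type w} [Field Ω] (R R' R'' : FCoh.{v, w} Ω)
    (κ : R.V ⊗[Ω] R'.V ≃ₗ[Ω] R''.V) : Prop where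
  degree : KDegree κ R.gr R'.gr R''.gr
  frob : KMultiplicative κ R.F R'.F R''.F

section

variable {Ω : Type w} [Field Ω] [CharZero Ω] {R R' R'' : FCoh.{v, w} Ω}

/-- There is an adapted basis of the cohomology: `α i` are the eigenvalues, `a i` the weights for
`sl(2)`, `m i` the degrees. -/
def JAdp (R : FCoh.{v, w} Ω) {I : Type} (α : I → Ω) (a : I → ℤ) (m : I → ℕ) : Prop :=
  ∃ (b : Basis I Ω R.V) (S N e h : Module.End Ω R.V), IsJ R.F b α a S N e h ∧ ∀ i, b i ∈ R.gr (m i)

lemma JAdp.reindex {I J : Type} {α : I → Ω} {a : I → ℤ} {m : I → ℕ} (H : JAdp R α a m)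
    (E : I ≃ J) (α' : J → Ω) (a' : J → ℤ) (m' : J → ℕ) (hα : ∀ j, α' j = α (E.symm j))
    (ha : ∀ j, a' j = a (E.symm j)) (hm : ∀ j, m' j = m (E.symm j)) : JAdp R α' a' m' := by
  obtain ⟨b, S, N, e, h, H, hb⟩ := H
  refine ⟨b.reindex E, S, N, e, h, H.reindex E α' a' hα ha, fun j => ?_⟩
  rw [Basis.reindex_apply, hm]
  exact hb _

lemma JAdp.prod {I J : Type} {α : I → Ω} {a : I → ℤ} {m : I → ℕ} {α' : J → Ω} {a' : J → ℤ}
    {m' : J → ℕ} (H : JAdp R α a m) (H' : JAdp R' α' a' m') {κ : R.V ⊗[Ω] R'.V ≃ₗ[Ω] R''.V}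
    (hκ : IsFKunneth R R' R'' κ) :
    JAdp R'' (fun p : I × J => α p.1 * α' p.2) (fun p => a p.1 + a' p.2)
      (fun p => m p.1 + m' p.2) := by
  obtain ⟨b, S, N, e, h, H, hb⟩ := H
  obtain ⟨b', S', N', e', h', H', hb'⟩ := H'
  refine ⟨_, _, _, _, _, (H.tensor H').map κ (F'' := R''.F) (fun x => ?_), fun p => ?_⟩
  · induction x using TensorProduct.induction_on with
    | zero => simp
    | tmul x y => exact hκ.frob x y
    | add x y hx hy => rw [map_add, map_add, map_add, map_add, hx, hy]
  · rw [Basis.map_apply, Basis.tensorProduct_apply]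
    exact hκ.degree _ _ _ _ (hb p.1) (hb' p.2)

/-- Adapted bases for all the powers. -/
theorem JAdp.pow {R : ℕ → FCoh.{v, w} Ω} (hκ : ∀ n, ∃ κ, IsFKunneth (R 0) (R n) (R (n + 1)) κ)
    {I : Type} {α : I → Ω} {a : I → ℤ} {m : I → ℕ} (H : JAdp (R 0) α a m) (n : ℕ) :
    JAdp (R n) (fun g : Fin (n + 1) → I => ∏ k, α (g k))
      (fun g : Fin (n + 1) → I => ∑ k, a (g k)) (fun g : Fin (n + 1) → I => ∑ k, m (g k)) := by
  induction n with
  | zero =>
    refine H.reindex (Equiv.funUnique (Fin 1) I).symm _ _ _ (fun g => ?_) (fun g => ?_)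
      (fun g => ?_)
    · simp
    · simp
    · simp
  | succ n ih =>
    obtain ⟨κ, hκ⟩ := hκ n
    refine (H.prod ih hκ).reindex (Fin.consEquiv (fun _ => I)) _ _ _ (fun g => ?_) (fun g => ?_)
      (fun g => ?_)
    · rw [Fin.prod_univ_succ]
      rfl
    · rw [Fin.sum_univ_succ]
      rfl
    · rw [Fin.sum_univ_succ]
      rfl

end

section count

variable {Ω : Type w} [Field Ω] [CharZero Ω] {V : Type v} [AddCommGroup V] [Module Ω V]
  {I : Type} [Finite I] {F N e h S : Module.End Ω V} {b : Basis I Ω V} {α : I → Ω} {a : I → ℤ}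

omit [Field Ω] [CharZero Ω] in
/-- Counting by eigenvalues. -/
lemma finsum_alpha (α : I → Ω) (p : I → Prop) :
    ∑ᶠ γ : Ω, (Nat.card {i // α i = γ ∧ p i} : ℤ) = Nat.card {i // p i} := by
  classical
  have := Fintype.ofFinite I
  have h1 : ∀ γ : Ω, (Nat.card {i // α i = γ ∧ p i} : ℤ) =
      1 * (Nat.card {g : {i // p i} // α g = γ} : ℤ) := by
    intro γ
    rw [one_mul]
    congr 1
    exact (Nat.card_congr ((Equiv.subtypeSubtypeEquivSubtypeInter p (fun i => α i = γ)).trans
      (Equiv.subtypeEquivRight fun i => and_comm))).symm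
  rw [finsum_congr h1, finsum_card' (fun g : {i // p i} => α g) (fun _ => 1), Finset.sum_const,
    Nat.card_eq_fintype_card]
  simp

/-- The number of Jordan blocks in an adapted basis. -/
theorem IsJ.blocks_eq (H : IsJ F b α a S N e h) (k : ℕ) :
    blocks F k = (Nat.card {i // -((k + 1 : ℕ) : ℤ) < a i ∧ a i ≤ ((k + 1 : ℕ) : ℤ)} : ℤ) -
      Nat.card {i // -(k : ℤ) < a i ∧ a i ≤ k} := by
  classical
  have := Fintype.ofFinite I
  have hfin : ∀ p : I → Prop, (Function.support fun γ : Ω =>
      (Nat.card {i // α i = γ ∧ p i} : ℤ)).Finite := by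
    intro p
    refine (Set.finite_range α).subset fun γ hγ => ?_
    by_contra hcon
    apply hγ
    have : IsEmpty {i // α i = γ ∧ p i} := ⟨fun i => hcon ⟨i, i.2.1⟩⟩
    show (Nat.card {i // α i = γ ∧ p i} : ℤ) = 0
    rw [Nat.card_of_isEmpty]
    rfl
  unfold blocks
  rw [finsum_congr (fun γ => by rw [H.finrank_ker, H.finrank_ker]),
    finsum_sub_distrib (hfin _) (hfin _), finsum_alpha, finsum_alpha]

/-- Semisimplicity in an adapted basis. -/
theorem IsJ.semisimple_iff (H : IsJ F b α a S N e h) :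
    Semisimple F ↔ ∀ i, a i = 0 ∨ a i = 1 := by
  classical
  have := Fintype.ofFinite I
  have := H.fin
  have hle : ∀ γ, F.eigenspace γ ≤ F.maxGenEigenspace γ := fun γ x hx =>
    mem_gen.2 ⟨1, by
      rw [pow_one, LinearMap.sub_apply, Module.algebraMap_end_apply,
        Module.End.mem_eigenspace_iff.1 hx, sub_self]⟩
  have h1 : ∀ γ, finrank Ω (F.eigenspace γ) = Nat.card {i // α i = γ ∧ (a i = 0 ∨ a i = 1)} := by
    intro γ
    have e1 : F.eigenspace γ = LinearMap.ker ((F - algebraMap Ω (Module.End Ω V) γ) ^ 1) := by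
      ext x
      rw [pow_one, Module.End.mem_eigenspace_iff, LinearMap.mem_ker, LinearMap.sub_apply,
        Module.algebraMap_end_apply, sub_eq_zero]
    rw [e1, H.finrank_ker]
    refine Nat.card_congr (Equiv.subtypeEquivRight fun i => ?_)
    constructor
    · rintro ⟨h1, h2, h3⟩
      exact ⟨h1, by push_cast at h2 h3; omega⟩
    · rintro ⟨h1, h2⟩
      exact ⟨h1, by push_cast; omega⟩
  have h2 : ∀ γ, finrank Ω (F.maxGenEigenspace γ) = Nat.card {i // α i = γ} := by
    intro γ
    rw [H.gen_eq, finrank_span_image]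
    rfl
  have h3 : Semisimple F ↔ ∀ γ, Nat.card {i // α i = γ ∧ (a i = 0 ∨ a i = 1)} =
      Nat.card {i // α i = γ} := by
    refine forall_congr' fun γ => ?_
    rw [← h1, ← h2]
    constructor
    · intro h
      rw [h]
    · intro h
      exact (Submodule.eq_of_le_of_finrank_eq (hle γ) h).symm
  rw [h3]
  constructor
  · intro h i
    by_contra hcon
    have h4 := h (α i)
    have h5 : Nat.card {j // α j = α i ∧ (a j = 0 ∨ a j = 1)} < Nat.card {j // α j = α i} := by
      rw [Nat.card_eq_fintype_card, Nat.card_eq_fintype_card, Fintype.card_subtype,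
        Fintype.card_subtype]
      apply Finset.card_lt_card
      rw [Finset.ssubset_iff_of_subset]
      · exact ⟨i, by simp, by simpa using hcon⟩
      · intro j
        simp only [Finset.mem_filter, Finset.mem_univ, true_and]
        exact fun h => h.1
    omega
  · intro h γ
    exact Nat.card_congr (Equiv.subtypeEquivRight fun i => ⟨fun h' => h'.1, fun h' => ⟨h', h i⟩⟩)

end count

section strings

variable {ι : Type} [Fintype ι] (len : ι → ℕ)

/-- The weights for `sl(2)` in strings. -/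
def sw (p : Σ s : ι, Fin (len s + 1)) : ℤ := (len p.1 : ℤ) - 2 * (p.2 : ℕ)

omit [Fintype ι] in
lemma sw_sym (r : ℤ) : Nat.card {p // sw len p = r} = Nat.card {p // sw len p = -r} := by
  let E : (Σ s : ι, Fin (len s + 1)) ≃ (Σ s : ι, Fin (len s + 1)) :=
    Equiv.sigmaCongrRight fun s => Fin.revPerm
  refine Nat.card_congr (E.subtypeEquiv ?_)
  rintro ⟨s, i⟩
  have hE : sw len (E ⟨s, i⟩) = -sw len ⟨s, i⟩ := by
    show (len s : ℤ) - 2 * ((Fin.rev i : Fin (len s + 1)) : ℕ) =
      -((len s : ℤ) - 2 * (i : ℕ))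
    rw [Fin.val_rev]
    have := i.2
    omega
  rw [hE]
  omega

omit [Fintype ι] in
lemma sw_zero_one_iff : (∀ p, sw len p = 0 ∨ sw len p = 1) ↔ ∀ s, len s = 0 := by
  constructor
  · intro h s
    have := h ⟨s, Fin.last (len s)⟩
    unfold sw at this
    simp only [Fin.val_last] at this
    omega
  · rintro h ⟨s, i⟩
    left
    unfold sw
    have := i.2
    have := h s
    simp only
    omega

/-- The windows of a single string. -/
lemma card_win_sw (k : ℕ) : (Nat.card {p // -((k + 1 : ℕ) : ℤ) < sw len p ∧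
    sw len p ≤ ((k + 1 : ℕ) : ℤ)} : ℤ) - Nat.card {p // -(k : ℤ) < sw len p ∧ sw len p ≤ k} =
    Nat.card {s // k ≤ len s} := by
  classical
  have h : ∀ k : ℕ, Nat.card {p // -(k : ℤ) < sw len p ∧ sw len p ≤ k} =
      ∑ s, min k (len s + 1) := by
    intro k
    rw [Nat.card_eq_fintype_card, Fintype.card_subtype, Finset.card_filter, Fintype.sum_sigma]
    refine Finset.sum_congr rfl fun s _ => ?_
    rw [← card_win (len s) k, Finset.card_filter]
    rfl
  rw [h, h, Nat.card_eq_fintype_card, Fintype.card_subtype, Finset.card_filter]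
  push_cast
  rw [← Finset.sum_sub_distrib]
  refine Finset.sum_congr rfl fun s _ => ?_
  split_ifs with hs
  · omega
  · omega

/-- The second moment. -/
lemma sum_sw : ∑ᶠ k : ℕ, (k : ℤ) * (k + 1) * (Nat.card {s // k ≤ len s} : ℤ) =
    ∑ p, sw len p ^ 2 := by
  classical
  set L := Finset.univ.sup len with hL
  have hle : ∀ s, len s ≤ L := fun s => Finset.le_sup (Finset.mem_univ s)
  have hpoly : ∀ l : ℕ, 3 * ∑ k ∈ Finset.range (l + 1), (k : ℤ) * (k + 1) =
      l * (l + 1) * (l + 2) := by
    intro l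
    induction l with
    | zero => simp
    | succ l ih =>
      rw [Finset.sum_range_succ, mul_add, ih]
      push_cast
      ring
  have hsq : ∀ l : ℕ, 3 * ∑ i : Fin (l + 1), ((l : ℤ) - 2 * ((i : ℕ) : ℤ)) ^ 2 =
      (l : ℤ) * (l + 1) * (l + 2) := by
    intro l
    rw [Fin.sum_univ_eq_sum_range (fun i => ((l : ℤ) - 2 * (i : ℤ)) ^ 2) (l + 1)]
    have h : ∀ (n : ℕ) (s : ℤ), 3 * ∑ i ∈ Finset.range n, (s - 2 * (i : ℤ)) ^ 2 =
        3 * n * s ^ 2 - 6 * s * n * (n - 1) + 2 * n * (n - 1) * (2 * n - 1) := by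
      intro n s
      induction n with
      | zero => simp
      | succ n ih =>
        rw [Finset.sum_range_succ, mul_add, ih]
        push_cast
        ring
    rw [h]
    push_cast
    ring
  rw [finsum_eq_sum_of_support_subset (s := Finset.range (L + 1))]
  · rw [Fintype.sum_sigma]
    have h1 : ∀ k : ℕ, (k : ℤ) * (k + 1) * (Nat.card {s // k ≤ len s} : ℤ) =
        ∑ s, if k ≤ len s then (k : ℤ) * (k + 1) else 0 := by
      intro k
      rw [Nat.card_eq_fintype_card, Fintype.card_subtype, ← Finset.sum_filter, Finset.sum_const,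
        nsmul_eq_mul, mul_comm]
    rw [Finset.sum_congr rfl (fun k _ => h1 k), Finset.sum_comm]
    refine Finset.sum_congr rfl fun s _ => ?_
    have h2 : ∑ k ∈ Finset.range (L + 1), (if k ≤ len s then (k : ℤ) * (k + 1) else 0) =
        ∑ k ∈ Finset.range (len s + 1), (k : ℤ) * (k + 1) := by
      rw [← Finset.sum_filter]
      refine Finset.sum_congr ?_ fun _ _ => rfl
      ext k
      simp only [Finset.mem_filter, Finset.mem_range]
      have := hle s
      omega
    rw [h2]
    have h3 := hpoly (len s)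
    have h4 := hsq (len s)
    unfold sw
    simp only
    linarith
  · intro k hk
    by_contra hcon
    apply hk
    simp only [Finset.coe_range, Set.mem_Iio, not_lt] at hcon
    have : IsEmpty {s // k ≤ len s} := ⟨fun s => by
      have := hle s.1
      have := s.2
      omega⟩
    show (k : ℤ) * (k + 1) * (Nat.card {s // k ≤ len s} : ℤ) = 0
    rw [Nat.card_of_isEmpty]
    simp

end strings

section law

variable {Ω : Type w} [Field Ω] [CharZero Ω] [IsAlgClosed Ω]

/-- **The Jordan blocks of Frobenius on the powers.** -/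
theorem jordan_law {R : ℕ → FCoh.{v, w} Ω} (hR : IsFCoh (R 0))
    (hκ : ∀ n, ∃ κ, IsFKunneth (R 0) (R n) (R (n + 1)) κ) (b A : ℝ)
    (hb : b = finrank Ω (R 0).V) (hA : A = jordanMoment (R 0).F) :
    (Semisimple (R 0).F → ∀ n, Semisimple (R n).F) ∧
    (¬ Semisimple (R 0).F → 0 < A ∧ ∀ t : ℝ, 0 ≤ t →
      Tendsto (fun n : ℕ => √((n + 1 : ℕ) : ℝ) *
        ((blocks (R n).F ⌊t * √((n + 1 : ℕ) : ℝ)⌋₊ : ℝ) / b ^ (n + 1))) atTop
        (𝓝 (√(2 * b / (Real.pi * A)) * Real.exp (-(t ^ 2 * b / (2 * A)))))) := by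
  classical
  have := hR.finite
  obtain ⟨ι, hι, len, αs, ms, B, S, N, e, h, HJ, hB⟩ := exists_J hR.isInternal hR.F_gr hR.inj
  have HA : JAdp (R 0) (fun p : Σ s : ι, Fin (len s + 1) => αs p.1) (sw len)
      (fun p => ms p.1) := ⟨B, S, N, e, h, HJ, hB⟩
  have hss : Semisimple (R 0).F ↔ ∀ s, len s = 0 := by
    rw [HJ.semisimple_iff]
    exact sw_zero_one_iff len
  refine ⟨fun h0 n => ?_, fun h0 => ?_⟩
  · rw [hss] at h0
    obtain ⟨b', S', N', e', h', H', -⟩ := HA.pow hκ n
    rw [H'.semisimple_iff]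
    intro g
    left
    refine Finset.sum_eq_zero fun k _ => ?_
    unfold sw
    have h1 := (g k).2.2
    have h2 := h0 (g k).1
    omega
  · have hex : ∃ s, 1 ≤ len s := by
      by_contra hcon
      push Not at hcon
      exact h0 (hss.2 fun s => by have := hcon s; omega)
    obtain ⟨s, hs⟩ := hex
    have h2 : ∃ p p', sw len p = sw len p' + 2 := by
      refine ⟨⟨s, ⟨0, by omega⟩⟩, ⟨s, ⟨1, by omega⟩⟩, ?_⟩
      unfold sw
      simp
    have hcard : finrank Ω (R 0).V = Fintype.card (Σ s : ι, Fin (len s + 1)) :=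
      finrank_eq_card_basis B
    have hbk : ∀ k, blocks (R 0).F k = (Nat.card {s // k ≤ len s} : ℤ) := fun k =>
      (HJ.blocks_eq k).trans (card_win_sw len k)
    have hAeq : A = mom (sw len) := by
      rw [hA]
      unfold mom jordanMoment
      rw [finsum_congr (fun k => by rw [hbk k]), sum_sw]
      push_cast
      rfl
    have hAdp : ∀ n, ∃ (b' : Basis (Fin (n + 1) → Σ s : ι, Fin (len s + 1)) Ω (R n).V)
        (S' N' e' h' : Module.End Ω (R n).V), IsJ (R n).F b' (fun g => ∏ k, αs (g k).1)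
        (fun g => ∑ k, sw len (g k)) S' N' e' h' := by
      intro n
      obtain ⟨b', S', N', e', h', H', -⟩ := HA.pow hκ n
      exact ⟨b', S', N', e', h', H'⟩
    refine ⟨hAeq ▸ mom_pos (ne_zero_of_two h2), fun t ht => ?_⟩
    have h1 := rayleigh_count (sw len) (sw_sym len) h2 (fun n k => by
      rcases n with _ | n
      · exact win_concave_zero _ k
      · obtain ⟨b', S', N', e', h', H'⟩ := hAdp n
        have e1 : ∀ k, win (sw len) (n + 1) k = finrank Ω (LinearMap.ker (N' ^ k)) := by
          intro k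
          rw [finrank_ker_sl2 H'.sl]
          rfl
        rw [e1, e1, e1]
        exact ker_concave H'.sl k) ht
    have h3 := (tendsto_add_atTop_iff_nat 1).2 h1
    rw [← hAeq, ← hcard, ← hb] at h3
    refine h3.congr fun n => ?_
    congr 2
    obtain ⟨b', S', N', e', h', H'⟩ := hAdp n
    rw [H'.blocks_eq]
    push_cast
    rfl

/-- If a positive proportion of the maximal possible number of Jordan blocks occurs on infinitely
many powers, then `F` is semisimple. -/
theorem semisimple_of_blocks {R : ℕ → FCoh.{v, w} Ω} (hR : IsFCoh (R 0))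
    (hκ : ∀ n, ∃ κ, IsFKunneth (R 0) (R n) (R (n + 1)) κ) (b ε : ℝ)
    (hb : b = finrank Ω (R 0).V) (hε : 0 < ε)
    (h : ∃ᶠ n in atTop, ε * b ^ (n + 1) ≤ blocks (R n).F 0) : Semisimple (R 0).F := by
  by_contra h0
  obtain ⟨hA, h1⟩ := (jordan_law hR hκ b _ hb rfl).2 h0
  have h2 := h1 0 le_rfl
  have hb0 : 0 ≤ b := by rw [hb]; positivity
  have h3 : Tendsto (fun n : ℕ => (√((n + 1 : ℕ) : ℝ))⁻¹) atTop (𝓝 0) :=
    (tendsto_add_atTop_iff_nat 1).2
      (tendsto_inv_atTop_zero.comp (Real.tendsto_sqrt_atTop.comp tendsto_natCast_atTop_atTop))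
  have h4 := h3.mul h2
  rw [zero_mul] at h4
  have h5 := h4.eventually (eventually_lt_nhds hε)
  obtain ⟨n, hn1, hn2⟩ := (h.and_eventually h5).exists
  simp only [zero_mul, Nat.floor_zero] at hn2
  have hs : √((n + 1 : ℕ) : ℝ) ≠ 0 := (Real.sqrt_pos.2 (by positivity)).ne'
  rw [← mul_assoc, inv_mul_cancel₀ hs, one_mul] at hn2
  rcases hb0.eq_or_lt with hb1 | hb1
  · have : Module.Finite Ω (R 0).V := hR.finite
    have hz : finrank Ω (R 0).V = 0 := by
      rw [← hb1] at hb
      exact_mod_cast hb.symm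
    have : Subsingleton (R 0).V := finrank_zero_iff.1 hz
    apply h0
    intro γ
    exact Subsingleton.elim _ _
  · rw [div_lt_iff₀ (by positivity)] at hn2
    linarith

end law

end Pool.Agent.Q60.SS
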