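import Pool.Agent.Q60.SS.Th
import Pool.Agent.H914R2.Var

/-!
# Cohomology theories for smooth proper and for complete varieties over a finite field
-/

set_option autoImplicit false

open Module TensorProduct CategoryTheory CategoryTheory.Limits AlgebraicGeometry

namespace Pool.Agent.Q60.SS

universe u v w

open Pool.Agent.H914

/-- The data of the cohomology of all the smooth proper varieties over `k`. -/
structure FTheory (k : Type u) [Field k] (Ω : Type w) [Field Ω] where
  /-- the cohomology of `X` -/
  H : SmVar.{u} k → FCoh.{v, w} Ω

/-- The known properties: finite dimension, `F` is invertible and respects the degrees; Künneth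
formula. -/
structure FTheory.IsFin {k : Type u} [Field k] {Ω : Type w} [Field Ω]
    (T : FTheory.{u, v, w} k Ω) : Prop where
  coh : ∀ X, IsFCoh (T.H X)
  kunneth : ∀ X Y, ∃ κ, IsFKunneth (T.H X) (T.H Y) (T.H (X.prod Y)) κ

/-- The powers `X^(n + 1)`. -/
noncomputable def pow {k : Type u} [Field k] (X : SmVar.{u} k) : ℕ → SmVar.{u} k
  | 0 => X
  | n + 1 => X.prod (pow X n)

/-- A complete variety over the field `k`: a proper scheme over `k`, which may be singular. -/
structure CVar (k : Type u) [Field k] where
  /-- the underlying scheme -/
  X : Scheme.{u}
  /-- the structure morphism -/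
  str : X ⟶ Spec (.of k)
  proper : IsProper str

attribute [instance] CVar.proper

/-- The product of two complete varieties. -/
noncomputable def CVar.prod {k : Type u} [Field k] (X Y : CVar k) : CVar k where
  X := pullback X.str Y.str
  str := pullback.fst X.str Y.str ≫ X.str
  proper := inferInstance

/-- The powers `X^(n + 1)` of a complete variety. -/
noncomputable def CVar.pow {k : Type u} [Field k] (X : CVar.{u} k) : ℕ → CVar.{u} k
  | 0 => X
  | n + 1 => X.prod (X.pow n)

/-- The data of the cohomology of all the complete varieties over `k`. -/
structure CTheory (k : Type u) [Field k] (Ω : Type w) [Field Ω] where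
  /-- the cohomology of `X` -/
  H : CVar.{u} k → FCoh.{v, w} Ω

/-- The known properties: finite dimension, `F` is invertible and respects the degrees; Künneth
formula. -/
structure CTheory.IsFin {k : Type u} [Field k] {Ω : Type w} [Field Ω]
    (T : CTheory.{u, v, w} k Ω) : Prop where
  coh : ∀ X, IsFCoh (T.H X)
  kunneth : ∀ X Y, ∃ κ, IsFKunneth (T.H X) (T.H Y) (T.H (X.prod Y)) κ

end Pool.Agent.Q60.SS
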